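import Mathlib.LinearAlgebra.Matrix.Determinant.Basic
import Mathlib.LinearAlgebra.Matrix.NonsingularInverse
import Mathlib.LinearAlgebra.Matrix.ToLinearEquiv
import Mathlib.Analysis.Matrix.Spectrum
import Mathlib.Data.Matrix.ColumnRowPartitioned
import Mathlib.Tactic.Linarith
import Mathlib.Tactic.Ring

/-!
# The Cauchy-Binet formula, weighted least squares and the Moore-Penrose inverse
-/

set_option autoImplicit false

open Matrix

namespace Pool.Agent.Q110.CB

variable {n κ : Type*} [Fintype n] [DecidableEq n] [Fintype κ] [DecidableEq κ]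

theorem det_mul_sum {R : Type*} [CommRing R] (M : Matrix n κ R) (N : Matrix κ n R) :
    (M * N).det = ∑ p : n → κ, (∏ i, M i (p i)) * (N.submatrix p id).det := by
  have h1 : (M * N) = fun i => ∑ k, M i k • N k := by
    funext i
    ext j
    rw [Matrix.mul_apply, Finset.sum_apply]
    rfl
  have h2 := (Matrix.detRowAlternating (n := n) (R := R)).toMultilinearMap.map_sum
    (g := fun i k => M i k • N k)
  have h3 : (M * N).det = ∑ p : n → κ, Matrix.det (fun i => M i (p i) • N (p i)) := by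
    rw [h1]
    exact h2
  rw [h3]
  refine Finset.sum_congr rfl fun p _ => ?_
  have h4 := (Matrix.detRowAlternating (n := n) (R := R)).toMultilinearMap.map_smul_univ
    (fun i => M i (p i)) (fun i => N (p i))
  exact h4

/-- The Cauchy-Binet formula, with a sum over all functions. -/
theorem cauchy_binet {R : Type*} [CommRing R] (M : Matrix n κ R) (N : Matrix κ n R) :
    ((Fintype.card n).factorial : R) * (M * N).det =
      ∑ p : n → κ, (M.submatrix id p).det * (N.submatrix p id).det := by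
  have h1 : ∀ σ : Equiv.Perm n, (M * N).det =
      ∑ p : n → κ, (∏ i, M i (p (σ i))) * (((Equiv.Perm.sign σ : ℤ) : R) * (N.submatrix p id).det) := by
    intro σ
    rw [det_mul_sum]
    rw [← Equiv.sum_comp (Equiv.arrowCongr σ.symm (Equiv.refl κ))]
    refine Finset.sum_congr rfl fun p _ => ?_
    have h2 : (Equiv.arrowCongr σ.symm (Equiv.refl κ)) p = p ∘ σ := by
      funext i
      rfl
    rw [h2]
    congr 1
    have h3 := Matrix.det_permute σ (N.submatrix p id)
    rw [← h3]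
    rfl
  have h2 : ((Fintype.card n).factorial : R) * (M * N).det = ∑ σ : Equiv.Perm n, (M * N).det := by
    rw [Finset.sum_const, Finset.card_univ, Fintype.card_perm, nsmul_eq_mul]
  rw [h2, Finset.sum_congr rfl fun σ _ => h1 σ, Finset.sum_comm]
  refine Finset.sum_congr rfl fun p _ => ?_
  have hM : (M.submatrix id p).det =
      ∑ σ : Equiv.Perm n, ((Equiv.Perm.sign σ : ℤ) : R) * ∏ i, M i (p (σ i)) := by
    rw [← Matrix.det_transpose, Matrix.det_apply']
    rfl
  rw [hM, Finset.sum_mul]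
  refine Finset.sum_congr rfl fun σ _ => ?_
  ring

/-- Coordinates of a least squares solution are bounded by the coordinates of the solutions of the
nonsingular square subsystems. -/
theorem lsq_bound (B : Matrix κ n ℝ) (c : κ → ℝ) (x : n → ℝ) (hB : (Bᵀ * B).det ≠ 0)
    (hx : (Bᵀ * B) *ᵥ x = Bᵀ *ᵥ c) (C : ℝ) (j : n)
    (hC : ∀ (p : n → κ) (y : n → ℝ), (B.submatrix p id).det ≠ 0 →
      (B.submatrix p id) *ᵥ y = c ∘ p → |y j| ≤ C) : |x j| ≤ C := by
  have hfac : (0 : ℝ) < ((Fintype.card n).factorial : ℝ) := by exact_mod_cast Nat.factorial_pos _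
  have h1 : ((Fintype.card n).factorial : ℝ) * (Bᵀ * B).det =
      ∑ p : n → κ, (B.submatrix p id).det ^ 2 := by
    rw [cauchy_binet]
    refine Finset.sum_congr rfl fun p _ => ?_
    have : (Bᵀ).submatrix id p = (B.submatrix p id)ᵀ := rfl
    rw [this, Matrix.det_transpose, sq]
  have h2 : (Bᵀ * B).det * x j = (Bᵀ * B.updateCol j c).det := by
    have h3 : Matrix.cramer (Bᵀ * B) ((Bᵀ * B) *ᵥ x) = (Bᵀ * B).det • x := by
      rw [Matrix.cramer_eq_adjugate_mulVec, Matrix.mulVec_mulVec, Matrix.adjugate_mul,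
        Matrix.smul_mulVec, Matrix.one_mulVec]
    have h4 := congrFun h3 j
    rw [hx, Matrix.cramer_apply, Pi.smul_apply, smul_eq_mul] at h4
    rw [← h4]
    congr 1
    ext a b
    by_cases hb : b = j
    · subst hb
      simp [Matrix.mul_apply, Matrix.mulVec, dotProduct]
    · simp [Matrix.mul_apply, hb]
  have h5 : ((Fintype.card n).factorial : ℝ) * ((Bᵀ * B).det * x j) =
      ∑ p : n → κ, (B.submatrix p id).det * ((B.submatrix p id).updateCol j (c ∘ p)).det := by
    rw [h2, cauchy_binet]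
    refine Finset.sum_congr rfl fun p _ => ?_
    have : (Bᵀ).submatrix id p = (B.submatrix p id)ᵀ := rfl
    rw [this, Matrix.det_transpose]
    congr 2
  have h6 : |((Fintype.card n).factorial : ℝ) * ((Bᵀ * B).det * x j)| ≤
      (∑ p : n → κ, (B.submatrix p id).det ^ 2) * C := by
    rw [h5, Finset.sum_mul]
    refine (Finset.abs_sum_le_sum_abs _ _).trans (Finset.sum_le_sum fun p _ => ?_)
    by_cases hp : (B.submatrix p id).det = 0
    · rw [hp]
      simp
    · set D := B.submatrix p id with hD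
      set y : n → ℝ := D⁻¹ *ᵥ (c ∘ p) with hy
      have hDy : D *ᵥ y = c ∘ p := by
        rw [hy, Matrix.mulVec_mulVec, Matrix.mul_nonsing_inv _ (isUnit_iff_ne_zero.2 hp),
          Matrix.one_mulVec]
      have h7 : D.det * y j = (D.updateCol j (c ∘ p)).det := by
        have h3 : Matrix.cramer D (D *ᵥ y) = D.det • y := by
          rw [Matrix.cramer_eq_adjugate_mulVec, Matrix.mulVec_mulVec, Matrix.adjugate_mul,
            Matrix.smul_mulVec, Matrix.one_mulVec]
        have h4 := congrFun h3 j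
        rw [hDy, Matrix.cramer_apply, Pi.smul_apply, smul_eq_mul] at h4
        exact h4.symm
      rw [← h7]
      have h8 : D.det * (D.det * y j) = D.det ^ 2 * y j := by ring
      rw [h8, abs_mul, abs_of_nonneg (sq_nonneg D.det)]
      exact mul_le_mul_of_nonneg_left (hC p y hp hDy) (sq_nonneg _)
  rw [← h1, abs_mul, abs_of_pos hfac, abs_mul, mul_assoc] at h6
  have h9 : |(Bᵀ * B).det| * |x j| ≤ (Bᵀ * B).det * C := le_of_mul_le_mul_left h6 hfac
  have hpos : 0 < (Bᵀ * B).det := by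
    refine lt_of_le_of_ne ?_ (Ne.symm hB)
    have h10 : 0 ≤ ((Fintype.card n).factorial : ℝ) * (Bᵀ * B).det := by
      rw [h1]
      exact Finset.sum_nonneg fun p _ => sq_nonneg _
    exact nonneg_of_mul_nonneg_right h10 hfac
  rw [abs_of_pos hpos] at h9
  exact le_of_mul_le_mul_left h9 hpos

/-- `P` is a Moore-Penrose inverse of the real matrix `A`. -/
def IsPinv {m k : Type*} [Fintype m] [Fintype k] (A : Matrix m k ℝ) (P : Matrix k m ℝ) : Prop :=
  A * P * A = A ∧ P * A * P = P ∧ (A * P)ᵀ = A * P ∧ (P * A)ᵀ = P * A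

theorem IsPinv.unique {m k : Type*} [Fintype m] [Fintype k] {A : Matrix m k ℝ}
    {P Q : Matrix k m ℝ} (hP : IsPinv A P) (hQ : IsPinv A Q) : P = Q := by
  obtain ⟨p1, p2, p3, p4⟩ := hP
  obtain ⟨q1, q2, q3, q4⟩ := hQ
  have h1 : A * P = A * Q := by
    calc A * P = (A * P)ᵀ := p3.symm
      _ = ((A * Q) * (A * P))ᵀ := by rw [← Matrix.mul_assoc, q1]
      _ = (A * P)ᵀ * (A * Q)ᵀ := Matrix.transpose_mul _ _
      _ = (A * P) * (A * Q) := by rw [p3, q3]
      _ = A * Q := by rw [← Matrix.mul_assoc, p1]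
  have h2 : P * A = Q * A := by
    calc P * A = (P * A)ᵀ := p4.symm
      _ = ((P * A) * (Q * A))ᵀ := by rw [Matrix.mul_assoc P, ← Matrix.mul_assoc A, q1]
      _ = (Q * A)ᵀ * (P * A)ᵀ := Matrix.transpose_mul _ _
      _ = (Q * A) * (P * A) := by rw [p4, q4]
      _ = Q * A := by rw [Matrix.mul_assoc Q, ← Matrix.mul_assoc A, p1]
  calc P = P * A * P := p2.symm
    _ = Q * A * P := by rw [h2]
    _ = Q * (A * P) := Matrix.mul_assoc _ _ _
    _ = Q * (A * Q) := by rw [h1]
    _ = Q := by rw [← Matrix.mul_assoc, q2]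

/-- Coordinates of `A† b` are bounded by the coordinates of the solutions of the nonsingular square
systems formed by rows of `A x = b` and equations `x_j = 0`. -/
theorem pinv_bound (A : Matrix κ n ℝ) (P : Matrix n κ ℝ) (hP : IsPinv A P) (b : κ → ℝ) (C : ℝ)
    (j : n)
    (hC : ∀ (p : n → κ ⊕ n) (y : n → ℝ),
      (∀ z : n → ℝ, (∀ i, Sum.elim (fun s => A s ⬝ᵥ z = b s) (fun k => z k = 0) (p i)) ↔ z = y) →
      |y j| ≤ C) : |(P *ᵥ b) j| ≤ C := by
  obtain ⟨p1, p2, p3, p4⟩ := hP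
  set x₀ := P *ᵥ b with hx₀
  set w : κ → ℝ := Pᵀ *ᵥ x₀ with hw
  have hn : Aᵀ *ᵥ (A *ᵥ x₀) = Aᵀ *ᵥ b := by
    have h1 : Aᵀ * (A * P) = Aᵀ := by
      rw [← p3, ← Matrix.transpose_mul, p1]
    have h2 : Aᵀ *ᵥ (A *ᵥ (P *ᵥ b)) = (Aᵀ * (A * P)) *ᵥ b := by
      rw [← Matrix.mulVec_mulVec, ← Matrix.mulVec_mulVec]
    rw [hx₀, h2, h1]
  have hr : x₀ = Aᵀ *ᵥ w := by
    have h1 : Aᵀ * Pᵀ * P = P := by
      rw [← Matrix.transpose_mul, p4, p2]
    have h2 : Aᵀ *ᵥ (Pᵀ *ᵥ (P *ᵥ b)) = (Aᵀ * Pᵀ * P) *ᵥ b := by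
      rw [← Matrix.mulVec_mulVec, ← Matrix.mulVec_mulVec]
    rw [hw, hx₀, h2, h1]
  -- the regularised problem
  have key : ∀ δ : ℝ, 0 < δ → |x₀ j| ≤ C + δ * (w ⬝ᵥ w + 1) := by
    intro δ hδ
    set B : Matrix (κ ⊕ n) n ℝ := Matrix.fromRows A (δ • (1 : Matrix n n ℝ)) with hB
    set c : κ ⊕ n → ℝ := Sum.elim b 0 with hc
    have hBB : Bᵀ * B = Aᵀ * A + δ ^ 2 • (1 : Matrix n n ℝ) := by
      rw [hB, Matrix.transpose_fromRows, Matrix.fromCols_mul_fromRows, Matrix.transpose_smul,
        Matrix.transpose_one, Matrix.smul_mul, Matrix.mul_smul, Matrix.one_mul, smul_smul, sq]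
    have hq : ∀ z : n → ℝ, z ⬝ᵥ ((Bᵀ * B) *ᵥ z) = (A *ᵥ z) ⬝ᵥ (A *ᵥ z) + δ ^ 2 * (z ⬝ᵥ z) := by
      intro z
      rw [hBB, Matrix.add_mulVec, dotProduct_add, Matrix.smul_mulVec, Matrix.one_mulVec,
        dotProduct_smul, smul_eq_mul, ← Matrix.mulVec_mulVec, Matrix.dotProduct_mulVec,
        Matrix.vecMul_transpose]
    have hdet : (Bᵀ * B).det ≠ 0 := by
      intro h0
      obtain ⟨v, hv, hv0⟩ := Matrix.exists_mulVec_eq_zero_iff.2 h0
      have h1 := hq v
      rw [hv0, dotProduct_zero] at h1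
      have h2 : 0 ≤ (A *ᵥ v) ⬝ᵥ (A *ᵥ v) := by
        simp only [dotProduct]
        exact Finset.sum_nonneg fun i _ => mul_self_nonneg _
      have h3 : 0 < v ⬝ᵥ v := by
        refine lt_of_le_of_ne ?_ fun h => hv (dotProduct_self_eq_zero.1 h.symm)
        simp only [dotProduct]
        exact Finset.sum_nonneg fun i _ => mul_self_nonneg _
      have h4 : 0 < δ ^ 2 * (v ⬝ᵥ v) := by positivity
      linarith
    have hu : IsUnit (Bᵀ * B).det := isUnit_iff_ne_zero.2 hdet
    set x : n → ℝ := (Bᵀ * B)⁻¹ *ᵥ (Bᵀ *ᵥ c) with hx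
    have hx1 : (Bᵀ * B) *ᵥ x = Bᵀ *ᵥ c := by
      rw [hx, Matrix.mulVec_mulVec, Matrix.mul_nonsing_inv _ hu, Matrix.one_mulVec]
    have hxC : |x j| ≤ C := by
      refine lsq_bound B c x hdet hx1 C j fun p y hpdet hy => hC p y fun z => ?_
      have h1 : (∀ i, Sum.elim (fun s => A s ⬝ᵥ z = b s) (fun k => z k = 0) (p i)) ↔
          (B.submatrix p id) *ᵥ z = c ∘ p := by
        rw [funext_iff]
        refine forall_congr' fun i => ?_
        rcases hpi : p i with s | k
        · simp only [Sum.elim_inl, Matrix.mulVec, Function.comp_apply, hpi, hc, hB,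
            Matrix.submatrix_apply, id]
          exact Iff.rfl
        · simp only [Sum.elim_inr, Matrix.mulVec, Function.comp_apply, hpi, hc, hB]
          have h2 : ((fun l => (Matrix.fromRows A (δ • (1 : Matrix n n ℝ))).submatrix p id i l)
              ⬝ᵥ z) = δ * z k := by
            simp only [dotProduct, Matrix.submatrix_apply, hpi, id, Matrix.fromRows_apply_inr,
              Matrix.smul_apply, Matrix.one_apply, smul_eq_mul]
            simp
          rw [h2]
          simp [hδ.ne']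
      rw [h1]
      constructor
      · intro hz
        have h2 : (B.submatrix p id) *ᵥ (z - y) = 0 := by
          rw [Matrix.mulVec_sub, hz, hy, sub_self]
        by_contra hne
        exact hpdet (Matrix.exists_mulVec_eq_zero_iff.1 ⟨z - y, sub_ne_zero.2 hne, h2⟩)
      · rintro rfl
        exact hy
    -- the distance to `x₀`
    set z : n → ℝ := x₀ - x with hz
    have hz1 : (Bᵀ * B) *ᵥ z = δ ^ 2 • (Aᵀ *ᵥ w) := by
      rw [hz, Matrix.mulVec_sub, hx1, hBB, Matrix.add_mulVec, ← Matrix.mulVec_mulVec, hn,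
        Matrix.smul_mulVec, Matrix.one_mulVec, ← hr]
      have : Bᵀ *ᵥ c = Aᵀ *ᵥ b := by
        rw [hB, hc, Matrix.transpose_fromRows]
        have := Matrix.fromCols_mulVec Aᵀ ((δ • (1 : Matrix n n ℝ))ᵀ) (Sum.elim b 0)
        rw [this]
        have h0 : (Sum.elim b (0 : n → ℝ)) ∘ Sum.inr = 0 := rfl
        rw [h0, Matrix.mulVec_zero, add_zero]
        rfl
      rw [this, add_sub_cancel_left]
    have h2 := hq z
    rw [hz1, dotProduct_smul, smul_eq_mul, Matrix.dotProduct_mulVec, Matrix.vecMul_transpose] at h2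
    -- `δ² (A z) ⬝ w = |A z|² + δ² |z|²`
    have h3 : δ ^ 2 * ((A *ᵥ z) ⬝ᵥ w) ≤ (A *ᵥ z) ⬝ᵥ (A *ᵥ z) + δ ^ 4 * (w ⬝ᵥ w) := by
      have h4 : 0 ≤ (A *ᵥ z - δ ^ 2 • w) ⬝ᵥ (A *ᵥ z - δ ^ 2 • w) := by
        simp only [dotProduct]
        exact Finset.sum_nonneg fun i _ => mul_self_nonneg _
      rw [sub_dotProduct, dotProduct_sub, dotProduct_sub, smul_dotProduct, dotProduct_smul,
        smul_dotProduct, dotProduct_smul, dotProduct_comm w (A *ᵥ z)] at h4
      simp only [smul_eq_mul] at h4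
      have h5 : 0 ≤ (A *ᵥ z) ⬝ᵥ (A *ᵥ z) := by
        simp only [dotProduct]
        exact Finset.sum_nonneg fun i _ => mul_self_nonneg _
      have h6 : 0 ≤ w ⬝ᵥ w := by
        simp only [dotProduct]
        exact Finset.sum_nonneg fun i _ => mul_self_nonneg _
      nlinarith [sq_nonneg (δ ^ 2)]
    have h7 : z ⬝ᵥ z ≤ δ ^ 2 * (w ⬝ᵥ w) := by
      have h8 : δ ^ 2 * (z ⬝ᵥ z) ≤ δ ^ 2 * (δ ^ 2 * (w ⬝ᵥ w)) := by nlinarith
      exact le_of_mul_le_mul_left h8 (by positivity)
    have h9 : z j ^ 2 ≤ z ⬝ᵥ z := by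
      simp only [dotProduct]
      rw [sq]
      exact Finset.single_le_sum (f := fun i => z i * z i) (fun i _ => mul_self_nonneg _)
        (Finset.mem_univ j)
    have hww : 0 ≤ w ⬝ᵥ w := by
      simp only [dotProduct]
      exact Finset.sum_nonneg fun i _ => mul_self_nonneg _
    have h10 : |z j| ≤ δ * (w ⬝ᵥ w + 1) := by
      refine abs_le_of_sq_le_sq ?_ (by positivity)
      have h11 : δ ^ 2 * (w ⬝ᵥ w) ≤ (δ * (w ⬝ᵥ w + 1)) ^ 2 := by
        have : w ⬝ᵥ w ≤ (w ⬝ᵥ w + 1) ^ 2 := by nlinarith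
        rw [mul_pow]
        exact mul_le_mul_of_nonneg_left this (sq_nonneg _)
      linarith
    have h12 : x₀ j = x j + z j := by
      rw [hz]
      simp
    rw [h12]
    exact (abs_add_le _ _).trans (add_le_add hxC h10)
  by_contra hcon
  push Not at hcon
  have hww : 0 < w ⬝ᵥ w + 1 := by
    have : 0 ≤ w ⬝ᵥ w := by
      simp only [dotProduct]
      exact Finset.sum_nonneg fun i _ => mul_self_nonneg _
    linarith
  have h1 := key ((|x₀ j| - C) / (2 * (w ⬝ᵥ w + 1))) (div_pos (by linarith) (by linarith))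
  have h2 : (|x₀ j| - C) / (2 * (w ⬝ᵥ w + 1)) * (w ⬝ᵥ w + 1) = (|x₀ j| - C) / 2 := by
    field_simp
  rw [h2] at h1
  linarith

/-- Existence of the Moore-Penrose inverse. -/
theorem exists_pinv (A : Matrix κ n ℝ) : ∃ P : Matrix n κ ℝ, IsPinv A P := by
  set G := Aᵀ * A with hG
  have hherm : G.IsHermitian := by
    rw [hG, Matrix.IsHermitian, Matrix.conjTranspose_eq_transpose_of_trivial,
      Matrix.transpose_mul, Matrix.transpose_transpose]
  set U : Matrix n n ℝ := (hherm.eigenvectorUnitary : Matrix n n ℝ) with hU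
  set d : n → ℝ := hherm.eigenvalues with hd
  have hUU : U * Uᵀ = 1 := by
    have := Unitary.coe_mul_star_self hherm.eigenvectorUnitary
    exact this
  have hUU' : Uᵀ * U = 1 := by
    have := Unitary.coe_star_mul_self hherm.eigenvectorUnitary
    exact this
  have hsp : G = U * Matrix.diagonal d * Uᵀ := by
    have h := hherm.spectral_theorem
    exact h
  set Gp : Matrix n n ℝ := U * Matrix.diagonal (fun i => (d i)⁻¹) * Uᵀ with hGp
  have hGpT : Gpᵀ = Gp := by
    rw [hGp, Matrix.transpose_mul, Matrix.transpose_mul, Matrix.transpose_transpose,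
      Matrix.diagonal_transpose, Matrix.mul_assoc]
  have hGT : Gᵀ = G := by
    rw [hG, Matrix.transpose_mul, Matrix.transpose_transpose]
  have hprod : ∀ e f : n → ℝ, (U * Matrix.diagonal e * Uᵀ) * (U * Matrix.diagonal f * Uᵀ) =
      U * Matrix.diagonal (fun i => e i * f i) * Uᵀ := by
    intro e f
    calc (U * Matrix.diagonal e * Uᵀ) * (U * Matrix.diagonal f * Uᵀ)
        = U * Matrix.diagonal e * (Uᵀ * U) * Matrix.diagonal f * Uᵀ := by
          simp only [Matrix.mul_assoc]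
      _ = U * (Matrix.diagonal e * Matrix.diagonal f) * Uᵀ := by
          rw [hUU', Matrix.mul_one, Matrix.mul_assoc U]
      _ = _ := by rw [Matrix.diagonal_mul_diagonal]
  have hcomm : Gp * G = G * Gp := by
    rw [hsp, hGp, hprod, hprod]
    congr 3
    funext i
    exact mul_comm _ _
  have hGGG : G * (Gp * G) = G := by
    rw [hcomm, hsp, hGp, hprod, hprod]
    congr 3
    funext i
    by_cases h : d i = 0
    · rw [h]; simp
    · field_simp
  have hGpG : Gp * G * Gp = Gp := by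
    rw [hsp, hGp, hprod, hprod]
    congr 3
    funext i
    by_cases h : d i = 0
    · rw [h]; simp
    · field_simp
  have hA : A * (Gp * G) = A := by
    have h1 : (A * (Gp * G) - A)ᵀ * (A * (Gp * G) - A) = 0 := by
      have h2 : (A * (Gp * G) - A)ᵀ * (A * (Gp * G) - A) =
          ((Gp * G)ᵀ - 1) * (G * (Gp * G) - G) := by
        rw [Matrix.transpose_sub, Matrix.transpose_mul, Matrix.sub_mul, Matrix.mul_sub,
          Matrix.mul_sub, Matrix.sub_mul, Matrix.mul_sub, Matrix.mul_sub, Matrix.one_mul,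
          Matrix.one_mul]
        simp only [hG, Matrix.mul_assoc]
      rw [h2, hGGG, sub_self, Matrix.mul_zero]
    have h3 : A * (Gp * G) - A = 0 := by
      ext a c
      have h4 := congrFun (congrFun h1 c) c
      rw [Matrix.mul_apply, Matrix.zero_apply] at h4
      have h5 := (Finset.sum_eq_zero_iff_of_nonneg (fun i _ => mul_self_nonneg _)).1 h4 a
        (Finset.mem_univ a)
      exact mul_self_eq_zero.1 h5
    exact sub_eq_zero.1 h3
  refine ⟨Gp * Aᵀ, ?_, ?_, ?_, ?_⟩
  · rw [Matrix.mul_assoc, Matrix.mul_assoc]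
    exact hA
  · rw [Matrix.mul_assoc Gp Aᵀ A, ← hG, ← Matrix.mul_assoc, hGpG]
  · rw [Matrix.transpose_mul, Matrix.transpose_mul, Matrix.transpose_transpose, hGpT,
      Matrix.mul_assoc]
  · rw [Matrix.mul_assoc Gp Aᵀ A, ← hG, Matrix.transpose_mul, hGpT, hGT, hcomm]

end Pool.Agent.Q110.CB
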