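import Pool.Agent.Q110.Tys
import Pool.Agent.Q110.CB
import Mathlib.RingTheory.PrincipalIdealDomain
import Mathlib.RingTheory.Ideal.Span

/-!
# Small integer solutions of linear Diophantine systems (Borosh, Flahive, Rubin, Treybig)
-/

set_option autoImplicit false

open Matrix

namespace Pool.Agent.Q110.Dio

/-- Solvability criterion. -/
theorem solvable {r n : ℕ} (A : Matrix (Fin r) (Fin n) ℤ) (β : Fin r → ℤ) (g : ℤ) (hg : 0 < g)
    (hb : ∃ u : (Fin r → Fin n) → ℤ, ∑ p, u p * (A.submatrix id p).det = g)
    (h : ∀ (p : Fin r → Fin n) (i : Fin r), g ∣ Matrix.cramer (A.submatrix id p) β i) :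
    ∃ x : Fin n → ℤ, A *ᵥ x = β := by
  classical
  obtain ⟨u, hu⟩ := hb
  choose y hy using h
  have hy' : ∀ p, Matrix.cramer (A.submatrix id p) β = g • y p := by
    intro p
    funext i
    rw [hy p i]
    rfl
  let z : (Fin r → Fin n) → Fin n → ℤ := fun p j => ∑ i, if p i = j then y p i else 0
  have hz : ∀ p, A *ᵥ (z p) = (A.submatrix id p) *ᵥ (y p) := by
    intro p
    funext a
    simp only [Matrix.mulVec, dotProduct, z, Finset.mul_sum, Matrix.submatrix_apply, id]
    rw [Finset.sum_comm]
    refine Finset.sum_congr rfl fun i _ => ?_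
    rw [Finset.sum_eq_single (p i)]
    · simp
    · intro j _ hj
      rw [if_neg (Ne.symm hj), mul_zero]
    · intro hj
      exact (hj (Finset.mem_univ _)).elim
  refine ⟨∑ p, u p • z p, ?_⟩
  have h1 : g • (A *ᵥ (∑ p, u p • z p)) = g • β := by
    have h2 : ∀ p, g • (A *ᵥ z p) = (A.submatrix id p).det • β := by
      intro p
      rw [hz p, ← Matrix.mulVec_smul, ← hy' p, Matrix.mulVec_cramer]
    have h3 : A *ᵥ (∑ p, u p • z p) = ∑ p, u p • (A *ᵥ z p) := by
      have := map_sum (Matrix.mulVecLin A) (fun p => u p • z p) Finset.univ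
      simp only [Matrix.mulVecLin_apply, Matrix.mulVec_smul] at this
      exact this
    rw [h3, Finset.smul_sum]
    have h4 : ∀ p, g • (u p • (A *ᵥ z p)) = (u p * (A.submatrix id p).det) • β := by
      intro p
      rw [smul_comm, h2 p, smul_smul]
    rw [Finset.sum_congr rfl fun p _ => h4 p, ← Finset.sum_smul, hu]
  funext a
  have h5 := congrFun h1 a
  simp only [Pi.smul_apply, smul_eq_mul] at h5
  exact mul_left_cancel₀ hg.ne' h5

/-- The determinant divides all minors of a square matrix with repeated columns. -/
theorem det_dvd_minor {r n : ℕ} (A : Matrix (Fin r) (Fin n) ℤ) (p : Fin r → Fin n)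
    (hp : Function.Surjective p) (q : Fin r → Fin n) :
    (A.submatrix id p).det ∣ (A.submatrix id q).det := by
  choose s hs using fun i => hp (q i)
  have h1 : A.submatrix id q = (A.submatrix id p) *
      (Matrix.of fun a b => if a = s b then (1 : ℤ) else 0) := by
    ext a b
    rw [Matrix.mul_apply]
    simp [hs]
  rw [h1, Matrix.det_mul]
  exact dvd_mul_right _ _

/-- A sharp bound for solutions of linear Diophantine equations. -/
theorem small_solution {r : ℕ} (Y : ℤ) :
    ∀ (n : ℕ) (A : Matrix (Fin r) (Fin n) ℤ) (b : Fin r → ℤ) (g : ℤ), 0 < g →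
      (∀ p : Fin r → Fin n, g ∣ (A.submatrix id p).det) →
      (∃ u : (Fin r → Fin n) → ℤ, ∑ p, u p * (A.submatrix id p).det = g) →
      (∀ p : Fin r → Fin n, |(A.submatrix id p).det| ≤ Y * g) →
      (∀ (p : Fin r → Fin n) (i : Fin r), |Matrix.cramer (A.submatrix id p) b i| ≤ Y * g) →
      (∃ x : Fin n → ℤ, A *ᵥ x = b) → ∃ x : Fin n → ℤ, A *ᵥ x = b ∧ ∀ i, |x i| ≤ Y := by
  intro n
  induction n with
  | zero =>
    rintro A b g hg hdvd hbez hA hb ⟨x, hx⟩
    exact ⟨x, hx, fun i => i.elim0⟩
  | succ n ih =>
    rintro A b g hg hdvd hbez hA hb ⟨x, hx⟩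
    -- some minor is nonzero
    have hne : ∃ p, (A.submatrix id p).det ≠ 0 := by
      by_contra hcon
      push Not at hcon
      obtain ⟨u, hu⟩ := hbez
      rw [Finset.sum_eq_zero fun p _ => by rw [hcon p, mul_zero]] at hu
      omega
    obtain ⟨p, hp⟩ := hne
    have hY : 0 ≤ Y := by
      have h1 := (abs_nonneg _).trans (hA p)
      by_contra hcon
      push Not at hcon
      nlinarith
    by_cases hsurj : Function.Surjective p
    · refine ⟨x, hx, fun j => ?_⟩
      obtain ⟨i, rfl⟩ := hsurj j
      have h1 : (A.submatrix id p).det ∣ g := by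
        obtain ⟨u, hu⟩ := hbez
        rw [← hu]
        exact Finset.dvd_sum fun q _ => Dvd.dvd.mul_left (det_dvd_minor A p hsurj q) _
      have hinj : Function.Injective p := by
        intro a c hac
        by_contra hne
        apply hp
        exact Matrix.det_zero_of_column_eq hne fun k => by
          rw [Matrix.submatrix_apply, Matrix.submatrix_apply, hac]
      have h2 : (A.submatrix id p) *ᵥ (x ∘ p) = b := by
        rw [← hx]
        funext a
        simp only [Matrix.mulVec, dotProduct, Matrix.submatrix_apply, id, Function.comp_apply]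
        exact (Function.Bijective.sum_comp ⟨hinj, hsurj⟩ (fun j => A a j * x j))
      have h3 : Matrix.cramer (A.submatrix id p) b i = (A.submatrix id p).det * x (p i) := by
        rw [← h2, Matrix.cramer_eq_adjugate_mulVec, Matrix.mulVec_mulVec, Matrix.adjugate_mul,
          Matrix.smul_mulVec, Matrix.one_mulVec]
        rfl
      have h4 := hb p i
      rw [h3, abs_mul] at h4
      have h5 : g ≤ |(A.submatrix id p).det| :=
        Int.le_of_dvd (abs_pos.2 hp) ((dvd_abs _ _).2 (hdvd p))
      have h6 : |(A.submatrix id p).det| ≤ g := Int.le_of_dvd hg ((abs_dvd _ _).2 h1)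
      have h7 : |(A.submatrix id p).det| = g := le_antisymm h6 h5
      rw [h7, mul_comm] at h4
      exact le_of_mul_le_mul_right h4 hg
    · -- remove a column
      rw [Function.Surjective] at hsurj
      push Not at hsurj
      obtain ⟨c, hc⟩ := hsurj
      have hp' : ∃ p' : Fin r → Fin n, ∀ i, c.succAbove (p' i) = p i := by
        choose p' hp' using fun i => Fin.exists_succAbove_eq (hc i)
        exact ⟨p', hp'⟩
      obtain ⟨p', hp'⟩ := hp'
      set A' : Matrix (Fin r) (Fin n) ℤ := A.submatrix id c.succAbove with hA'
      set a : Fin r → ℤ := fun i => A i c with ha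
      have hA'p : ∀ q : Fin r → Fin n, A'.submatrix id q = A.submatrix id (c.succAbove ∘ q) :=
        fun q => rfl
      -- the gcd of the minors of `A'`
      obtain ⟨g', hg'⟩ := (IsPrincipalIdealRing.principal
        (Ideal.span (Set.range fun q : Fin r → Fin n => (A'.submatrix id q).det))).principal
      have hg'span : ∀ z : ℤ, z ∈ Ideal.span (Set.range fun q : Fin r → Fin n =>
          (A'.submatrix id q).det) ↔ g' ∣ z := by
        intro z
        rw [hg', Submodule.mem_span_singleton]
        constructor
        · rintro ⟨w, rfl⟩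
          exact ⟨w, by rw [smul_eq_mul, mul_comm]⟩
        · rintro ⟨w, rfl⟩
          exact ⟨w, by rw [smul_eq_mul, mul_comm]⟩
      set G : ℤ := |g'| with hG
      have hdvd' : ∀ q : Fin r → Fin n, G ∣ (A'.submatrix id q).det := fun q =>
        (abs_dvd _ _).2 ((hg'span _).1 (Ideal.subset_span ⟨q, rfl⟩))
      have hbez' : ∃ u : (Fin r → Fin n) → ℤ, ∑ q, u q * (A'.submatrix id q).det = G := by
        have h1 := (hg'span G).2 ((dvd_abs _ _).2 dvd_rfl)
        obtain ⟨u, hu⟩ := (Ideal.mem_span_range_iff_exists_fun).1 h1
        exact ⟨u, hu⟩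
      have hdetp' : (A'.submatrix id p').det ≠ 0 := by
        rw [hA'p]
        have : c.succAbove ∘ p' = p := funext hp'
        rw [this]
        exact hp
      have hGpos : 0 < G := by
        rw [hG]
        refine abs_pos.2 ?_
        rintro rfl
        apply hdetp'
        have := hdvd' p'
        rw [hG, abs_zero] at this
        exact zero_dvd_iff.1 this
      -- `g` divides `G`
      have hgG : g ∣ G := by
        obtain ⟨u, hu⟩ := hbez'
        rw [← hu]
        exact Finset.dvd_sum fun q _ => Dvd.dvd.mul_left (hdvd _) _
      obtain ⟨m, hm⟩ := hgG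
      have hmpos : 0 < m := by
        by_contra hcon
        push Not at hcon
        nlinarith
      have hmY : m ≤ Y := by
        have h1 : G ≤ |(A'.submatrix id p').det| :=
          Int.le_of_dvd (abs_pos.2 hdetp') ((dvd_abs _ _).2 (hdvd' p'))
        have h2 := hA (c.succAbove ∘ p')
        rw [← hA'p] at h2
        have h3 : g * m ≤ g * Y := by
          rw [← hm]
          linarith
        exact le_of_mul_le_mul_left h3 hg
      -- the new value of `x c`
      have hcex : ∃ t : ℤ, m ∣ x c - t ∧ (1 + |t|) ≤ m ∧ |t| ≤ m := by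
        by_cases hm1 : m = 1
        · exact ⟨0, by rw [hm1]; exact one_dvd _, by simp [hm1], by simp [hm1]⟩
        · refine ⟨Int.bmod (x c) m.toNat, ?_, ?_, ?_⟩
          · have h1 : ((m.toNat : ℕ) : ℤ) = m := Int.toNat_of_nonneg hmpos.le
            have h2 := Int.bmod_emod (x := x c) (m := m.toNat)
            rw [h1] at h2
            exact Int.ModEq.dvd h2
          all_goals
            have h1 : ((m.toNat : ℕ) : ℤ) = m := Int.toNat_of_nonneg hmpos.le
            have h2 := Int.le_bmod (x := x c) (m := m.toNat) (by omega)
            have h3 := Int.bmod_lt (x := x c) (m := m.toNat) (by omega)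
            rw [h1] at h2 h3
            rcases abs_cases (Int.bmod (x c) m.toNat) with h4 | h4 <;> omega
      obtain ⟨t, ht1, ht2, ht3⟩ := hcex
      -- the new right side
      set b' : Fin r → ℤ := b - t • a with hb'
      have hAx : ∀ z : Fin (n + 1) → ℤ, A *ᵥ z = A' *ᵥ (z ∘ c.succAbove) + z c • a := by
        intro z
        funext i
        simp only [Matrix.mulVec, dotProduct, Pi.add_apply, Pi.smul_apply, smul_eq_mul]
        rw [Fin.sum_univ_succAbove _ c, hA', ha]
        simp only [Matrix.submatrix_apply, id, Function.comp_apply]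
        ring
      -- minors with the removed column
      have hcra : ∀ (q : Fin r → Fin n) (i : Fin r), Matrix.cramer (A'.submatrix id q) a i =
          (A.submatrix id (Function.update (c.succAbove ∘ q) i c)).det := by
        intro q i
        rw [Matrix.cramer_apply]
        congr 1
        ext k l
        by_cases hl : l = i
        · subst hl
          simp [ha]
        · simp [hl, hA']
      have hcrb : ∀ (q : Fin r → Fin n) (i : Fin r), Matrix.cramer (A'.submatrix id q) b' i =
          Matrix.cramer (A'.submatrix id q) b i - t * Matrix.cramer (A'.submatrix id q) a i := by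
        intro q i
        rw [hb', map_sub, map_smul]
        rfl
      have hb'dvd : ∀ (q : Fin r → Fin n) (i : Fin r),
          G ∣ Matrix.cramer (A'.submatrix id q) b' i := by
        intro q i
        have h1 : b' = A' *ᵥ (x ∘ c.succAbove) + (x c - t) • a := by
          rw [hb', ← hx, hAx x, sub_smul]
          abel
        rw [h1, map_add, map_smul, Pi.add_apply, Pi.smul_apply, smul_eq_mul]
        refine dvd_add ?_ ?_
        · have h2 : A' *ᵥ (x ∘ c.succAbove) = ∑ j, (x (c.succAbove j)) • (fun k => A' k j) := by
            funext k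
            rw [Finset.sum_apply]
            simp only [Matrix.mulVec, dotProduct, Pi.smul_apply, smul_eq_mul, Function.comp_apply]
            exact Finset.sum_congr rfl fun j _ => mul_comm _ _
          rw [h2, map_sum, Finset.sum_apply]
          refine Finset.dvd_sum fun j _ => ?_
          rw [map_smul, Pi.smul_apply, smul_eq_mul]
          refine Dvd.dvd.mul_left ?_ _
          have h3 : Matrix.cramer (A'.submatrix id q) (fun k => A' k j) i =
              (A'.submatrix id (Function.update q i j)).det := by
            rw [Matrix.cramer_apply]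
            congr 1
            ext k l
            by_cases hl : l = i
            · subst hl
              simp
            · simp [hl]
          rw [h3]
          exact hdvd' _
        · rw [hcra q i, hm, mul_comm g m]
          exact mul_dvd_mul ht1 (hdvd _)
      have hsol := solvable A' b' G hGpos hbez' hb'dvd
      have hYg : Y * g ≤ Y * G := by
        have h1 : g ≤ G := by
          rw [hm]
          nlinarith
        exact mul_le_mul_of_nonneg_left h1 hY
      obtain ⟨x', hx', hx'b⟩ := ih A' b' G hGpos hdvd' hbez' (fun q => (hA _).trans hYg) (by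
        intro q i
        rw [hcrb q i]
        have h1 : |Matrix.cramer (A'.submatrix id q) b i| ≤ Y * g := hb (c.succAbove ∘ q) i
        have h2 : |Matrix.cramer (A'.submatrix id q) a i| ≤ Y * g := by
          rw [hcra q i]
          exact hA _
        have h3 : |Matrix.cramer (A'.submatrix id q) b i -
            t * Matrix.cramer (A'.submatrix id q) a i| ≤ Y * g + |t| * (Y * g) := by
          refine (abs_sub _ _).trans (add_le_add h1 ?_)
          rw [abs_mul]
          exact mul_le_mul_of_nonneg_left h2 (abs_nonneg _)
        refine h3.trans ?_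
        have h4 : Y * g + |t| * (Y * g) = (Y * g) * (1 + |t|) := by ring
        rw [h4, hm]
        have h5 : 0 ≤ Y * g := mul_nonneg hY hg.le
        have h6 := mul_le_mul_of_nonneg_left ht2 h5
        rw [← mul_assoc]
        exact h6) hsol
      refine ⟨c.insertNth t x', ?_, fun i => ?_⟩
      · rw [hAx, Fin.insertNth_apply_same]
        have h1 : (c.insertNth t x' : Fin (n + 1) → ℤ) ∘ c.succAbove = x' := by
          funext k
          simp
        rw [h1, hx', hb']
        abel
      · by_cases hi : i = c
        · rw [hi, Fin.insertNth_apply_same]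
          exact ht3.trans hmY
        · obtain ⟨k, rfl⟩ := Fin.exists_succAbove_eq hi
          rw [Fin.insertNth_apply_succAbove]
          exact hx'b k

/-- **The theorem of Borosh, Flahive, Rubin and Treybig.**  Let the rows of `A` be linearly
independent over `ℚ` and let `A x = b` be solvable in integers.  If all the maximal minors of the
augmented matrix `(A | b)` are at most `Y` in absolute value, then `A x = b` has an integer solution
with all coordinates at most `Y` in absolute value. -/
theorem bfrt {r n : ℕ} (A : Matrix (Fin r) (Fin n) ℤ) (b : Fin r → ℤ) (Y : ℤ)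
    (hA : ∃ p : Fin r → Fin n, (A.submatrix id p).det ≠ 0)
    (hminor : ∀ f : Fin r → Option (Fin n),
      |Matrix.det (Matrix.of fun i j => (f j).elim (b i) (A i))| ≤ Y)
    (hsol : ∃ x : Fin n → ℤ, A *ᵥ x = b) : ∃ x : Fin n → ℤ, A *ᵥ x = b ∧ ∀ i, |x i| ≤ Y := by
  obtain ⟨p, hp⟩ := hA
  have hY : 0 ≤ Y := (abs_nonneg _).trans (hminor fun i => some (p i))
  obtain ⟨g', hg'⟩ := (IsPrincipalIdealRing.principal
    (Ideal.span (Set.range fun q : Fin r → Fin n => (A.submatrix id q).det))).principal
  have hg'span : ∀ z : ℤ, z ∈ Ideal.span (Set.range fun q : Fin r → Fin n =>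
      (A.submatrix id q).det) ↔ g' ∣ z := by
    intro z
    rw [hg', Submodule.mem_span_singleton]
    constructor
    · rintro ⟨w, rfl⟩
      exact ⟨w, by rw [smul_eq_mul, mul_comm]⟩
    · rintro ⟨w, rfl⟩
      exact ⟨w, by rw [smul_eq_mul, mul_comm]⟩
  have hdvd : ∀ q : Fin r → Fin n, |g'| ∣ (A.submatrix id q).det := fun q =>
    (abs_dvd _ _).2 ((hg'span _).1 (Ideal.subset_span ⟨q, rfl⟩))
  have hbez : ∃ u : (Fin r → Fin n) → ℤ, ∑ q, u q * (A.submatrix id q).det = |g'| := by
    have h1 := (hg'span |g'|).2 ((dvd_abs _ _).2 dvd_rfl)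
    obtain ⟨u, hu⟩ := (Ideal.mem_span_range_iff_exists_fun).1 h1
    exact ⟨u, hu⟩
  have hpos : 0 < |g'| := by
    refine abs_pos.2 ?_
    rintro rfl
    apply hp
    have := hdvd p
    rw [abs_zero] at this
    exact zero_dvd_iff.1 this
  have hYg : Y ≤ Y * |g'| := by nlinarith
  refine small_solution Y n A b |g'| hpos hdvd hbez (fun q => ?_) (fun q i => ?_) hsol
  · refine le_trans ?_ hYg
    have := hminor fun i => some (q i)
    exact this
  · refine le_trans ?_ hYg
    have h1 := hminor (Function.update (fun i => some (q i)) i none)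
    have h2 : (Matrix.of fun k j => ((Function.update (fun i => some (q i)) i none) j).elim (b k)
        (A k)) = (A.submatrix id q).updateCol i b := by
      ext k l
      by_cases hl : l = i
      · subst hl
        simp
      · simp [hl]
    rw [h2] at h1
    rw [Matrix.cramer_apply]
    exact h1

end Pool.Agent.Q110.Dio
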