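import Mathlib.LinearAlgebra.Matrix.GeneralLinearGroup.Card
import Mathlib.RepresentationTheory.Basic
import Mathlib.Algebra.Group.AddChar
import Mathlib.GroupTheory.Index
import Mathlib.LinearAlgebra.Matrix.Trace
import Mathlib.LinearAlgebra.Dimension.Constructions
import Mathlib.Analysis.Complex.Basic
import Mathlib.RingTheory.Ideal.Basic
import Mathlib.Tactic.LinearCombination
import Mathlib.Tactic.NoncommRing

/-!
# Representations of `GL_3` over a ring of length two attached to diagonal matrices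
-/

set_option autoImplicit false

open Matrix

namespace Pool.Agent.Q110.GLA

/-- The data. -/
structure Dat (A : Type*) [CommRing A] where
  I : Ideal A
  sq : ∀ x ∈ I, ∀ y ∈ I, x * y = 0
  unit : ∀ x, x ∉ I → IsUnit x
  ne : (1 : A) ∉ I
  m : ℕ
  hm : ∀ u : A, IsUnit u → u ^ m - 1 ∈ I
  mu : IsUnit (m : A)
  Ψ : AddChar A ℂ
  hΨ : ∃ x ∈ I, Ψ x ≠ 1
  b : Fin 3 → A
  hb : ∀ i j, i ≠ j → IsUnit (b i - b j)

variable {A : Type*} [CommRing A] (D : Dat A)

namespace Dat

/-- The group. -/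
abbrev G (A : Type*) [CommRing A] := (Matrix (Fin 3) (Fin 3) A)ˣ

theorem not_unit {x : A} (hx : x ∈ D.I) : ¬ IsUnit x := by
  rintro ⟨u, rfl⟩
  apply D.ne
  have := D.I.mul_mem_left (↑u⁻¹ : A) hx
  rwa [Units.inv_mul] at this

/-- Matrices that are diagonal modulo `I`. -/
def IsD (M : Matrix (Fin 3) (Fin 3) A) : Prop := ∀ i j, i ≠ j → M i j ∈ D.I

theorem isD_one : D.IsD 1 := fun i j hij => by
  rw [Matrix.one_apply_ne hij]
  exact D.I.zero_mem

theorem isD_mul {M N : Matrix (Fin 3) (Fin 3) A} (hM : D.IsD M) (hN : D.IsD N) : D.IsD (M * N) := by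
  intro i j hij
  rw [Matrix.mul_apply]
  refine D.I.sum_mem fun k _ => ?_
  by_cases hik : i = k
  · subst hik
    exact D.I.mul_mem_left _ (hN _ _ hij)
  · exact D.I.mul_mem_right _ (hM _ _ hik)

theorem mul_diag {M N : Matrix (Fin 3) (Fin 3) A} (hM : D.IsD M) (hN : D.IsD N) (i : Fin 3) :
    (M * N) i i = M i i * N i i := by
  rw [Matrix.mul_apply, Finset.sum_eq_single i]
  · intro k _ hk
    exact D.sq _ (hM _ _ (Ne.symm hk)) _ (hN _ _ hk)
  · intro h
    exact (h (Finset.mem_univ _)).elim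

theorem diag_unit {g : G A} (hg : D.IsD g.val) (i : Fin 3) : IsUnit (g.val i i) := by
  apply D.unit
  intro h
  apply D.ne
  have h1 : (g.val * g⁻¹.val) i i = 1 := by
    rw [Units.mul_inv, Matrix.one_apply_eq]
  rw [← h1, Matrix.mul_apply]
  refine D.I.sum_mem fun k _ => ?_
  by_cases hik : i = k
  · subst hik
    exact D.I.mul_mem_right _ h
  · exact D.I.mul_mem_right _ (hg _ _ hik)

theorem isD_inv {g : G A} (hg : D.IsD g.val) : D.IsD g⁻¹.val := by
  intro i j hij
  have h1 : (g.val * g⁻¹.val) i j = 0 := by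
    rw [Units.mul_inv, Matrix.one_apply_ne hij]
  rw [Matrix.mul_apply] at h1
  have h2 : g.val i i * g⁻¹.val i j ∈ D.I := by
    have h3 : g.val i i * g⁻¹.val i j = -∑ k ∈ Finset.univ.erase i, g.val i k * g⁻¹.val k j := by
      rw [← Finset.add_sum_erase _ _ (Finset.mem_univ i)] at h1
      linear_combination h1
    rw [h3]
    refine D.I.neg_mem (D.I.sum_mem fun k hk => ?_)
    exact D.I.mul_mem_right _ (hg _ _ (Ne.symm (Finset.ne_of_mem_erase hk)))
  obtain ⟨u, hu⟩ := D.diag_unit hg i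
  have h4 := D.I.mul_mem_left (↑u⁻¹ : A) h2
  rwa [← hu, ← mul_assoc, Units.inv_mul, one_mul] at h4

/-- The stabiliser. -/
def S : Subgroup (G A) where
  carrier := {g | D.IsD g.val}
  mul_mem' := fun ha hb => D.isD_mul ha hb
  one_mem' := D.isD_one
  inv_mem' := fun ha => D.isD_inv ha

theorem mem_S {g : G A} : g ∈ D.S ↔ D.IsD g.val := Iff.rfl

/-- The character of the stabiliser. -/
noncomputable def θ (g : G A) : ℂ := D.Ψ (∑ i, D.b i * ((g.val i i) ^ D.m - 1))

theorem Ψ_ne (x : A) : D.Ψ x ≠ 0 := by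
  intro h
  have h1 := AddChar.map_add_eq_mul D.Ψ x (-x)
  rw [add_neg_cancel, AddChar.map_zero_eq_one, h, zero_mul] at h1
  exact one_ne_zero h1

theorem θ_ne (g : G A) : D.θ g ≠ 0 := D.Ψ_ne _

theorem θ_one : D.θ 1 = 1 := by
  rw [θ]
  have : ∑ i, D.b i * (((1 : G A).val i i) ^ D.m - 1) = 0 := by
    refine Finset.sum_eq_zero fun i _ => ?_
    rw [Units.val_one, Matrix.one_apply_eq, one_pow, sub_self, mul_zero]
  rw [this, AddChar.map_zero_eq_one]

theorem θ_mul {g h : G A} (hg : g ∈ D.S) (hh : h ∈ D.S) : D.θ (g * h) = D.θ g * D.θ h := by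
  rw [θ, θ, θ, ← AddChar.map_add_eq_mul, ← Finset.sum_add_distrib]
  congr 1
  refine Finset.sum_congr rfl fun i _ => ?_
  rw [Units.val_mul, D.mul_diag hg hh i, mul_pow]
  have h1 := D.sq _ (D.hm _ (D.diag_unit hg i)) _ (D.hm _ (D.diag_unit hh i))
  linear_combination (D.b i) * h1

theorem θ_inv {g : G A} (hg : g ∈ D.S) : D.θ g⁻¹ = (D.θ g)⁻¹ := by
  have h := D.θ_mul hg (D.S.inv_mem hg)
  rw [mul_inv_cancel, θ_one] at h
  exact eq_inv_of_mul_eq_one_right h.symm

/-- The space of the representation. -/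
def V : Submodule ℂ (G A → ℂ) where
  carrier := {f | ∀ g s, s ∈ D.S → f (g * s) = (D.θ s)⁻¹ * f g}
  add_mem' := by
    intro f f' hf hf' g s hs
    rw [Pi.add_apply, Pi.add_apply, hf g s hs, hf' g s hs, mul_add]
  zero_mem' := by
    intro g s hs
    rw [Pi.zero_apply, Pi.zero_apply, mul_zero]
  smul_mem' := by
    intro c f hf g s hs
    rw [Pi.smul_apply, Pi.smul_apply, hf g s hs, smul_eq_mul, smul_eq_mul]
    ring

/-- The representation. -/
def ρ : Representation ℂ (G A) D.V where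
  toFun h :=
    { toFun := fun f => ⟨fun g => f.1 (h⁻¹ * g), fun g s hs => by
        have h1 := f.2 (h⁻¹ * g) s hs
        rw [mul_assoc] at h1
        exact h1⟩
      map_add' := fun f f' => rfl
      map_smul' := fun c f => rfl }
  map_one' := by
    apply LinearMap.ext
    intro f
    apply Subtype.ext
    funext g
    change f.1 (1⁻¹ * g) = f.1 g
    rw [inv_one, one_mul]
  map_mul' h h' := by
    apply LinearMap.ext
    intro f
    apply Subtype.ext
    funext g
    change f.1 ((h * h')⁻¹ * g) = f.1 (h'⁻¹ * (h⁻¹ * g))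
    rw [_root_.mul_inv_rev, mul_assoc]

theorem ρ_apply (h : G A) (f : D.V) (g : G A) : (D.ρ h f).1 g = f.1 (h⁻¹ * g) := rfl

/-- Representatives of the cosets. -/
noncomputable def out (g : G A) : G A := (QuotientGroup.mk (s := D.S) g).out

theorem out_mem (g : G A) : (D.out g)⁻¹ * g ∈ D.S := by
  rw [← QuotientGroup.eq]
  exact Quotient.out_eq _

theorem out_eq {g h : G A} (h1 : g⁻¹ * h ∈ D.S) : D.out g = D.out h := by
  rw [out, out, QuotientGroup.eq.2 h1]

/-- The space is isomorphic to the space of functions on the cosets. -/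
noncomputable def equiv : D.V ≃ₗ[ℂ] ((G A ⧸ D.S) → ℂ) where
  toFun f x := f.1 x.out
  map_add' f f' := rfl
  map_smul' c f := rfl
  invFun φ := ⟨fun g => (D.θ ((D.out g)⁻¹ * g))⁻¹ * φ (QuotientGroup.mk g), fun g s hs => by
    have h1 : D.out (g * s) = D.out g := by
      refine D.out_eq ?_
      rw [_root_.mul_inv_rev, mul_assoc, inv_mul_cancel, mul_one]
      exact D.S.inv_mem hs
    have h2 : (QuotientGroup.mk (g * s) : G A ⧸ D.S) = QuotientGroup.mk g := by
      rw [QuotientGroup.eq, _root_.mul_inv_rev, mul_assoc, inv_mul_cancel, mul_one]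
      exact D.S.inv_mem hs
    change (D.θ ((D.out (g * s))⁻¹ * (g * s)))⁻¹ * φ (QuotientGroup.mk (g * s)) =
      (D.θ s)⁻¹ * ((D.θ ((D.out g)⁻¹ * g))⁻¹ * φ (QuotientGroup.mk g))
    rw [h1, h2, ← mul_assoc (D.out g)⁻¹, D.θ_mul (D.out_mem g) hs, mul_inv]
    ring⟩
  left_inv f := by
    apply Subtype.ext
    funext g
    change (D.θ ((D.out g)⁻¹ * g))⁻¹ * f.1 (D.out g) = f.1 g
    rw [← f.2 (D.out g) _ (D.out_mem g), mul_inv_cancel_left]
  right_inv φ := by
    funext x
    change (D.θ ((D.out x.out)⁻¹ * x.out))⁻¹ * φ (QuotientGroup.mk x.out) = φ x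
    have h1 : (QuotientGroup.mk x.out : G A ⧸ D.S) = x := Quotient.out_eq _
    have h2 : D.out x.out = x.out := by rw [out, h1]
    rw [h2, h1, inv_mul_cancel, θ_one, inv_one, one_mul]

theorem finrank_V [Finite A] : Module.finrank ℂ D.V = D.S.index := by
  have : Finite (G A) := inferInstance
  have : Fintype (G A ⧸ D.S) := Fintype.ofFinite _
  rw [LinearEquiv.finrank_eq D.equiv, Module.finrank_fintype_fun_eq_card, Subgroup.index,
    Nat.card_eq_fintype_card]

/-- Matrices with entries in `I` as units `1 + X`. -/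
theorem X_sq {X : Matrix (Fin 3) (Fin 3) A} (hX : ∀ i j, X i j ∈ D.I)
    {Y : Matrix (Fin 3) (Fin 3) A} (hY : ∀ i j, Y i j ∈ D.I) : X * Y = 0 := by
  ext i j
  rw [Matrix.mul_apply, Matrix.zero_apply]
  exact Finset.sum_eq_zero fun k _ => D.sq _ (hX _ _) _ (hY _ _)

/-- The unit `1 + X`. -/
def kU (X : Matrix (Fin 3) (Fin 3) A) (hX : ∀ i j, X i j ∈ D.I) : G A where
  val := 1 + X
  inv := 1 - X
  val_inv := by
    have := D.X_sq hX hX
    calc (1 + X) * (1 - X) = 1 - X * X := by noncomm_ring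
      _ = 1 := by rw [this, sub_zero]
  inv_val := by
    have := D.X_sq hX hX
    calc (1 - X) * (1 + X) = 1 - X * X := by noncomm_ring
      _ = 1 := by rw [this, sub_zero]

/-- The value of the character of `1 + X` at the coset of `g`. -/
noncomputable def c (g : G A) (X : Matrix (Fin 3) (Fin 3) A) : ℂ :=
  D.Ψ (D.m * ∑ i, D.b i * (g⁻¹.val * X * g.val) i i)

theorem conj_mem {X : Matrix (Fin 3) (Fin 3) A} (hX : ∀ i j, X i j ∈ D.I) (g h : G A) (i j : Fin 3) :
    (g.val * X * h.val) i j ∈ D.I := by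
  rw [Matrix.mul_apply]
  refine D.I.sum_mem fun k _ => D.I.mul_mem_right _ ?_
  rw [Matrix.mul_apply]
  exact D.I.sum_mem fun l _ => D.I.mul_mem_left _ (hX _ _)

theorem pow_one_sub {x : A} (hx : x ∈ D.I) (n : ℕ) : (1 - x) ^ n = 1 - n * x := by
  induction n with
  | zero => simp
  | succ n ih =>
    rw [pow_succ, ih]
    have := D.sq x hx x hx
    push_cast
    linear_combination (n : A) * this

/-- The action of `1 + X`. -/
theorem ρ_kU (X : Matrix (Fin 3) (Fin 3) A) (hX : ∀ i j, X i j ∈ D.I) (f : D.V) (g : G A) :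
    (D.ρ (D.kU X hX) f).1 g = D.c g X * f.1 g := by
  rw [ρ_apply]
  set s : G A := g⁻¹ * (D.kU X hX)⁻¹ * g with hs
  have h1 : (D.kU X hX)⁻¹ * g = g * s := by
    rw [hs]
    group
  have hsv : s.val = 1 - g⁻¹.val * X * g.val := by
    have e1 : s.val = g⁻¹.val * (1 - X) * g.val := rfl
    rw [e1, Matrix.mul_sub, Matrix.sub_mul, Matrix.mul_one, Units.inv_mul]
  have hsS : s ∈ D.S := by
    intro i j hij
    rw [hsv, Matrix.sub_apply, Matrix.one_apply_ne hij, zero_sub]
    exact D.I.neg_mem (D.conj_mem hX g⁻¹ g i j)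
  rw [h1, f.2 g s hsS]
  congr 1
  rw [θ, c]
  have h2 : ∑ i, D.b i * (s.val i i ^ D.m - 1) =
      -(D.m * ∑ i, D.b i * (g⁻¹.val * X * g.val) i i) := by
    rw [Finset.mul_sum, ← Finset.sum_neg_distrib]
    refine Finset.sum_congr rfl fun i _ => ?_
    rw [hsv, Matrix.sub_apply, Matrix.one_apply_eq, D.pow_one_sub (D.conj_mem hX g⁻¹ g i i)]
    ring
  rw [h2]
  have h3 := AddChar.map_add_eq_mul D.Ψ (D.m * ∑ i, D.b i * (g⁻¹.val * X * g.val) i i)
    (-(D.m * ∑ i, D.b i * (g⁻¹.val * X * g.val) i i))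
  rw [add_neg_cancel, AddChar.map_zero_eq_one] at h3
  exact inv_eq_of_mul_eq_one_left h3.symm

/-- If all characters agree on `g` and `h`, then `g⁻¹ h` is in the stabiliser. -/
theorem mem_of_trivial (g h : G A)
    (heq : ∀ X : Matrix (Fin 3) (Fin 3) A, (∀ i j, X i j ∈ D.I) →
      D.Ψ (D.m * (∑ i, D.b i * (h⁻¹.val * X * h.val) i i -
        ∑ i, D.b i * (g⁻¹.val * X * g.val) i i)) = 1) : g⁻¹ * h ∈ D.S := by
  obtain ⟨x0, hx0, hx1⟩ := D.hΨ
  set B : Matrix (Fin 3) (Fin 3) A := Matrix.diagonal D.b with hB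
  have htr : ∀ (u : G A) (X : Matrix (Fin 3) (Fin 3) A),
      ∑ i, D.b i * (u⁻¹.val * X * u.val) i i = (u.val * B * u⁻¹.val * X).trace := by
    intro u X
    have e1 : ∑ i, D.b i * (u⁻¹.val * X * u.val) i i = (B * (u⁻¹.val * X * u.val)).trace := by
      rw [Matrix.trace]
      refine Finset.sum_congr rfl fun i _ => ?_
      rw [Matrix.diag_apply, hB, Matrix.diagonal_mul]
    rw [e1, ← Matrix.mul_assoc, Matrix.trace_mul_comm, ← Matrix.mul_assoc, ← Matrix.mul_assoc]
  -- the difference of the two conjugates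
  set E : Matrix (Fin 3) (Fin 3) A := h.val * B * h⁻¹.val - g.val * B * g⁻¹.val with hE
  have hEI : ∀ i j, E i j ∈ D.I := by
    intro i j
    by_contra hcon
    obtain ⟨u, hu⟩ := D.unit _ hcon
    obtain ⟨w, hw⟩ := D.mu
    apply hx1
    have h1 := heq (Matrix.single j i ((↑u⁻¹ : A) * (↑w⁻¹ : A) * x0)) (by
      intro a b
      by_cases hab : j = a ∧ i = b
      · obtain ⟨rfl, rfl⟩ := hab
        rw [Matrix.single_apply_same]
        exact D.I.mul_mem_left _ hx0
      · rw [Matrix.single_apply, if_neg hab]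
        exact D.I.zero_mem)
    rw [htr, htr, ← Matrix.trace_sub, ← Matrix.sub_mul, ← hE] at h1
    have h2 : (E * Matrix.single j i ((↑u⁻¹ : A) * (↑w⁻¹ : A) * x0)).trace =
        E i j * ((↑u⁻¹ : A) * (↑w⁻¹ : A) * x0) := by
      rw [Matrix.trace_mul_comm, Matrix.trace_single_mul]
      simp [mul_comm]
    rw [h2, ← hu, ← hw] at h1
    have h3 : (w : A) * ((u : A) * ((↑u⁻¹ : A) * (↑w⁻¹ : A) * x0)) = x0 := by
      have e1 := Units.mul_inv u
      have e2 := Units.mul_inv w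
      calc (w : A) * ((u : A) * ((↑u⁻¹ : A) * (↑w⁻¹ : A) * x0))
          = ((u : A) * (↑u⁻¹ : A)) * ((w : A) * (↑w⁻¹ : A)) * x0 := by ring
        _ = x0 := by rw [e1, e2, one_mul, one_mul]
    rwa [h3] at h1
  intro i j hij
  -- `u = g⁻¹ h` commutes with `B` modulo `I`
  set u : G A := g⁻¹ * h with hu
  have h1 : u.val * B - B * u.val = g⁻¹.val * E * h.val := by
    rw [hE, hu, Units.val_mul, Matrix.mul_sub, Matrix.sub_mul]
    have e1 : g⁻¹.val * (h.val * B * h⁻¹.val) * h.val = g⁻¹.val * h.val * B := by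
      simp only [Matrix.mul_assoc, Units.inv_mul, Matrix.mul_one]
    have e2 : g⁻¹.val * (g.val * B * g⁻¹.val) * h.val = B * (g⁻¹.val * h.val) := by
      simp only [← Matrix.mul_assoc, Units.inv_mul, Matrix.one_mul]
    rw [e1, e2]
  have h2 := D.conj_mem hEI g⁻¹ h i j
  rw [← h1, Matrix.sub_apply, hB, Matrix.mul_diagonal, Matrix.diagonal_mul] at h2
  have h3 : u.val i j * (D.b j - D.b i) ∈ D.I := by
    have : u.val i j * (D.b j - D.b i) = u.val i j * D.b j - D.b i * u.val i j := by ring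
    rw [this]
    exact h2
  obtain ⟨w, hw⟩ := D.hb j i (Ne.symm hij)
  have h4 := D.I.mul_mem_right (↑w⁻¹ : A) h3
  rw [← hw, mul_assoc, Units.mul_inv, mul_one] at h4
  exact h4

end Dat

end Pool.Agent.Q110.GLA
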