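import Pool.Agent.Q110.GLA
import Mathlib.Analysis.Fourier.FiniteAbelian.PontryaginDuality
import Mathlib.RingTheory.Ideal.Quotient.Index
import Mathlib.LinearAlgebra.Matrix.Nondegenerate

/-!
# Irreducibility and dimension of the representation `ρ`
-/

set_option autoImplicit false

open Matrix

namespace Pool.Agent.Q110.GLA

variable {A : Type*} [CommRing A] (D : Dat A)

namespace Dat

/-- A matrix with entries in the ideal, as a matrix over the ring. -/
def val (X : Matrix (Fin 3) (Fin 3) D.I) : Matrix (Fin 3) (Fin 3) A := fun i j => (X i j : A)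

theorem val_mem (X : Matrix (Fin 3) (Fin 3) D.I) (i j : Fin 3) : D.val X i j ∈ D.I := (X i j).2

theorem val_add (X Y : Matrix (Fin 3) (Fin 3) D.I) : D.val (X + Y) = D.val X + D.val Y := rfl

theorem val_zero : D.val 0 = 0 := rfl

theorem val_neg (X : Matrix (Fin 3) (Fin 3) D.I) : D.val (-X) = -D.val X := rfl

/-- The exponent, as an additive map. -/
def expo (g : G A) (X : Matrix (Fin 3) (Fin 3) A) : A :=
  D.m * ∑ i, D.b i * (g⁻¹.val * X * g.val) i i

theorem expo_add (g : G A) (X Y : Matrix (Fin 3) (Fin 3) A) :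
    D.expo g (X + Y) = D.expo g X + D.expo g Y := by
  rw [expo, expo, expo, ← mul_add, ← Finset.sum_add_distrib]
  congr 1
  refine Finset.sum_congr rfl fun i _ => ?_
  rw [Matrix.mul_add, Matrix.add_mul, Matrix.add_apply, mul_add]

theorem expo_zero (g : G A) : D.expo g 0 = 0 := by
  have := D.expo_add g 0 0
  rw [add_zero] at this
  exact left_eq_add.1 this

theorem expo_neg (g : G A) (X : Matrix (Fin 3) (Fin 3) A) : D.expo g (-X) = -D.expo g X := by
  have := D.expo_add g X (-X)
  rw [add_neg_cancel, expo_zero] at this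
  exact (neg_eq_of_add_eq_zero_right this.symm).symm

theorem c_eq (g : G A) (X : Matrix (Fin 3) (Fin 3) A) : D.c g X = D.Ψ (D.expo g X) := rfl

/-- The difference of two characters. -/
def diffChar (g h : G A) : AddChar (Matrix (Fin 3) (Fin 3) D.I) ℂ where
  toFun X := D.Ψ (D.expo h (D.val X) - D.expo g (D.val X))
  map_zero_eq_one' := by
    rw [val_zero, expo_zero, expo_zero, sub_zero, AddChar.map_zero_eq_one]
  map_add_eq_mul' X Y := by
    rw [← AddChar.map_add_eq_mul, val_add, expo_add, expo_add]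
    congr 1
    ring

theorem diffChar_apply (g h : G A) (X : Matrix (Fin 3) (Fin 3) D.I) :
    D.diffChar g h X = D.Ψ (D.expo h (D.val X) - D.expo g (D.val X)) := rfl

theorem diffChar_self (g : G A) : D.diffChar g g = 0 := by
  ext X
  rw [diffChar_apply, sub_self, AddChar.map_zero_eq_one, AddChar.zero_apply]

theorem mem_of_diffChar {g h : G A} (h0 : D.diffChar g h = 0) : g⁻¹ * h ∈ D.S := by
  apply D.mem_of_trivial g h
  intro X hX
  have h1 : D.diffChar g h (fun i j => (⟨X i j, hX i j⟩ : D.I)) = 1 := by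
    rw [h0]
    rfl
  rw [mul_sub]
  exact h1

variable [Finite A]

/-- The averaging operator. -/
theorem exists_local (W : Submodule ℂ D.V) (hW : ∀ g v, v ∈ W → D.ρ g v ∈ W) (f : D.V) (hf : f ∈ W)
    (g : G A) (hg : f.1 g ≠ 0) :
    ∃ F ∈ W, F.1 g ≠ 0 ∧ ∀ h, g⁻¹ * h ∉ D.S → F.1 h = 0 := by
  classical
  have : Fintype (Matrix (Fin 3) (Fin 3) D.I) := Fintype.ofFinite _
  refine ⟨∑ X : Matrix (Fin 3) (Fin 3) D.I,
    D.Ψ (-D.expo g (D.val X)) • D.ρ (D.kU (D.val X) (D.val_mem X)) f, ?_, ?_, ?_⟩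
  · exact W.sum_mem fun X _ => W.smul_mem _ (hW _ _ hf)
  all_goals
    have key : ∀ h : G A, (∑ X : Matrix (Fin 3) (Fin 3) D.I,
        D.Ψ (-D.expo g (D.val X)) • D.ρ (D.kU (D.val X) (D.val_mem X)) f).1 h =
        (∑ X, D.diffChar g h X) * f.1 h := by
      intro h
      rw [AddSubmonoidClass.coe_finsetSum, Finset.sum_apply, Finset.sum_mul]
      refine Finset.sum_congr rfl fun X _ => ?_
      rw [Submodule.coe_smul, Pi.smul_apply, smul_eq_mul, ρ_kU, c_eq, ← mul_assoc,
        ← AddChar.map_add_eq_mul, diffChar_apply, neg_add_eq_sub]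
  · rw [key, diffChar_self]
    refine mul_ne_zero ?_ hg
    exact AddChar.sum_ne_zero_iff_eq_zero.2 rfl
  · intro h hh
    rw [key]
    have h1 : D.diffChar g h ≠ 0 := fun h0 => hh (D.mem_of_diffChar h0)
    rw [AddChar.sum_eq_zero_iff_ne_zero.2 h1, zero_mul]

theorem top_of_local (W : Submodule ℂ D.V) (hW : ∀ g v, v ∈ W → D.ρ g v ∈ W) (F : D.V) (hF : F ∈ W)
    (g : G A) (hg : F.1 g ≠ 0) (hloc : ∀ h, g⁻¹ * h ∉ D.S → F.1 h = 0) : W = ⊤ := by
  classical
  have : Fintype (G A) := Fintype.ofFinite _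
  rw [eq_top_iff]
  intro φ _
  have key : (∑ g' : G A, φ.1 g' • D.ρ (g' * g⁻¹) F) =
      (((Finset.univ.filter fun s : G A => s ∈ D.S).card : ℂ) * F.1 g) • φ := by
    apply Subtype.ext
    funext h
    rw [AddSubmonoidClass.coe_finsetSum, Finset.sum_apply, Submodule.coe_smul, Pi.smul_apply,
      smul_eq_mul]
    rw [← Equiv.sum_comp (Equiv.mulLeft h)]
    have hterm : ∀ s : G A, ((φ.1 (Equiv.mulLeft h s) • D.ρ (Equiv.mulLeft h s * g⁻¹) F : D.V) : G A → ℂ) h =
        if s ∈ D.S then F.1 g * φ.1 h else 0 := by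
      intro s
      rw [Submodule.coe_smul, Pi.smul_apply, smul_eq_mul, ρ_apply, Equiv.coe_mulLeft]
      have e1 : (h * s * g⁻¹)⁻¹ * h = g * s⁻¹ := by group
      rw [e1]
      split_ifs with hs
      · rw [F.2 g s⁻¹ (D.S.inv_mem hs), φ.2 h s hs, D.θ_inv hs, inv_inv]
        have := D.θ_ne s
        field_simp
      · rw [hloc, mul_zero]
        intro hcon
        apply hs
        have e2 : g⁻¹ * (g * s⁻¹) = s⁻¹ := by group
        rw [e2] at hcon
        have := D.S.inv_mem hcon
        rwa [inv_inv] at this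
    rw [Finset.sum_congr rfl fun s _ => hterm s, Finset.sum_ite, Finset.sum_const_zero, add_zero,
      Finset.sum_const, nsmul_eq_mul]
    ring
  have hne : (((Finset.univ.filter fun s : G A => s ∈ D.S).card : ℂ) * F.1 g) ≠ 0 := by
    refine mul_ne_zero ?_ hg
    rw [Nat.cast_ne_zero]
    apply Finset.card_ne_zero_of_mem (a := (1 : G A))
    rw [Finset.mem_filter]
    exact ⟨Finset.mem_univ _, D.S.one_mem⟩
  have hmem : (((Finset.univ.filter fun s : G A => s ∈ D.S).card : ℂ) * F.1 g) • φ ∈ W := by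
    rw [← key]
    exact W.sum_mem fun g' _ => W.smul_mem _ (hW _ _ hF)
  exact (W.smul_mem_iff hne).1 hmem

theorem irreducible (W : Submodule ℂ D.V) (hW : ∀ g v, v ∈ W → D.ρ g v ∈ W) : W = ⊥ ∨ W = ⊤ := by
  by_cases h0 : W = ⊥
  · exact Or.inl h0
  right
  obtain ⟨f, hf, hf0⟩ := Submodule.exists_mem_ne_zero_of_ne_bot h0
  obtain ⟨g, hg⟩ : ∃ g, f.1 g ≠ 0 := by
    by_contra hcon
    push Not at hcon
    apply hf0
    apply Subtype.ext
    funext g
    exact hcon g
  obtain ⟨F, hF, hFg, hloc⟩ := D.exists_local W hW f hf g hg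
  exact D.top_of_local W hW F hF g hFg hloc

instance : Finite (G A) := inferInstance

theorem finiteDim : FiniteDimensional ℂ D.V := by
  have : Finite (G A ⧸ D.S) := inferInstance
  have : Fintype (G A ⧸ D.S) := Fintype.ofFinite _
  exact LinearEquiv.finiteDimensional D.equiv.symm

theorem index_ne_zero : D.S.index ≠ 0 := Subgroup.index_ne_zero_of_finite

theorem nontrivial_V : Nontrivial D.V := by
  have := D.finiteDim
  apply Module.nontrivial_of_finrank_pos (R := ℂ)
  rw [finrank_V]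
  exact Nat.pos_of_ne_zero D.index_ne_zero

/-- The representation is not trivial on the matrices `1 + X`. -/
theorem primitive : ∃ X : Matrix (Fin 3) (Fin 3) A, ∃ hX : ∀ i j, X i j ∈ D.I,
    D.ρ (D.kU X hX) ≠ 1 := by
  by_contra hcon
  push Not at hcon
  -- all characters are trivial, hence `S` is everything and all characters of the identity vanish
  have h1 : ∀ (g : G A) (X : Matrix (Fin 3) (Fin 3) A) (_ : ∀ i j, X i j ∈ D.I),
      D.Ψ (D.expo g X) = 1 := by
    intro g X hX
    -- the delta function at the coset of `g`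
    obtain ⟨f, hf⟩ : ∃ f : D.V, f.1 g ≠ 0 := by
      obtain ⟨f, hf⟩ := D.nontrivial_V.exists_pair_ne
      by_contra hc
      push Not at hc
      obtain ⟨f', hf'⟩ := hf
      apply hf'
      apply Subtype.ext
      funext h
      have e1 := hc (D.ρ (g * h⁻¹) f)
      have e2 := hc (D.ρ (g * h⁻¹) f')
      rw [ρ_apply] at e1 e2
      have e3 : (g * h⁻¹)⁻¹ * g = h := by group
      rw [e3] at e1 e2
      rw [e1, e2]
    have h2 := D.ρ_kU X hX f g
    rw [hcon X hX, c_eq] at h2
    change f.1 g = _ at h2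
    exact (mul_right_cancel₀ hf (h2.symm.trans (one_mul _).symm))
  obtain ⟨x0, hx0, hx1⟩ := D.hΨ
  apply hx1
  -- use the identity and the matrix `x0` at places `0` and `1`
  have hb01 := D.hb 0 1 (by decide)
  obtain ⟨u, hu⟩ := hb01
  obtain ⟨w, hw⟩ := D.mu
  set y : A := (↑u⁻¹ : A) * (↑w⁻¹ : A) * x0 with hy
  have hyI : y ∈ D.I := D.I.mul_mem_left _ hx0
  have h3 := h1 1 (Matrix.single 0 0 y - Matrix.single 1 1 y) (by
    intro i j
    rw [Matrix.sub_apply, Matrix.single_apply, Matrix.single_apply]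
    refine D.I.sub_mem ?_ ?_
    · split_ifs
      · exact hyI
      · exact D.I.zero_mem
    · split_ifs
      · exact hyI
      · exact D.I.zero_mem)
  have h4 : D.expo 1 (Matrix.single 0 0 y - Matrix.single 1 1 y) = D.m * ((D.b 0 - D.b 1) * y) := by
    rw [expo, inv_one, Units.val_one, Matrix.one_mul, Matrix.mul_one, Fin.sum_univ_three]
    simp only [Matrix.sub_apply, Matrix.single_apply]
    simp
    ring
  rw [h4, ← hu, ← hw] at h3
  have h5 : (w : A) * ((u : A) * y) = x0 := by
    have e1 := Units.mul_inv u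
    have e2 := Units.mul_inv w
    calc (w : A) * ((u : A) * ((↑u⁻¹ : A) * (↑w⁻¹ : A) * x0))
        = ((u : A) * (↑u⁻¹ : A)) * ((w : A) * (↑w⁻¹ : A)) * x0 := by ring
      _ = x0 := by rw [e1, e2, one_mul, one_mul]
  rwa [h5] at h3

end Dat

end Pool.Agent.Q110.GLA
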