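import Pool.Agent.Q110.GLA2
import Mathlib.LinearAlgebra.Matrix.NonsingularInverse
import Mathlib.LinearAlgebra.Matrix.GeneralLinearGroup.Defs
import Mathlib.FieldTheory.Finite.Basic

/-!
# The index of the stabiliser
-/

set_option autoImplicit false

open Matrix

namespace Pool.Agent.Q110.GLA

/-- The group of invertible matrices surjects onto the one over the residue field. -/
theorem map_surjective {A k : Type*} [CommRing A] [Field k] (π : A →+* k)
    (hs : Function.Surjective π) (hu : ∀ x, π x ≠ 0 → IsUnit x) :
    Function.Surjective (Matrix.GeneralLinearGroup.map (n := Fin 3) π) := by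
  intro M
  choose s hs' using hs
  set N : Matrix (Fin 3) (Fin 3) A := M.val.map s with hN
  have hNM : N.map π = M.val := by
    ext i j
    rw [Matrix.map_apply, hN, Matrix.map_apply, hs']
  have hdet : π N.det = M.val.det := by
    rw [RingHom.map_det, RingHom.mapMatrix_apply, hNM]
  have h1 : IsUnit N.det := by
    apply hu
    rw [hdet]
    exact (Matrix.isUnit_iff_isUnit_det _).1 M.isUnit |>.ne_zero
  obtain ⟨u, hu'⟩ := (Matrix.isUnit_iff_isUnit_det _).2 h1
  refine ⟨u, ?_⟩
  apply Units.ext
  ext i j
  rw [Matrix.GeneralLinearGroup.map_apply]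
  have := congrFun (congrFun hNM i) j
  rw [Matrix.map_apply, ← hu'] at this
  exact this

/-- The diagonal homomorphism. -/
def diagHom (k : Type*) [Field k] : (Fin 3 → kˣ) →* GL (Fin 3) k where
  toFun d :=
    { val := Matrix.diagonal fun i => (d i : k)
      inv := Matrix.diagonal fun i => ((d i)⁻¹ : kˣ)
      val_inv := by
        rw [Matrix.diagonal_mul_diagonal]
        have : (fun i => ((d i : k)) * (((d i)⁻¹ : kˣ) : k)) = fun _ => 1 := by
          funext i
          exact Units.mul_inv _
        rw [this, Matrix.diagonal_one]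
      inv_val := by
        rw [Matrix.diagonal_mul_diagonal]
        have : (fun i => ((((d i)⁻¹ : kˣ) : k)) * (d i : k)) = fun _ => 1 := by
          funext i
          exact Units.inv_mul _
        rw [this, Matrix.diagonal_one] }
  map_one' := by
    apply Units.ext
    change Matrix.diagonal (fun _ : Fin 3 => ((1 : kˣ) : k)) = 1
    rw [Units.val_one, Matrix.diagonal_one]
  map_mul' d e := by
    apply Units.ext
    change Matrix.diagonal (fun i => ((d i * e i : kˣ) : k)) =
      Matrix.diagonal (fun i => (d i : k)) * Matrix.diagonal (fun i => (e i : k))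
    rw [Matrix.diagonal_mul_diagonal]
    rfl

theorem diagHom_injective (k : Type*) [Field k] : Function.Injective (diagHom k) := by
  intro d e h
  funext i
  apply Units.ext
  have h1 : (diagHom k d).val i i = (diagHom k e).val i i := by rw [h]
  change Matrix.diagonal (fun i => (d i : k)) i i = Matrix.diagonal (fun i => (e i : k)) i i at h1
  rwa [Matrix.diagonal_apply_eq, Matrix.diagonal_apply_eq] at h1

theorem mem_range_diagHom {k : Type*} [Field k] (g : GL (Fin 3) k) :
    g ∈ (diagHom k).range ↔ ∀ i j, i ≠ j → g.val i j = 0 := by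
  constructor
  · rintro ⟨d, rfl⟩ i j hij
    exact Matrix.diagonal_apply_ne _ hij
  · intro h
    have hd : g.val = Matrix.diagonal fun i => g.val i i := by
      ext i j
      by_cases hij : i = j
      · subst hij
        rw [Matrix.diagonal_apply_eq]
      · rw [Matrix.diagonal_apply_ne _ hij, h i j hij]
    have hdet : g.val.det ≠ 0 := ((Matrix.isUnit_iff_isUnit_det _).1 g.isUnit).ne_zero
    rw [hd, Matrix.det_diagonal, Finset.prod_ne_zero_iff] at hdet
    refine ⟨fun i => Units.mk0 (g.val i i) (hdet i (Finset.mem_univ _)), ?_⟩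
    apply Units.ext
    exact hd.symm

variable {A k : Type*} [CommRing A] [Field k] (D : Dat A)

theorem S_eq_comap (π : A →+* k) (hI : ∀ x, π x = 0 ↔ x ∈ D.I) :
    D.S = (diagHom k).range.comap (Matrix.GeneralLinearGroup.map (n := Fin 3) π) := by
  ext g
  rw [Subgroup.mem_comap, mem_range_diagHom, Dat.mem_S]
  refine forall_congr' fun i => forall_congr' fun j => forall_congr' fun _ => ?_
  rw [Matrix.GeneralLinearGroup.map_apply]
  exact (hI _).symm

theorem index_S [Finite k] (π : A →+* k) (hs : Function.Surjective π)
    (hI : ∀ x, π x = 0 ↔ x ∈ D.I) :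
    D.S.index * (Nat.card k - 1) ^ 3 =
      (Nat.card k ^ 3 - 1) * (Nat.card k ^ 3 - Nat.card k) * (Nat.card k ^ 3 - Nat.card k ^ 2) := by
  classical
  have : Fintype k := Fintype.ofFinite k
  have hsur := map_surjective π hs (fun x hx => D.unit x (fun h => hx ((hI x).2 h)))
  rw [S_eq_comap D π hI, Subgroup.index_comap_of_surjective _ hsur]
  have h1 := Subgroup.card_mul_index (diagHom k).range
  have h2 : Nat.card (diagHom k).range = (Nat.card k - 1) ^ 3 := by
    rw [← Nat.card_congr (MonoidHom.ofInjective (diagHom_injective k)).toEquiv]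
    rw [Nat.card_eq_fintype_card, Fintype.card_fun, Fintype.card_fin, Fintype.card_units,
      Nat.card_eq_fintype_card]
  rw [h2] at h1
  rw [mul_comm, h1, Matrix.card_GL_field, Fin.prod_univ_three, Nat.card_eq_fintype_card]
  simp

end Pool.Agent.Q110.GLA
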