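import Pool.Agent.Q110.GLA3
import Mathlib.RingTheory.DiscreteValuationRing.Basic
import Mathlib.RingTheory.LocalRing.ResidueField.Basic

/-!
# Primitive representations of `GL_3` over a quotient of length two
-/

set_option autoImplicit false

open Matrix IsLocalRing

namespace Pool.Agent.Q110.GLA

/-- The reduction. -/
noncomputable def red (R : Type*) [CommRing R] [IsLocalRing R] :
    (R ⧸ maximalIdeal R ^ 2) →+* ResidueField R :=
  Ideal.Quotient.lift (maximalIdeal R ^ 2) (residue R) (fun a ha => by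
    rw [residue_eq_zero_iff]
    exact Ideal.pow_le_self (by norm_num) ha)

theorem red_mk {R : Type*} [CommRing R] [IsLocalRing R] (a : R) :
    red R (Ideal.Quotient.mk _ a) = residue R a := Ideal.Quotient.lift_mk _ _ _

theorem red_mk_eq_zero {R : Type*} [CommRing R] [IsLocalRing R] (a : R) :
    red R (Ideal.Quotient.mk _ a) = 0 ↔ a ∈ maximalIdeal R := by
  rw [red_mk, residue_eq_zero_iff]

theorem red_surjective {R : Type*} [CommRing R] [IsLocalRing R] : Function.Surjective (red R) := by
  intro x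
  obtain ⟨a, rfl⟩ := residue_surjective x
  exact ⟨Ideal.Quotient.mk _ a, red_mk a⟩

theorem isUnit_of_red {R : Type*} [CommRing R] [IsLocalRing R] (x : R ⧸ maximalIdeal R ^ 2)
    (hx : red R x ≠ 0) : IsUnit x := by
  obtain ⟨a, rfl⟩ := Ideal.Quotient.mk_surjective x
  rw [red_mk, residue_ne_zero_iff_isUnit] at hx
  exact hx.map _

theorem finite_quot (R : Type*) [CommRing R] [IsDomain R] [IsDiscreteValuationRing R]
    [Finite (ResidueField R)] : Finite (R ⧸ maximalIdeal R ^ 2) := by
  have : Finite (R ⧸ maximalIdeal R) := ‹Finite (ResidueField R)›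
  exact Ideal.finite_quotient_pow (IsNoetherian.noetherian _) _

theorem natCast_card (k : Type*) [Field k] [Finite k] : ((Nat.card k : ℕ) : k) = 0 := by
  have : Fintype k := Fintype.ofFinite k
  rw [Nat.card_eq_fintype_card]
  exact FiniteField.cast_card_eq_zero k

theorem exists_dat (R : Type*) [CommRing R] [IsDomain R] [IsDiscreteValuationRing R]
    [Finite (ResidueField R)] (hq : 3 ≤ Nat.card (ResidueField R)) :
    ∃ D : Dat (R ⧸ maximalIdeal R ^ 2), ∀ x, red R x = 0 ↔ x ∈ D.I := by
  have hfin := finite_quot R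
  -- the character
  obtain ⟨ϖ, hϖ⟩ := IsDiscreteValuationRing.exists_irreducible R
  have hϖm : ϖ ∈ maximalIdeal R := by
    rw [hϖ.maximalIdeal_eq]
    exact Ideal.mem_span_singleton_self ϖ
  have hϖ2 : (Ideal.Quotient.mk (maximalIdeal R ^ 2) ϖ) ≠ 0 := by
    intro h
    rw [Ideal.Quotient.eq_zero_iff_mem, hϖ.maximalIdeal_eq, Ideal.span_singleton_pow,
      Ideal.mem_span_singleton] at h
    obtain ⟨c, hc⟩ := h
    apply hϖ.not_isUnit
    have h1 : ϖ * (1 - ϖ * c) = 0 := by
      rw [mul_sub, mul_one, ← mul_assoc, ← pow_two, ← hc, sub_self]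
    rcases mul_eq_zero.1 h1 with h2 | h2
    · exact (hϖ.ne_zero h2).elim
    · exact IsUnit.of_mul_eq_one c (sub_eq_zero.1 h2).symm
  obtain ⟨Ψ, hΨ⟩ := AddChar.exists_apply_ne_zero.2 hϖ2
  -- three distinct residue classes
  have : Fintype (ResidueField R) := Fintype.ofFinite _
  rw [Nat.card_eq_fintype_card] at hq
  obtain ⟨e⟩ : Nonempty (Fin 3 ↪ ResidueField R) := by
    apply Function.Embedding.nonempty_of_card_le
    rw [Fintype.card_fin]
    exact hq
  have hlift : ∀ i : Fin 3, ∃ b : R ⧸ maximalIdeal R ^ 2, red R b = e i :=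
    fun i => red_surjective _
  choose b hb using hlift
  refine ⟨{
    I := RingHom.ker (red R)
    sq := ?_
    unit := fun x hx => isUnit_of_red x hx
    ne := ?_
    m := Nat.card (ResidueField R) - 1
    hm := ?_
    mu := ?_
    Ψ := Ψ
    hΨ := ⟨_, ?_, hΨ⟩
    b := b
    hb := ?_ }, fun x => Iff.rfl⟩
  · intro x hx y hy
    obtain ⟨a, rfl⟩ := Ideal.Quotient.mk_surjective x
    obtain ⟨c, rfl⟩ := Ideal.Quotient.mk_surjective y
    rw [RingHom.mem_ker, red_mk_eq_zero] at hx hy
    rw [← map_mul, Ideal.Quotient.eq_zero_iff_mem, pow_two]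
    exact Ideal.mul_mem_mul hx hy
  · rw [RingHom.mem_ker, map_one]
    exact one_ne_zero
  · intro u hu
    rw [RingHom.mem_ker, map_sub, map_pow, map_one, Nat.card_eq_fintype_card,
      FiniteField.pow_card_sub_one_eq_one _ (hu.map (red R)).ne_zero, sub_self]
  · apply isUnit_of_red
    rw [map_natCast, Nat.cast_sub (Nat.card_pos), natCast_card, Nat.cast_one, zero_sub]
    exact neg_ne_zero.2 one_ne_zero
  · rw [RingHom.mem_ker, red_mk_eq_zero]
    exact hϖm
  · intro i j hij
    apply isUnit_of_red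
    rw [map_sub, hb, hb, sub_ne_zero]
    exact fun h => hij (e.injective h)

/-- The value of the dimension. -/
theorem exists_rep (R : Type) [CommRing R] [IsDomain R] [IsDiscreteValuationRing R]
    [Finite (ResidueField R)] (hq : 3 ≤ Nat.card (ResidueField R)) :
    ∃ (V : Type) (_ : AddCommGroup V) (_ : Module ℂ V)
        (ρ : Representation ℂ
          (Matrix.GeneralLinearGroup (Fin 3) (R ⧸ IsLocalRing.maximalIdeal R ^ 2)) V),
        FiniteDimensional ℂ V ∧ Nontrivial V ∧
        (∀ W : Submodule ℂ V, (∀ g v, v ∈ W → ρ g v ∈ W) → W = ⊥ ∨ W = ⊤) ∧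
        (∃ g : Matrix.GeneralLinearGroup (Fin 3) (R ⧸ IsLocalRing.maximalIdeal R ^ 2),
          (∀ i j, ∃ a ∈ IsLocalRing.maximalIdeal R ^ (2 - 1),
            g.val i j
              - (1 : Matrix (Fin 3) (Fin 3) (R ⧸ IsLocalRing.maximalIdeal R ^ 2)) i j
              = Ideal.Quotient.mk (IsLocalRing.maximalIdeal R ^ 2) a) ∧ ρ g ≠ 1) ∧
        Module.finrank ℂ V * (Nat.card (ResidueField R) - 1) ^ 3 =
          (Nat.card (ResidueField R) ^ 3 - 1) *
            (Nat.card (ResidueField R) ^ 3 - Nat.card (ResidueField R)) *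
            (Nat.card (ResidueField R) ^ 3 - Nat.card (ResidueField R) ^ 2) := by
  have hfin := finite_quot R
  obtain ⟨D, hD⟩ := exists_dat R hq
  refine ⟨D.V, inferInstance, inferInstance, D.ρ, D.finiteDim, D.nontrivial_V, D.irreducible, ?_, ?_⟩
  · obtain ⟨X, hX, hne⟩ := D.primitive
    refine ⟨D.kU X hX, fun i j => ?_, hne⟩
    obtain ⟨a, ha⟩ := Ideal.Quotient.mk_surjective (X i j)
    refine ⟨a, ?_, ?_⟩
    · have h1 := hX i j
      rw [← hD, ← ha, red_mk_eq_zero] at h1
      simpa using h1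
    · change (1 + X) i j - _ = _
      rw [Matrix.add_apply, add_sub_cancel_left, ha]
  · rw [D.finrank_V]
    exact index_S D (red R) red_surjective hD

end Pool.Agent.Q110.GLA
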