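import Mathlib.Data.ZMod.Basic
import Mathlib.LinearAlgebra.Matrix.Notation
import Mathlib.LinearAlgebra.Matrix.Determinant.Basic
import Mathlib.Tactic.FinCases
import Mathlib.Tactic.Ring
import Mathlib.Tactic.LinearCombination

/-!
# Every `3 × 3` matrix over the field with two elements commutes with an invertible matrix
different from the identity
-/

set_option autoImplicit false

open Matrix

namespace Pool.Agent.Q110.GLB

/-- A `3 × 3` matrix over the field with two elements. -/
structure B9 where
  (a b c d e f g h i : Bool)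
deriving DecidableEq

namespace B9

/-- Product. -/
def mul (x y : B9) : B9 where
  a := xor (xor (x.a && y.a) (x.b && y.d)) (x.c && y.g)
  b := xor (xor (x.a && y.b) (x.b && y.e)) (x.c && y.h)
  c := xor (xor (x.a && y.c) (x.b && y.f)) (x.c && y.i)
  d := xor (xor (x.d && y.a) (x.e && y.d)) (x.f && y.g)
  e := xor (xor (x.d && y.b) (x.e && y.e)) (x.f && y.h)
  f := xor (xor (x.d && y.c) (x.e && y.f)) (x.f && y.i)
  g := xor (xor (x.g && y.a) (x.h && y.d)) (x.i && y.g)
  h := xor (xor (x.g && y.b) (x.h && y.e)) (x.i && y.h)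
  i := xor (xor (x.g && y.c) (x.h && y.f)) (x.i && y.i)

/-- Sum. -/
def add (x y : B9) : B9 where
  a := xor x.a y.a
  b := xor x.b y.b
  c := xor x.c y.c
  d := xor x.d y.d
  e := xor x.e y.e
  f := xor x.f y.f
  g := xor x.g y.g
  h := xor x.h y.h
  i := xor x.i y.i

/-- Identity. -/
def one : B9 := ⟨true, false, false, false, true, false, false, false, true⟩

/-- Determinant. -/
def det (x : B9) : Bool :=
  xor (xor (x.a && xor (x.e && x.i) (x.f && x.h)) (x.b && xor (x.d && x.i) (x.f && x.g)))
    (x.c && xor (x.d && x.h) (x.e && x.g))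

/-- Matrix units. -/
def units : List B9 :=
  [⟨false, true, false, false, false, false, false, false, false⟩,
   ⟨false, false, true, false, false, false, false, false, false⟩,
   ⟨false, false, false, false, false, true, false, false, false⟩,
   ⟨false, false, false, true, false, false, false, false, false⟩,
   ⟨true, false, false, false, false, false, false, false, false⟩]

/-- Candidates for the matrix. -/
def cands (x : B9) : List B9 :=
  [x, add one x, add (add one x) (mul x x)] ++
    units.map (fun u => add one (mul (mul x u) x)) ++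
    units.map (fun u => add one (mul (mul (add one x) u) (add one x)))

/-- The check. -/
def good (x y : B9) : Bool := det y && !(decide (y = one)) && decide (mul y x = mul x y)

/-- The check. -/
def check (x : B9) : Bool := (cands x).any (good x)

theorem check_all : ∀ a b c d e f g h i : Bool, check ⟨a, b, c, d, e, f, g, h, i⟩ = true := by
  decide +kernel

/-- A Boolean as an element of the field with two elements. -/
def z (x : Bool) : ZMod 2 := if x then 1 else 0

theorem z_xor (x y : Bool) : z (xor x y) = z x + z y := by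
  revert x y
  decide

theorem z_and (x y : Bool) : z (x && y) = z x * z y := by
  revert x y
  decide

theorem z_inj {x y : Bool} (h : z x = z y) : x = y := by
  revert x y
  decide

theorem z_surj (t : ZMod 2) : ∃ x, z x = t := by
  revert t
  decide

/-- As a matrix. -/
def toM (x : B9) : Matrix (Fin 3) (Fin 3) (ZMod 2) :=
  !![z x.a, z x.b, z x.c; z x.d, z x.e, z x.f; z x.g, z x.h, z x.i]

theorem toM_mul (x y : B9) : toM (mul x y) = toM x * toM y := by
  ext i j
  fin_cases i <;> fin_cases j <;>
    simp [toM, mul, Matrix.mul_apply, Fin.sum_univ_three, z_xor, z_and, add_assoc]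

theorem toM_one : toM one = 1 := by
  ext i j
  fin_cases i <;> fin_cases j <;> rfl

theorem toM_inj {x y : B9} (h : toM x = toM y) : x = y := by
  have e : ∀ i j, toM x i j = toM y i j := fun i j => by rw [h]
  have h1 := z_inj (e 0 0)
  have h2 := z_inj (e 0 1)
  have h3 := z_inj (e 0 2)
  have h4 := z_inj (e 1 0)
  have h5 := z_inj (e 1 1)
  have h6 := z_inj (e 1 2)
  have h7 := z_inj (e 2 0)
  have h8 := z_inj (e 2 1)
  have h9 := z_inj (e 2 2)
  cases x
  cases y
  simp_all

theorem toM_surj (M : Matrix (Fin 3) (Fin 3) (ZMod 2)) : ∃ x, toM x = M := by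
  choose s hs using z_surj
  refine ⟨⟨s (M 0 0), s (M 0 1), s (M 0 2), s (M 1 0), s (M 1 1), s (M 1 2), s (M 2 0), s (M 2 1),
    s (M 2 2)⟩, ?_⟩
  ext i j
  fin_cases i <;> fin_cases j <;> simp [toM, hs]

theorem toM_det (x : B9) : (toM x).det = z (det x) := by
  rw [Matrix.det_fin_three]
  simp only [toM, det, z_xor, z_and]
  simp
  have : (-1 : ZMod 2) = 1 := by decide
  linear_combination (z x.a * z x.f * z x.h + z x.b * z x.d * z x.i + z x.c * z x.e * z x.g) * this

end B9

theorem exists_commuting (β : Matrix (Fin 3) (Fin 3) (ZMod 2)) :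
    ∃ c : Matrix (Fin 3) (Fin 3) (ZMod 2), c.det ≠ 0 ∧ c ≠ 1 ∧ c * β = β * c := by
  obtain ⟨x, rfl⟩ := B9.toM_surj β
  have h := B9.check_all x.a x.b x.c x.d x.e x.f x.g x.h x.i
  change B9.check x = true at h
  rw [B9.check, List.any_eq_true] at h
  obtain ⟨y, _, hy⟩ := h
  rw [B9.good, Bool.and_eq_true, Bool.and_eq_true, decide_eq_true_iff, Bool.not_eq_true',
    decide_eq_false_iff_not] at hy
  obtain ⟨⟨h1, h2⟩, h3⟩ := hy
  refine ⟨B9.toM y, ?_, ?_, ?_⟩
  · rw [B9.toM_det, h1]
    decide
  · intro h
    apply h2
    apply B9.toM_inj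
    rw [h, B9.toM_one]
  · rw [← B9.toM_mul, ← B9.toM_mul, h3]

end Pool.Agent.Q110.GLB
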