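import Pool.Agent.Q110.GLA3
import Pool.Agent.Q110.GLB
import Mathlib.LinearAlgebra.Eigenspace.Minpoly
import Mathlib.LinearAlgebra.Eigenspace.Triangularizable
import Mathlib.Analysis.Complex.Polynomial.Basic
import Mathlib.Algebra.Field.ZMod

/-!
# Irreducible representations of `GL_3` over a ring of length two with residue field of order two
-/

set_option autoImplicit false

open Matrix

namespace Pool.Agent.Q110.GLC

/-- The ring. -/
structure Two (A : Type*) [CommRing A] where
  π : A →+* ZMod 2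
  x0 : A
  hx : ∀ x, π x = 0 → x = 0 ∨ x = x0
  h0 : π x0 = 0
  sq : x0 * x0 = 0
  ne : x0 ≠ 0
  unit : ∀ x, π x ≠ 0 → IsUnit x

variable {A : Type*} [CommRing A] (T : Two A)

namespace Two

theorem x0_add : T.x0 + T.x0 = 0 := by
  have h1 : T.π (T.x0 + T.x0) = 0 := by rw [map_add, T.h0, add_zero]
  rcases T.hx _ h1 with h | h
  · exact h
  · exact (T.ne (left_eq_add.1 h.symm)).elim

theorem x0_mul (a : A) (ha : T.π a = 0) : T.x0 * a = 0 := by
  rcases T.hx a ha with rfl | rfl
  · rw [mul_zero]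
  · exact T.sq

theorem x0_mul' (a : A) (ha : T.π a ≠ 0) : T.x0 * a = T.x0 := by
  have h1 : T.π a = 1 := by
    generalize T.π a = t at ha
    revert t
    decide
  have h2 : T.π (a - 1) = 0 := by rw [map_sub, h1, map_one, sub_self]
  have h3 := T.x0_mul _ h2
  linear_combination h3

/-- The embedding. -/
def ι (t : ZMod 2) : A := if t = 0 then 0 else T.x0

theorem ι_π (a : A) : T.ι (T.π a) = T.x0 * a := by
  rw [ι]
  split_ifs with h
  · rw [T.x0_mul a h]
  · rw [T.x0_mul' a h]

theorem ι_zero : T.ι 0 = 0 := if_pos rfl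

theorem ι_one : T.ι 1 = T.x0 := if_neg (by decide)

theorem zcases (t : ZMod 2) : t = 0 ∨ t = 1 := by
  revert t
  decide

theorem ι_add (s t : ZMod 2) : T.ι (s + t) = T.ι s + T.ι t := by
  rcases zcases s with rfl | rfl <;> rcases zcases t with rfl | rfl
  · rw [add_zero, ι_zero, add_zero]
  · rw [zero_add, ι_zero, zero_add]
  · rw [add_zero, ι_zero, add_zero]
  · have : (1 : ZMod 2) + 1 = 0 := by decide
    rw [this, ι_zero, ι_one, x0_add]

/-- As an additive map. -/
def ιHom : ZMod 2 →+ A where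
  toFun := T.ι
  map_zero' := T.ι_zero
  map_add' := T.ι_add

theorem mul_ι (a : A) (t : ZMod 2) : a * T.ι t = T.ι (T.π a * t) := by
  rcases zcases t with rfl | rfl
  · rw [ι_zero, mul_zero, mul_zero, ι_zero]
  · rw [ι_one, mul_one, ι_π, mul_comm]

theorem ι_mul (a : A) (t : ZMod 2) : T.ι t * a = T.ι (t * T.π a) := by
  rw [mul_comm, mul_ι, mul_comm]

/-- Matrices with entries in the maximal ideal. -/
def em (M : Matrix (Fin 3) (Fin 3) (ZMod 2)) : Matrix (Fin 3) (Fin 3) A := fun i j => T.ι (M i j)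

theorem em_add (M N : Matrix (Fin 3) (Fin 3) (ZMod 2)) : T.em (M + N) = T.em M + T.em N := by
  ext i j
  exact T.ι_add _ _

theorem em_zero : T.em 0 = 0 := by
  ext i j
  exact T.ι_zero

theorem two_zero (M : Matrix (Fin 3) (Fin 3) (ZMod 2)) : M + M = 0 := by
  ext i j
  rw [Matrix.add_apply, Matrix.zero_apply]
  generalize M i j = t
  revert t
  decide

theorem mul_em (Y : Matrix (Fin 3) (Fin 3) A) (M : Matrix (Fin 3) (Fin 3) (ZMod 2)) :
    Y * T.em M = T.em (Y.map T.π * M) := by
  ext i j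
  rw [Matrix.mul_apply]
  change _ = T.ιHom _
  rw [Matrix.mul_apply, map_sum]
  exact Finset.sum_congr rfl fun k _ => T.mul_ι _ _

theorem em_mul (Y : Matrix (Fin 3) (Fin 3) A) (M : Matrix (Fin 3) (Fin 3) (ZMod 2)) :
    T.em M * Y = T.em (M * Y.map T.π) := by
  ext i j
  rw [Matrix.mul_apply]
  change _ = T.ιHom _
  rw [Matrix.mul_apply, map_sum]
  exact Finset.sum_congr rfl fun k _ => T.ι_mul _ _

theorem em_map (M : Matrix (Fin 3) (Fin 3) (ZMod 2)) : (T.em M).map T.π = 0 := by
  ext i j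
  rw [Matrix.map_apply, Matrix.zero_apply, em, ι]
  split_ifs
  · exact map_zero _
  · exact T.h0

theorem em_em (M N : Matrix (Fin 3) (Fin 3) (ZMod 2)) : T.em M * T.em N = 0 := by
  rw [mul_em, em_map, Matrix.zero_mul, em_zero]

/-- The unit `1 + x0 M`. -/
def kk (M : Matrix (Fin 3) (Fin 3) (ZMod 2)) : GL (Fin 3) A where
  val := 1 + T.em M
  inv := 1 + T.em M
  val_inv := by
    calc (1 + T.em M) * (1 + T.em M) = 1 + (T.em M + T.em M) + T.em M * T.em M := by noncomm_ring
      _ = 1 := by rw [em_em, ← em_add, two_zero, em_zero, add_zero, add_zero]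
  inv_val := by
    calc (1 + T.em M) * (1 + T.em M) = 1 + (T.em M + T.em M) + T.em M * T.em M := by noncomm_ring
      _ = 1 := by rw [em_em, ← em_add, two_zero, em_zero, add_zero, add_zero]

theorem kk_val (M : Matrix (Fin 3) (Fin 3) (ZMod 2)) : (T.kk M).val = 1 + T.em M := rfl

theorem kk_mul (M N : Matrix (Fin 3) (Fin 3) (ZMod 2)) : T.kk M * T.kk N = T.kk (M + N) := by
  apply Units.ext
  rw [Units.val_mul, kk_val, kk_val, kk_val, em_add]
  calc (1 + T.em M) * (1 + T.em N) = 1 + (T.em M + T.em N) + T.em M * T.em N := by noncomm_ring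
    _ = 1 + (T.em M + T.em N) := by rw [em_em, add_zero]

theorem kk_zero : T.kk 0 = 1 := by
  apply Units.ext
  rw [kk_val, em_zero, add_zero, Units.val_one]

theorem kk_conj (g : GL (Fin 3) A) (M : Matrix (Fin 3) (Fin 3) (ZMod 2)) :
    T.kk M * g = g * T.kk (g⁻¹.val.map T.π * M * g.val.map T.π) := by
  apply Units.ext
  rw [Units.val_mul, Units.val_mul, kk_val, kk_val, Matrix.add_mul, Matrix.mul_add, Matrix.one_mul,
    Matrix.mul_one, em_mul, mul_em]
  congr 2
  rw [← Matrix.mul_assoc, ← Matrix.mul_assoc, ← Matrix.map_mul, Units.mul_inv]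
  have : (1 : Matrix (Fin 3) (Fin 3) A).map T.π = 1 := by
    rw [Matrix.map_one _ (map_zero _) (map_one _)]
  rw [this, Matrix.one_mul]

/-- The sign. -/
noncomputable def χ (t : ZMod 2) : ℂ := if t = 0 then 1 else -1

theorem χ_zero : χ 0 = 1 := if_pos rfl

theorem χ_one : χ 1 = -1 := if_neg (by decide)

theorem χ_add (s t : ZMod 2) : χ (s + t) = χ s * χ t := by
  rcases zcases s with rfl | rfl <;> rcases zcases t with rfl | rfl
  · rw [add_zero, χ_zero, mul_one]
  · rw [zero_add, χ_zero, one_mul]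
  · rw [add_zero, χ_zero, mul_one]
  · have : (1 : ZMod 2) + 1 = 0 := by decide
    rw [this, χ_zero, χ_one]
    norm_num

section rep

variable {V : Type*} [AddCommGroup V] [Module ℂ V] (ρ : Representation ℂ (GL (Fin 3) A) V)

theorem exists_eig [Nontrivial V] (s : Finset (Fin 3 × Fin 3)) :
    ∃ v : V, v ≠ 0 ∧ ∃ ε : Fin 3 × Fin 3 → ZMod 2, ∀ p ∈ s,
      ρ (T.kk (Matrix.single p.1 p.2 1)) v = χ (ε p) • v := by
  classical
  induction s using Finset.induction_on with
  | empty =>
    obtain ⟨v, hv⟩ := exists_ne (0 : V)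
    exact ⟨v, hv, 0, fun p hp => absurd hp (Finset.notMem_empty p)⟩
  | insert p s hp ih =>
    obtain ⟨v, hv, ε, hε⟩ := ih
    set t := ρ (T.kk (Matrix.single p.1 p.2 1)) with ht
    have htt : ∀ x, t (t x) = x := by
      intro x
      rw [ht, ← Module.End.mul_apply, ← map_mul, kk_mul, two_zero, kk_zero, map_one,
        Module.End.one_apply]
    have hcomm : ∀ (q : Fin 3 × Fin 3) x, ρ (T.kk (Matrix.single q.1 q.2 1)) (t x) =
        t (ρ (T.kk (Matrix.single q.1 q.2 1)) x) := by
      intro q x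
      rw [ht, ← Module.End.mul_apply, ← map_mul, ← Module.End.mul_apply, ← map_mul, kk_mul, kk_mul,
        add_comm]
    have hupd : ∀ (c : ZMod 2) (q : Fin 3 × Fin 3), q ∈ s → Function.update ε p c q = ε q := by
      intro c q hq
      rw [Function.update_of_ne]
      rintro rfl
      exact hp hq
    by_cases h0 : v + t v = 0
    · refine ⟨v, hv, Function.update ε p 1, fun q hq => ?_⟩
      rcases Finset.mem_insert.1 hq with rfl | hq
      · rw [Function.update_self, χ_one, ← ht, neg_smul, one_smul]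
        exact (neg_eq_of_add_eq_zero_right h0).symm
      · rw [hupd _ q hq]
        exact hε q hq
    · refine ⟨v + t v, h0, Function.update ε p 0, fun q hq => ?_⟩
      rcases Finset.mem_insert.1 hq with rfl | hq
      · rw [Function.update_self, χ_zero, ← ht, map_add, htt, one_smul, add_comm]
      · rw [hupd _ q hq, map_add, hcomm, hε q hq, map_smul, smul_add]

/-- The eigenspace. -/
def Vβ (β : Matrix (Fin 3) (Fin 3) (ZMod 2)) : Submodule ℂ V where
  carrier := {v | ∀ M, ρ (T.kk M) v = χ ((β * M).trace) • v}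
  add_mem' := by
    intro v w hv hw M
    rw [map_add, hv M, hw M, smul_add]
  zero_mem' := by
    intro M
    rw [map_zero, smul_zero]
  smul_mem' := by
    intro c v hv M
    rw [map_smul, hv M, smul_comm]

theorem exists_β [Nontrivial V] : ∃ β, T.Vβ ρ β ≠ ⊥ := by
  obtain ⟨v, hv, ε, hε⟩ := T.exists_eig ρ Finset.univ
  obtain ⟨β, hβ⟩ : ∃ β : Matrix (Fin 3) (Fin 3) (ZMod 2), ∀ i j, β i j = ε (j, i) :=
    ⟨Matrix.of fun i j => ε (j, i), fun i j => rfl⟩
  refine ⟨β, ?_⟩
  rw [Submodule.ne_bot_iff]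
  refine ⟨v, ?_, hv⟩
  intro M
  induction M using Matrix.induction_on' with
  | h_zero => rw [kk_zero, map_one, Module.End.one_apply, Matrix.mul_zero, Matrix.trace_zero, χ_zero,
      one_smul]
  | h_add M N hM hN =>
    rw [← kk_mul, map_mul, Module.End.mul_apply, hN, map_smul, hM, Matrix.mul_add,
      Matrix.trace_add, χ_add, smul_smul, mul_comm]
  | h_std_basis i j x =>
    rcases zcases x with rfl | rfl
    · rw [Matrix.single_zero, kk_zero, map_one, Module.End.one_apply, Matrix.mul_zero,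
        Matrix.trace_zero, χ_zero, one_smul]
    · rw [hε (i, j) (Finset.mem_univ _)]
      congr 2
      rw [Matrix.trace_mul_comm, Matrix.trace_single_mul, hβ]
      simp

theorem ρ_mem (β : Matrix (Fin 3) (Fin 3) (ZMod 2)) (g : GL (Fin 3) A)
    (hg : g.val.map T.π * β = β * g.val.map T.π) (v : V) (hv : v ∈ T.Vβ ρ β) :
    ρ g v ∈ T.Vβ ρ β := by
  intro M
  rw [← Module.End.mul_apply, ← map_mul, kk_conj, map_mul, Module.End.mul_apply, hv, map_smul]
  congr 2
  have h1 : g.val.map T.π * g⁻¹.val.map T.π = 1 := by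
    rw [← Matrix.map_mul, Units.mul_inv, Matrix.map_one _ (map_zero _) (map_one _)]
  calc (β * (g⁻¹.val.map T.π * M * g.val.map T.π)).trace
      = (β * g⁻¹.val.map T.π * M * g.val.map T.π).trace := by simp only [Matrix.mul_assoc]
    _ = (g.val.map T.π * (β * g⁻¹.val.map T.π * M)).trace := Matrix.trace_mul_comm _ _
    _ = (g.val.map T.π * β * g⁻¹.val.map T.π * M).trace := by simp only [Matrix.mul_assoc]
    _ = (β * (g.val.map T.π * g⁻¹.val.map T.π) * M).trace := by
        rw [hg]
        simp only [Matrix.mul_assoc]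
    _ = (β * M).trace := by rw [h1, Matrix.mul_one]

/-- The stabiliser of a line. -/
def lineStab (w : V) (hw : w ≠ 0) : Subgroup (GL (Fin 3) A) where
  carrier := {g | ∃ μ : ℂ, ρ g w = μ • w}
  mul_mem' := by
    rintro g h ⟨μ, hμ⟩ ⟨ν, hν⟩
    refine ⟨ν * μ, ?_⟩
    rw [map_mul, Module.End.mul_apply, hν, map_smul, hμ, smul_smul]
  one_mem' := ⟨1, by rw [map_one, Module.End.one_apply, one_smul]⟩
  inv_mem' := by
    rintro g ⟨μ, hμ⟩
    have h1 : ρ g⁻¹ (ρ g w) = w := by
      rw [← Module.End.mul_apply, ← map_mul, inv_mul_cancel, map_one, Module.End.one_apply]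
    rw [hμ, map_smul] at h1
    have hμ0 : μ ≠ 0 := by
      rintro rfl
      rw [zero_smul] at h1
      exact hw h1.symm
    refine ⟨μ⁻¹, ?_⟩
    rw [← h1, smul_smul, inv_mul_cancel₀ hμ0, one_smul, h1]

theorem mem_lineStab (w : V) (hw : w ≠ 0) (g : GL (Fin 3) A) :
    g ∈ lineStab ρ w hw ↔ ∃ μ : ℂ, ρ g w = μ • w := Iff.rfl

theorem finrank_le [Finite A] (w : V) (hw : w ≠ 0)
    (hirr : ∀ W : Submodule ℂ V, (∀ g v, v ∈ W → ρ g v ∈ W) → W = ⊥ ∨ W = ⊤) :
    Module.finrank ℂ V ≤ (lineStab ρ w hw).index := by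
  classical
  have : Finite (GL (Fin 3) A ⧸ lineStab ρ w hw) := inferInstance
  have : Fintype (GL (Fin 3) A ⧸ lineStab ρ w hw) := Fintype.ofFinite _
  set f : (GL (Fin 3) A ⧸ lineStab ρ w hw) → V := fun x => ρ x.out w with hf
  have hmem : ∀ g, ρ g w ∈ Submodule.span ℂ (Set.range f) := by
    intro g
    have h1 : (QuotientGroup.mk g : GL (Fin 3) A ⧸ lineStab ρ w hw).out⁻¹ * g ∈
        lineStab ρ w hw := by
      rw [← QuotientGroup.eq]
      exact Quotient.out_eq _
    obtain ⟨μ, hμ⟩ := h1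
    have h2 : ρ g w = μ • f (QuotientGroup.mk g) := by
      rw [hf]
      dsimp only
      rw [← map_smul, ← hμ, ← Module.End.mul_apply, ← map_mul, mul_inv_cancel_left]
    rw [h2]
    exact Submodule.smul_mem _ _ (Submodule.subset_span ⟨_, rfl⟩)
  have htop : Submodule.span ℂ (Set.range f) = ⊤ := by
    rcases hirr (Submodule.span ℂ (Set.range f)) (by
      intro g v hv
      induction hv using Submodule.span_induction with
      | mem x hx =>
        obtain ⟨y, rfl⟩ := hx
        have : ρ g (f y) = ρ (g * y.out) w := by rw [map_mul, Module.End.mul_apply]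
        rw [this]
        exact hmem _
      | zero =>
        rw [map_zero]
        exact Submodule.zero_mem _
      | add x y _ _ hx hy =>
        rw [map_add]
        exact Submodule.add_mem _ hx hy
      | smul c x _ hx =>
        rw [map_smul]
        exact Submodule.smul_mem _ _ hx) with h | h
    · exfalso
      have h1 := hmem 1
      rw [map_one, Module.End.one_apply, h, Submodule.mem_bot] at h1
      exact hw h1
    · exact h
  have h3 := finrank_range_le_card (R := ℂ) f
  rw [Set.finrank, htop, finrank_top] at h3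
  rwa [Subgroup.index, Nat.card_eq_fintype_card]

/-- The congruence subgroup. -/
def K : Subgroup (GL (Fin 3) A) := (Matrix.GeneralLinearGroup.map (n := Fin 3) T.π).ker

theorem mem_K (g : GL (Fin 3) A) : g ∈ T.K ↔ g.val.map T.π = 1 := by
  rw [K, MonoidHom.mem_ker]
  constructor
  · intro h
    have := congrArg Units.val h
    exact this
  · intro h
    apply Units.ext
    exact h

theorem exists_kk (g : GL (Fin 3) A) (hg : g ∈ T.K) : ∃ M, g = T.kk M := by
  rw [mem_K] at hg
  have h1 : ∀ i j, ∃ t : ZMod 2, g.val i j - (1 : Matrix (Fin 3) (Fin 3) A) i j = T.ι t := by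
    intro i j
    have h2 : T.π (g.val i j - (1 : Matrix (Fin 3) (Fin 3) A) i j) = 0 := by
      have h3 := congrFun (congrFun hg i) j
      rw [Matrix.map_apply] at h3
      rw [map_sub, h3, sub_eq_zero]
      by_cases hij : i = j
      · subst hij
        rw [Matrix.one_apply_eq, Matrix.one_apply_eq, map_one]
      · rw [Matrix.one_apply_ne hij, Matrix.one_apply_ne hij, map_zero]
    rcases T.hx _ h2 with h | h
    · exact ⟨0, by rw [h, ι_zero]⟩
    · exact ⟨1, by rw [h, ι_one]⟩
  choose M hM using h1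
  refine ⟨Matrix.of M, ?_⟩
  apply Units.ext
  rw [kk_val]
  ext i j
  rw [Matrix.add_apply]
  change _ = _ + T.ι (M i j)
  rw [← hM, add_sub_cancel]

theorem index_K : T.K.index = 168 := by
  have : Fact (Nat.Prime 2) := ⟨Nat.prime_two⟩
  have hs : Function.Surjective T.π := ZMod.ringHom_surjective T.π
  have hsur := GLA.map_surjective T.π hs T.unit
  rw [K, Subgroup.index_ker, MonoidHom.range_eq_top.2 hsur, Subgroup.card_top,
    Matrix.card_GL_field, Fin.prod_univ_three]
  simp [ZMod.card]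

include T in
theorem finrank_le_84 [Finite A] [Nontrivial V] [FiniteDimensional ℂ V]
    (hirr : ∀ W : Submodule ℂ V, (∀ g v, v ∈ W → ρ g v ∈ W) → W = ⊥ ∨ W = ⊤) :
    Module.finrank ℂ V ≤ 84 := by
  have : Fact (Nat.Prime 2) := ⟨Nat.prime_two⟩
  obtain ⟨β, hβ⟩ := T.exists_β ρ
  obtain ⟨c, hc0, hc1, hcβ⟩ := GLB.exists_commuting β
  have hs : Function.Surjective T.π := ZMod.ringHom_surjective T.π
  obtain ⟨g, hg⟩ := GLA.map_surjective T.π hs T.unit
    (Matrix.GeneralLinearGroup.mkOfDetNeZero c hc0)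
  have hgc : g.val.map T.π = c := congrArg Units.val hg
  have hnt : Nontrivial (T.Vβ ρ β) := Submodule.nontrivial_iff_ne_bot.2 hβ
  have hmaps : ∀ v ∈ T.Vβ ρ β, ρ g v ∈ T.Vβ ρ β :=
    T.ρ_mem ρ β g (by rw [hgc, hcβ])
  obtain ⟨μ, hμ⟩ := Module.End.exists_eigenvalue ((ρ g).restrict hmaps)
  obtain ⟨w, hw⟩ := hμ.exists_hasEigenvector
  have hw0 : (w : V) ≠ 0 := fun h => hw.2 (Subtype.ext h)
  have hwg : ρ g (w : V) = μ • (w : V) := by
    have := hw.apply_eq_smul
    exact congrArg Subtype.val this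
  have h1 := finrank_le ρ (w : V) hw0 hirr
  have hK : T.K ≤ lineStab ρ (w : V) hw0 := by
    intro k hk
    obtain ⟨M, rfl⟩ := T.exists_kk k hk
    exact ⟨_, w.2 M⟩
  have h2 := Subgroup.relIndex_mul_index hK
  rw [index_K] at h2
  have h3 : T.K.relIndex (lineStab ρ (w : V) hw0) ≠ 1 := by
    rw [Ne, Subgroup.relIndex_eq_one]
    intro hle
    have h4 : g ∈ T.K := hle ⟨μ, hwg⟩
    rw [mem_K, hgc] at h4
    exact hc1 h4
  have h5 : T.K.relIndex (lineStab ρ (w : V) hw0) ≠ 0 := by
    intro h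
    rw [h] at h2
    omega
  have h6 : 2 ≤ T.K.relIndex (lineStab ρ (w : V) hw0) := by omega
  nlinarith

end rep

end Two

end Pool.Agent.Q110.GLC
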