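import Mathlib.LinearAlgebra.Matrix.Determinant.Basic
import Mathlib.LinearAlgebra.Matrix.NonsingularInverse
import Mathlib.LinearAlgebra.Matrix.ToLinearEquiv
import Mathlib.Algebra.Order.BigOperators.Group.Finset
import Mathlib.Algebra.Order.Ring.Abs
import Mathlib.Tactic.Linarith
import Mathlib.Tactic.Ring

/-!
# Determinants of matrices whose rows are sums of network rows

A network row has at most one entry `1`, at most one entry `-1`, and zeros elsewhere.  If the row `i`
of an integer matrix is a sum of `k i` network rows, then `|det| ≤ ∏ k i`.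
-/

set_option autoImplicit false

open Matrix

namespace Pool.Agent.Q110.Net

variable {ι κ : Type*}

/-- A network row. -/
def IsNet (v : ι → ℤ) : Prop :=
  (∀ i, v i = 0 ∨ v i = 1 ∨ v i = -1) ∧ (∀ i j, v i = 1 → v j = 1 → i = j) ∧
    (∀ i j, v i = -1 → v j = -1 → i = j)

theorem IsNet.comp {v : ι → ℤ} (h : IsNet v) {f : κ → ι} (hf : Function.Injective f) :
    IsNet (v ∘ f) :=
  ⟨fun i => h.1 (f i), fun i j h1 h2 => hf (h.2.1 _ _ h1 h2), fun i j h1 h2 => hf (h.2.2 _ _ h1 h2)⟩

theorem IsNet.neg {v : ι → ℤ} (h : IsNet v) : IsNet (-v) := by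
  refine ⟨fun i => ?_, fun i j h1 h2 => h.2.2 i j ?_ ?_, fun i j h1 h2 => h.2.1 i j ?_ ?_⟩
  · rcases h.1 i with h | h | h <;> simp [h]
  · simp only [Pi.neg_apply] at h1; omega
  · simp only [Pi.neg_apply] at h2; omega
  · simp only [Pi.neg_apply] at h1; omega
  · simp only [Pi.neg_apply] at h2; omega

/-- A network row with nonzero sum is `± e_a`. -/
theorem IsNet.unit [Fintype ι] {v : ι → ℤ} (h : IsNet v) (hs : ∑ i, v i ≠ 0) :
    ∃ a, |v a| = 1 ∧ ∀ j, j ≠ a → v j = 0 := by
  classical
  by_cases h1 : ∃ a, v a = 1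
  · obtain ⟨a, ha⟩ := h1
    by_cases h2 : ∃ b, v b = -1
    · obtain ⟨b, hb⟩ := h2
      exfalso
      apply hs
      have hab : a ≠ b := by
        rintro rfl
        omega
      have h3 : ∀ i, i ≠ a ∧ i ≠ b → v i = 0 := by
        rintro i ⟨hia, hib⟩
        rcases h.1 i with h4 | h4 | h4
        · exact h4
        · exact (hia (h.2.1 i a h4 ha)).elim
        · exact (hib (h.2.2 i b h4 hb)).elim
      rw [Fintype.sum_eq_add a b hab h3, ha, hb]
      norm_num
    · refine ⟨a, by rw [ha, abs_one], fun j hj => ?_⟩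
      rcases h.1 j with h4 | h4 | h4
      · exact h4
      · exact (hj (h.2.1 j a h4 ha)).elim
      · exact (h2 ⟨j, h4⟩).elim
  · by_cases h2 : ∃ b, v b = -1
    · obtain ⟨b, hb⟩ := h2
      refine ⟨b, by rw [hb, abs_neg, abs_one], fun j hj => ?_⟩
      rcases h.1 j with h4 | h4 | h4
      · exact h4
      · exact (h1 ⟨j, h4⟩).elim
      · exact (hj (h.2.2 j b h4 hb)).elim
    · exfalso
      apply hs
      refine Finset.sum_eq_zero fun j _ => ?_
      rcases h.1 j with h4 | h4 | h4
      · exact h4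
      · exact (h1 ⟨j, h4⟩).elim
      · exact (h2 ⟨j, h4⟩).elim

/-- Determinants of matrices with network rows are `0` or `± 1`. -/
theorem net_det_fin : ∀ (n : ℕ) (M : Matrix (Fin n) (Fin n) ℤ), (∀ i, IsNet (M i)) → |M.det| ≤ 1 := by
  intro n
  induction n with
  | zero =>
    intro M _
    rw [Matrix.det_fin_zero, abs_one]
  | succ n ih =>
    intro M hM
    by_cases h : ∃ i, ∑ j, M i j ≠ 0
    · obtain ⟨i, hi⟩ := h
      obtain ⟨a, ha, ha2⟩ := (hM i).unit hi
      rw [Matrix.det_succ_row M i, Finset.sum_eq_single a]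
      · rw [abs_mul, abs_mul, ha, abs_pow, abs_neg, abs_one, one_pow, one_mul, one_mul]
        exact ih _ fun k => (hM _).comp Fin.succAbove_right_injective
      · intro b _ hb
        rw [ha2 b hb, mul_zero, zero_mul]
      · intro hb
        exact (hb (Finset.mem_univ _)).elim
    · have h0 : M.det = 0 := by
        rw [← Matrix.exists_mulVec_eq_zero_iff]
        refine ⟨fun _ => 1, ?_, ?_⟩
        · intro h2
          exact one_ne_zero (congrFun h2 0)
        · funext i
          simp only [Matrix.mulVec, dotProduct, mul_one, Pi.zero_apply]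
          by_contra hc
          exact h ⟨i, hc⟩
      rw [h0, abs_zero]
      exact zero_le_one

variable [Fintype ι] [DecidableEq ι]

theorem net_det (M : Matrix ι ι ℤ) (hM : ∀ i, IsNet (M i)) : |M.det| ≤ 1 := by
  let e := Fintype.equivFin ι
  rw [← Matrix.det_submatrix_equiv_self e.symm M]
  exact net_det_fin _ _ fun i => (hM _).comp e.symm.injective

/-- If the row `i` is a sum of `k i` network rows, then `|det| ≤ ∏ k i`. -/
theorem det_bound (M : Matrix ι ι ℤ) (k : ι → ℕ) (r : ∀ i, Fin (k i) → ι → ℤ)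
    (hr : ∀ i t, IsNet (r i t)) (hM : ∀ i, M i = ∑ t, r i t) : |M.det| ≤ ∏ i, (k i : ℤ) := by
  have h1 : M.det = ∑ s : ∀ i, Fin (k i), Matrix.det (fun i => r i (s i)) := by
    have h2 := (Matrix.detRowAlternating (n := ι) (R := ℤ)).toMultilinearMap.map_sum
      (g := fun i t => r i t)
    have h3 : M = fun i => ∑ t, r i t := funext hM
    rw [h3]
    exact h2
  rw [h1]
  calc |∑ s : ∀ i, Fin (k i), Matrix.det (fun i => r i (s i))|
      ≤ ∑ s : ∀ i, Fin (k i), |Matrix.det (fun i => r i (s i))| := Finset.abs_sum_le_sum_abs _ _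
    _ ≤ ∑ _s : ∀ i, Fin (k i), (1 : ℤ) := Finset.sum_le_sum fun s _ => net_det _ fun i => hr i (s i)
    _ = ∏ i, (k i : ℤ) := by
      rw [Finset.sum_const, Finset.card_univ, Fintype.card_pi]
      simp

end Pool.Agent.Q110.Net
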