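import Mathlib.Analysis.Quaternion
import Mathlib.LinearAlgebra.BilinearForm.Orthogonal
import Mathlib.LinearAlgebra.Charpoly.Basic
import Mathlib.Analysis.Complex.Polynomial.Basic
import Mathlib.Tactic.Linarith
import Mathlib.Tactic.Module

/-!
# Invariant maximal semidefinite subspaces in quaternionic inner product spaces

A finite dimensional quaternionic space is encoded as a real vector space with right multiplications
`ρ q`.  The form `g` is the real part of a hermitian form, `A` is a `g`-skew quaternionic operator.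
-/

set_option autoImplicit false

open Quaternion Polynomial

namespace Pool.Agent.Q110.Neut

/-- A real vector space with right quaternion multiplications, a symmetric form and a skew operator
which vanishes on the radical of the form. -/
structure QSys (V : Type*) [AddCommGroup V] [Module ℝ V] where
  ρ : ℍ[ℝ] → V →ₗ[ℝ] V
  ρ_real : ∀ (r : ℝ) (x : V), ρ (r : ℍ[ℝ]) x = r • x
  ρ_add : ∀ p q x, ρ (p + q) x = ρ p x + ρ q x
  ρ_mul : ∀ p q x, ρ (p * q) x = ρ q (ρ p x)
  g : LinearMap.BilinForm ℝ V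
  g_symm : ∀ x y, g x y = g y x
  g_ρ : ∀ q x y, g (ρ q x) y = g x (ρ (star q) y)
  A : V →ₗ[ℝ] V
  A_ρ : ∀ q x, A (ρ q x) = ρ q (A x)
  A_skew : ∀ x y, g (A x) y = -g x (A y)
  rad : ∀ x, (∀ y, g x y = 0) → A x = 0

variable {V : Type*} [AddCommGroup V] [Module ℝ V]

namespace QSys

variable (D : QSys V)

/-- The same system with the opposite form. -/
def neg : QSys V where
  ρ := D.ρ
  ρ_real := D.ρ_real
  ρ_add := D.ρ_add
  ρ_mul := D.ρ_mul
  g := -D.g
  g_symm x y := by
    rw [LinearMap.neg_apply, LinearMap.neg_apply, LinearMap.neg_apply, LinearMap.neg_apply,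
      D.g_symm]
  g_ρ q x y := by
    rw [LinearMap.neg_apply, LinearMap.neg_apply, LinearMap.neg_apply, LinearMap.neg_apply,
      D.g_ρ]
  A := D.A
  A_ρ := D.A_ρ
  A_skew x y := by
    rw [LinearMap.neg_apply, LinearMap.neg_apply, LinearMap.neg_apply, LinearMap.neg_apply,
      D.A_skew]
  rad x hx := D.rad x fun y => by
    have := hx y
    rw [LinearMap.neg_apply, LinearMap.neg_apply] at this
    exact neg_eq_zero.1 this

/-- Invariant quaternionic subspaces. -/
def Inv (L : Submodule ℝ V) : Prop := (∀ q, ∀ x ∈ L, D.ρ q x ∈ L) ∧ ∀ x ∈ L, D.A x ∈ L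

def Nonneg (L : Submodule ℝ V) : Prop := ∀ x ∈ L, 0 ≤ D.g x x

/-- `l` is an eigenvalue of the restriction of `A` to `L`. -/
def Eig (L : Submodule ℝ V) (l : ℍ[ℝ]) : Prop := ∃ x ∈ L, x ≠ 0 ∧ D.A x = D.ρ l x

/-- The orthogonal complement. -/
def orth (L : Submodule ℝ V) : Submodule ℝ V := D.g.orthogonal L

theorem mem_orth {L : Submodule ℝ V} {x : V} : x ∈ D.orth L ↔ ∀ y ∈ L, D.g y x = 0 := Iff.rfl

theorem mem_orth' {L : Submodule ℝ V} {x : V} : x ∈ D.orth L ↔ ∀ y ∈ L, D.g x y = 0 := by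
  rw [mem_orth]
  exact forall₂_congr fun y _ => by rw [D.g_symm]

theorem refl : D.g.IsRefl := fun x y h => by rw [D.g_symm]; exact h

theorem inv_orth {L : Submodule ℝ V} (hL : D.Inv L) : D.Inv (D.orth L) := by
  refine ⟨fun q x hx => ?_, fun x hx => ?_⟩
  · rw [mem_orth'] at hx ⊢
    intro y hy
    rw [D.g_ρ]
    exact hx _ (hL.1 _ _ hy)
  · rw [mem_orth'] at hx ⊢
    intro y hy
    rw [D.A_skew, hx _ (hL.2 _ hy), neg_zero]

theorem ρ_zero (x : V) : D.ρ 0 x = 0 := by
  have := D.ρ_real 0 x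
  rwa [zero_smul, Quaternion.coe_zero] at this

theorem ρ_neg (q : ℍ[ℝ]) (x : V) : D.ρ (-q) x = -D.ρ q x := by
  have := D.ρ_add q (-q) x
  rw [add_neg_cancel, ρ_zero] at this
  exact eq_neg_of_add_eq_zero_right this.symm

theorem ρ_sub (p q : ℍ[ℝ]) (x : V) : D.ρ (p - q) x = D.ρ p x - D.ρ q x := by
  rw [sub_eq_add_neg, D.ρ_add, ρ_neg, sub_eq_add_neg]

theorem ρ_one (x : V) : D.ρ 1 x = x := by
  have := D.ρ_real 1 x
  rwa [one_smul, Quaternion.coe_one] at this

theorem ρ_inv (q : ℍ[ℝ]) (hq : q ≠ 0) (x : V) : D.ρ q⁻¹ (D.ρ q x) = x := by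
  rw [← D.ρ_mul, mul_inv_cancel₀ hq, ρ_one]

theorem g_ρ_self (q : ℍ[ℝ]) (x : V) : D.g (D.ρ q x) x = q.re * D.g x x := by
  have h1 : D.g (D.ρ q x) x = D.g (D.ρ (star q) x) x := by
    rw [D.g_ρ, D.g_symm]
  have h2 : D.g (D.ρ (q + star q) x) x = 2 * D.g (D.ρ q x) x := by
    rw [D.ρ_add, map_add, LinearMap.add_apply, ← h1]
    ring
  have h3 : q + star q = ((2 * q.re : ℝ) : ℍ[ℝ]) := by
    rw [Quaternion.self_add_star]
    push_cast
    rfl
  rw [h3, D.ρ_real, map_smul, LinearMap.smul_apply, smul_eq_mul] at h2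
  linarith

theorem g_ρ_ρ (q : ℍ[ℝ]) (x : V) : D.g (D.ρ q x) (D.ρ q x) = normSq q * D.g x x := by
  rw [D.g_ρ, ← D.ρ_mul, Quaternion.self_mul_star, D.ρ_real, map_smul, smul_eq_mul]

/-- Existence of eigenvectors modulo an invariant subspace. -/
theorem exists_eig [FiniteDimensional ℝ V] (L M : Submodule ℝ V) (hM : D.Inv M)
    (hne : ¬ M ≤ L) : ∃ x ∈ M, x ∉ L ∧ ∃ l, D.A x - D.ρ l x ∈ L := by
  classical
  have hP : ∃ n : ℕ, ∃ p : ℝ[X], p ≠ 0 ∧ p.natDegree = n ∧ ∃ x ∈ M, x ∉ L ∧ aeval D.A p x ∈ L := by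
    obtain ⟨x, hx, hxL⟩ := Set.not_subset.1 hne
    refine ⟨_, D.A.charpoly, ?_, rfl, x, hx, hxL, ?_⟩
    · exact (LinearMap.charpoly_monic _).ne_zero
    · rw [LinearMap.aeval_self_charpoly]
      exact L.zero_mem
  obtain ⟨p, hp0, hpn, x, hx, hxL, hpx⟩ := Nat.find_spec hP
  have hmin : ∀ q : ℝ[X], q ≠ 0 → q.natDegree < Nat.find hP → ∀ y ∈ M, aeval D.A q y ∈ L → y ∈ L := by
    intro q hq hqn y hy hqy
    by_contra hyL
    exact Nat.find_min hP hqn ⟨q, hq, rfl, y, hy, hyL, hqy⟩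
  have hdeg : p.natDegree ≠ 0 := by
    intro h
    obtain ⟨c, rfl⟩ := Polynomial.natDegree_eq_zero.1 h
    rw [aeval_C, Module.algebraMap_end_apply] at hpx
    apply hxL
    have hc : c ≠ 0 := by
      rintro rfl
      exact hp0 (map_zero _)
    have := L.smul_mem c⁻¹ hpx
    rwa [smul_smul, inv_mul_cancel₀ hc, one_smul] at this
  have hMp : ∀ q : ℝ[X], aeval D.A q x ∈ M := by
    intro q
    induction q using Polynomial.induction_on' with
    | add p q hp hq =>
      rw [map_add, LinearMap.add_apply]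
      exact M.add_mem hp hq
    | monomial n a =>
      rw [aeval_monomial, Module.End.mul_apply, Module.algebraMap_end_apply]
      refine M.smul_mem _ ?_
      induction n with
      | zero => simpa using hx
      | succ n ih =>
        rw [pow_succ', Module.End.mul_apply]
        exact hM.2 _ ih
  obtain ⟨z, hz⟩ := IsAlgClosed.exists_aeval_eq_zero ℂ p (by
    intro h
    exact hdeg (Polynomial.natDegree_eq_zero_iff_degree_le_zero.2 h.le))
  by_cases him : z.im = 0
  · have hroot : p.IsRoot z.re := by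
      have h1 : (z.re : ℂ) = z := Complex.ext rfl (by simp [him])
      rw [← h1] at hz
      have h2 : aeval (algebraMap ℝ ℂ z.re) p = algebraMap ℝ ℂ (aeval z.re p) :=
        aeval_algebraMap_apply _ _ _
      have h3 : algebraMap ℝ ℂ (aeval z.re p) = 0 := by
        rw [← h2]
        exact hz
      have h4 : aeval z.re p = 0 := (map_eq_zero_iff _ (algebraMap ℝ ℂ).injective).1 h3
      rw [Polynomial.coe_aeval_eq_eval] at h4
      exact h4
    obtain ⟨q, hq⟩ := Polynomial.dvd_iff_isRoot.2 hroot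
    have hq0 : q ≠ 0 := by
      rintro rfl
      exact hp0 (by rw [hq, mul_zero])
    have hlt : q.natDegree < p.natDegree := by
      rw [hq, Polynomial.natDegree_mul (Polynomial.X_sub_C_ne_zero _) hq0,
        Polynomial.natDegree_X_sub_C]
      omega
    refine ⟨aeval D.A q x, hMp q, fun hc => hxL (hmin q hq0 (hpn ▸ hlt) x hx hc), (z.re : ℍ[ℝ]), ?_⟩
    have h1 : aeval D.A p x = D.A (aeval D.A q x) - z.re • aeval D.A q x := by
      rw [hq, map_mul, Module.End.mul_apply, map_sub, aeval_X, aeval_C, LinearMap.sub_apply,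
        Module.algebraMap_end_apply]
    rw [D.ρ_real, ← h1]
    exact hpx
  · obtain ⟨q, hq⟩ := Polynomial.quadratic_dvd_of_aeval_eq_zero_im_ne_zero p hz him
    have hq0 : q ≠ 0 := by
      rintro rfl
      exact hp0 (by rw [hq, mul_zero])
    have hquad : (X ^ 2 - C (2 * z.re) * X + C (‖z‖ ^ 2) : ℝ[X]).natDegree = 2 := by
      compute_degree!
    have hlt : q.natDegree < p.natDegree := by
      rw [hq, Polynomial.natDegree_mul _ hq0, hquad]
      · omega
      · intro h
        rw [h, natDegree_zero] at hquad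
        omega
    set y := aeval D.A q x with hy
    have hyM : y ∈ M := hMp q
    have hyL : y ∉ L := fun hc => hxL (hmin q hq0 (hpn ▸ hlt) x hx hc)
    have h1 : aeval D.A p x = D.A (D.A y) - (2 * z.re) • D.A y + (‖z‖ ^ 2) • y := by
      rw [hq, map_mul, Module.End.mul_apply, ← hy, map_add, map_sub, map_mul, aeval_X, aeval_C,
        aeval_C, map_pow, aeval_X, LinearMap.add_apply, LinearMap.sub_apply, Module.End.mul_apply,
        Module.algebraMap_end_apply, Module.algebraMap_end_apply, pow_two, Module.End.mul_apply]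
    set β : ℍ[ℝ] := ⟨0, z.im, 0, 0⟩ with hβ
    have hββ : β * β = ((-(z.im ^ 2) : ℝ) : ℍ[ℝ]) := by
      have e1 : β.re = 0 := rfl
      have e2 : β.imI = z.im := rfl
      have e3 : β.imJ = 0 := rfl
      have e4 : β.imK = 0 := rfl
      apply Quaternion.ext
      · rw [Quaternion.re_mul, Quaternion.re_coe, e1, e2, e3, e4]
        ring
      · rw [Quaternion.imI_mul, Quaternion.imI_coe, e1, e2, e3, e4]
        ring
      · rw [Quaternion.imJ_mul, Quaternion.imJ_coe, e1, e2, e3, e4]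
        ring
      · rw [Quaternion.imK_mul, Quaternion.imK_coe, e1, e2, e3, e4]
        ring
    have hn : ‖z‖ ^ 2 = z.re ^ 2 + z.im ^ 2 := by
      rw [Complex.sq_norm, Complex.normSq_apply]
      ring
    set w := D.A y - z.re • y + D.ρ β y with hw
    by_cases hwL : w ∈ L
    · refine ⟨y, hyM, hyL, (z.re : ℍ[ℝ]) - β, ?_⟩
      rw [D.ρ_sub, D.ρ_real]
      have : D.A y - (z.re • y - D.ρ β y) = w := by
        rw [hw]
        abel
      rw [this]
      exact hwL
    · refine ⟨w, M.add_mem (M.sub_mem (hM.2 _ hyM) (M.smul_mem _ hyM)) (hM.1 _ _ hyM), hwL,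
        (z.re : ℍ[ℝ]) + β, ?_⟩
      have h2 : D.ρ β (D.ρ β y) = -(z.im ^ 2) • y := by
        rw [← D.ρ_mul, hββ, D.ρ_real]
      have h3 : D.A w - D.ρ ((z.re : ℍ[ℝ]) + β) w = aeval D.A p x := by
        rw [h1, D.ρ_add, D.ρ_real, hw]
        simp only [map_add, map_sub, map_smul, h2, hn, D.A_ρ]
        module
      rw [h3]
      exact hpx

theorem orth_orth [FiniteDimensional ℝ V] {W : Submodule ℝ V} (hR : D.orth ⊤ ≤ W) :
    D.orth (D.orth W) = W := by
  have h1 := LinearMap.BilinForm.finrank_add_finrank_orthogonal D.refl W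
  have h2 := LinearMap.BilinForm.finrank_add_finrank_orthogonal D.refl (D.orth W)
  have h3 : W ⊓ D.g.orthogonal ⊤ = D.g.orthogonal ⊤ := inf_eq_right.2 hR
  have h4 : D.orth W ⊓ D.g.orthogonal ⊤ = D.g.orthogonal ⊤ :=
    inf_eq_right.2 (LinearMap.BilinForm.orthogonal_le le_top)
  rw [h3] at h1
  rw [h4] at h2
  refine (Submodule.eq_of_le_of_finrank_eq
    (LinearMap.BilinForm.le_orthogonal_orthogonal D.refl) ?_).symm
  change _ = Module.finrank ℝ (D.g.orthogonal (D.orth W))
  change _ + Module.finrank ℝ (D.orth W) = _ at h1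
  omega

theorem cs {L : Submodule ℝ V} (hL : D.Nonneg L) {x y : V} (hx : x ∈ L) (hy : y ∈ L)
    (h0 : D.g x x = 0) : D.g x y = 0 := by
  by_contra h
  have h1 := hL ((-(D.g y y + 1) / (2 * D.g x y)) • x + y) (L.add_mem (L.smul_mem _ hx) hy)
  simp only [map_add, map_smul, LinearMap.add_apply, LinearMap.smul_apply, smul_eq_mul, h0,
    D.g_symm y x] at h1
  have h2 : -(D.g y y + 1) / (2 * D.g x y) * D.g x y = -(D.g y y + 1) / 2 := by
    field_simp
  rw [h2] at h1
  linarith

/-- The quaternionic line spanned by `x`. -/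
def line (x : V) : Submodule ℝ V where
  carrier := {y | ∃ q, y = D.ρ q x}
  add_mem' := by
    rintro _ _ ⟨p, rfl⟩ ⟨q, rfl⟩
    exact ⟨p + q, (D.ρ_add p q x).symm⟩
  zero_mem' := ⟨0, (D.ρ_zero x).symm⟩
  smul_mem' := by
    rintro r _ ⟨p, rfl⟩
    exact ⟨p * r, by rw [D.ρ_mul, D.ρ_real]⟩

theorem mem_line_self (x : V) : x ∈ D.line x := ⟨1, (D.ρ_one x).symm⟩

theorem mem_sup_line {L : Submodule ℝ V} {x y : V} :
    y ∈ L ⊔ D.line x ↔ ∃ a ∈ L, ∃ p, y = a + D.ρ p x := by
  rw [Submodule.mem_sup]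
  constructor
  · rintro ⟨a, ha, b, ⟨p, hp⟩, rfl⟩
    exact ⟨a, ha, p, by rw [hp]⟩
  · rintro ⟨a, ha, p, rfl⟩
    exact ⟨a, ha, _, ⟨p, rfl⟩, rfl⟩

end QSys

theorem surj_mod [FiniteDimensional ℝ V] (T : V →ₗ[ℝ] V) (M L0 : Submodule ℝ V)
    (hT : ∀ y ∈ M, T y ∈ M) (hT0 : ∀ y ∈ L0, T y ∈ L0)
    (hinj : ∀ y ∈ M, T y ∈ L0 → y ∈ L0) : ∀ m ∈ M, ∃ y ∈ M, ∃ k ∈ L0, m = T y + k := by
  intro m hm
  set N0 : Submodule ℝ M := L0.comap M.subtype with hN0
  set f : M →ₗ[ℝ] M := T.restrict hT with hf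
  have hle : N0 ≤ N0.comap f := by
    intro y hy
    exact hT0 _ hy
  set fq : (M ⧸ N0) →ₗ[ℝ] (M ⧸ N0) := N0.mapQ N0 f hle with hfq
  have hinj' : Function.Injective fq := by
    rw [← LinearMap.ker_eq_bot, LinearMap.ker_eq_bot']
    intro q hq
    obtain ⟨y, rfl⟩ := Submodule.Quotient.mk_surjective N0 q
    rw [hfq, Submodule.mapQ_apply, Submodule.Quotient.mk_eq_zero] at hq
    rw [Submodule.Quotient.mk_eq_zero]
    exact hinj y.1 y.2 hq
  have hsurj := LinearMap.injective_iff_surjective.1 hinj'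
  obtain ⟨q, hq⟩ := hsurj (Submodule.Quotient.mk ⟨m, hm⟩)
  obtain ⟨y, rfl⟩ := Submodule.Quotient.mk_surjective N0 q
  rw [hfq, Submodule.mapQ_apply, eq_comm, Submodule.Quotient.eq] at hq
  exact ⟨y.1, y.2, m - T y.1, hq, by abel⟩

theorem star_conj (l : ℍ[ℝ]) : ∃ q : ℍ[ℝ], q ≠ 0 ∧ q⁻¹ * l * q = star l := by
  have key : ∀ q : ℍ[ℝ], q ≠ 0 → l * q = q * star l → q⁻¹ * l * q = star l := by
    intro q hq h
    rw [mul_assoc, h, ← mul_assoc, inv_mul_cancel₀ hq, one_mul]
  by_cases h : l.imI = 0 ∧ l.imJ = 0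
  · let q : ℍ[ℝ] := ⟨0, 1, 0, 0⟩
    have e1 : q.re = 0 := rfl
    have e2 : q.imI = 1 := rfl
    have e3 : q.imJ = 0 := rfl
    have e4 : q.imK = 0 := rfl
    refine ⟨q, ?_, ?_⟩
    · intro h0
      rw [h0] at e2
      simp at e2
    · apply key
      · intro h0
        rw [h0] at e2
        simp at e2
      · apply Quaternion.ext
        · rw [Quaternion.re_mul, Quaternion.re_mul, Quaternion.re_star, Quaternion.imI_star,
            Quaternion.imJ_star, Quaternion.imK_star, e1, e2, e3, e4, h.1, h.2]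
          ring
        · rw [Quaternion.imI_mul, Quaternion.imI_mul, Quaternion.re_star, Quaternion.imI_star,
            Quaternion.imJ_star, Quaternion.imK_star, e1, e2, e3, e4, h.1, h.2]
          ring
        · rw [Quaternion.imJ_mul, Quaternion.imJ_mul, Quaternion.re_star, Quaternion.imI_star,
            Quaternion.imJ_star, Quaternion.imK_star, e1, e2, e3, e4, h.1, h.2]
          ring
        · rw [Quaternion.imK_mul, Quaternion.imK_mul, Quaternion.re_star, Quaternion.imI_star,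
            Quaternion.imJ_star, Quaternion.imK_star, e1, e2, e3, e4, h.1, h.2]
          ring
  · let q : ℍ[ℝ] := ⟨0, -l.imJ, l.imI, 0⟩
    have e1 : q.re = 0 := rfl
    have e2 : q.imI = -l.imJ := rfl
    have e3 : q.imJ = l.imI := rfl
    have e4 : q.imK = 0 := rfl
    have hq0 : q ≠ 0 := by
      intro h0
      apply h
      rw [h0] at e2 e3
      constructor
      · rw [← e3]
        rfl
      · have : l.imJ = -(0 : ℍ[ℝ]).imI := by rw [e2, neg_neg]
        rw [this]
        simp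
    refine ⟨q, hq0, key q hq0 ?_⟩
    apply Quaternion.ext
    · rw [Quaternion.re_mul, Quaternion.re_mul, Quaternion.re_star, Quaternion.imI_star,
        Quaternion.imJ_star, Quaternion.imK_star, e1, e2, e3, e4]
      ring
    · rw [Quaternion.imI_mul, Quaternion.imI_mul, Quaternion.re_star, Quaternion.imI_star,
        Quaternion.imJ_star, Quaternion.imK_star, e1, e2, e3, e4]
      ring
    · rw [Quaternion.imJ_mul, Quaternion.imJ_mul, Quaternion.re_star, Quaternion.imI_star,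
        Quaternion.imJ_star, Quaternion.imK_star, e1, e2, e3, e4]
      ring
    · rw [Quaternion.imK_mul, Quaternion.imK_mul, Quaternion.re_star, Quaternion.imI_star,
        Quaternion.imJ_star, Quaternion.imK_star, e1, e2, e3, e4]
      ring

namespace QSys

variable (D : QSys V)

/-- The operator `A - ρ l`. -/
def T (l : ℍ[ℝ]) : V →ₗ[ℝ] V := D.A - D.ρ l

theorem T_apply (l : ℍ[ℝ]) (x : V) : D.T l x = D.A x - D.ρ l x := rfl

theorem T_mem {L : Submodule ℝ V} (hL : D.Inv L) (l : ℍ[ℝ]) {x : V} (hx : x ∈ L) :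
    D.T l x ∈ L := L.sub_mem (hL.2 _ hx) (hL.1 _ _ hx)

/-- The adjoint of `A - ρ l` is `-(A - ρ (-star l))`. -/
theorem T_adj (l : ℍ[ℝ]) (x y : V) : D.g (D.T l x) y = -D.g x (D.T (-star l) y) := by
  rw [T_apply, T_apply, map_sub, LinearMap.sub_apply, D.A_skew, D.g_ρ, map_sub, ρ_neg, map_neg]
  ring

theorem eig_iff (L : Submodule ℝ V) (l : ℍ[ℝ]) :
    D.Eig L l ↔ ∃ x ∈ L, x ≠ 0 ∧ D.T l x = 0 := by
  simp only [Eig, T_apply, sub_eq_zero]

/-- An eigenvalue on a quotient is an eigenvalue. -/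
theorem eig_of_mod [FiniteDimensional ℝ V] {L0 : Submodule ℝ V} (h0 : D.Inv L0) (l : ℍ[ℝ]) {x : V}
    (hx : x ∉ L0) (hTx : D.T l x ∈ L0) : D.Eig ⊤ l := by
  by_contra hcon
  rw [eig_iff] at hcon
  push Not at hcon
  obtain ⟨y, hy, k, hk, hyk⟩ := surj_mod (D.T l) L0 ⊥ (fun y hy => D.T_mem h0 l hy)
    (fun y hy => by
      rw [Submodule.mem_bot] at hy ⊢
      rw [hy, map_zero])
    (fun y _ hTy => by
      rw [Submodule.mem_bot] at hTy ⊢
      by_contra hne
      exact hcon y Submodule.mem_top hne hTy) _ hTx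
  rw [Submodule.mem_bot] at hk
  rw [hk, add_zero] at hyk
  have h1 : D.T l (x - y) = 0 := by rw [map_sub, hyk, sub_self]
  by_cases hxy : x - y = 0
  · exact hx (by rwa [sub_eq_zero.1 hxy])
  · exact hcon _ Submodule.mem_top hxy h1

/-- The orthogonal projection to a quaternionic line. -/
theorem exists_proj (e x : V) (he : D.g e e ≠ 0) :
    ∃ q, ∀ p, D.g (D.ρ p e) (D.ρ q e) = D.g (D.ρ p e) x := by
  let lin : ℍ[ℝ] →ₗ[ℝ] V :=
    { toFun := fun p => D.ρ p e
      map_add' := fun p q => D.ρ_add p q e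
      map_smul' := fun r p => by
        have : r • p = (r : ℍ[ℝ]) * p := (Quaternion.coe_mul_eq_smul r p).symm
        rw [this, D.ρ_mul, D.ρ_real, map_smul, RingHom.id_apply] }
  let ψ : ℍ[ℝ] →ₗ[ℝ] Module.Dual ℝ ℍ[ℝ] :=
    (LinearMap.lcomp ℝ ℝ lin) ∘ₗ (LinearMap.flip D.g) ∘ₗ lin
  have hψ : ∀ q p, ψ q p = D.g (D.ρ p e) (D.ρ q e) := fun q p => rfl
  have hinj : Function.Injective ψ := by
    rw [← LinearMap.ker_eq_bot, LinearMap.ker_eq_bot']
    intro q hq
    have h1 := LinearMap.congr_fun hq q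
    rw [hψ, g_ρ_ρ, LinearMap.zero_apply] at h1
    rcases mul_eq_zero.1 h1 with h | h
    · exact normSq_eq_zero.1 h
    · exact (he h).elim
  have hsurj := (LinearMap.injective_iff_surjective_of_finrank_eq_finrank
    (by rw [Subspace.dual_finrank_eq])).1 hinj
  obtain ⟨q, hq⟩ := hsurj ((LinearMap.flip D.g x) ∘ₗ lin)
  refine ⟨q, fun p => ?_⟩
  rw [← hψ, hq]
  rfl

/-- The main theorem. -/
theorem main [FiniteDimensional ℝ V] (F : Set ℍ[ℝ])
    (hF : ∀ l ∈ F, ∀ q : ℍ[ℝ], q ≠ 0 → q⁻¹ * l * q ∈ F) (h0 : (0 : ℍ[ℝ]) ∈ F)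
    (hF2 : ∀ l, D.Eig ⊤ l → l ∉ F → l.re ≠ 0 ∧ -l ∈ F)
    (N : Submodule ℝ V) (hN : D.Inv N) (hNn : D.Nonneg N) (hNF : ∀ l, D.Eig N l → l ∈ F) :
    ∃ L, N ≤ L ∧ D.Inv L ∧ D.Nonneg L ∧ (∀ L', L ≤ L' → D.Nonneg L' → L' ≤ L) ∧
      (∀ l, D.Eig L l → l ∈ F) ∧
      ∀ l ∈ F, D.Eig ⊤ l → l.re ≠ 0 → -l ∉ F → D.Eig L l := by
  classical
  -- a maximal good subspace
  let S : Set (Submodule ℝ V) := {L | N ≤ L ∧ D.Inv L ∧ D.Nonneg L ∧ ∀ l, D.Eig L l → l ∈ F}
  obtain ⟨L, hLS, hmax⟩ := WellFounded.has_min (wellFounded_gt (α := Submodule ℝ V)) S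
    ⟨N, le_rfl, hN, hNn, hNF⟩
  obtain ⟨hNL, hL, hLn, hLF⟩ := hLS
  -- extension by an eigenvector
  have hext : ∀ x l, x ∈ D.orth L → D.T l x ∈ L → l ∈ F → 0 ≤ D.g x x → x ∈ L := by
    intro x l hx hTx hlF hgx
    by_contra hxL
    refine hmax (L ⊔ D.line x) ⟨hNL.trans le_sup_left, ⟨?_, ?_⟩, ?_, ?_⟩ ?_
    · intro q y hy
      rw [mem_sup_line] at hy ⊢
      obtain ⟨a, ha, p, rfl⟩ := hy
      exact ⟨_, hL.1 q a ha, p * q, by rw [map_add, D.ρ_mul]⟩
    · intro y hy
      rw [mem_sup_line] at hy ⊢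
      obtain ⟨a, ha, p, rfl⟩ := hy
      refine ⟨D.A a + D.ρ p (D.T l x), L.add_mem (hL.2 a ha) (hL.1 _ _ hTx), l * p, ?_⟩
      rw [map_add, D.A_ρ, T_apply, map_sub, D.ρ_mul]
      abel
    · intro y hy
      rw [mem_sup_line] at hy
      obtain ⟨a, ha, p, rfl⟩ := hy
      have h1 : D.ρ p x ∈ D.orth L := (D.inv_orth hL).1 _ _ hx
      have h2 : D.g a (D.ρ p x) = 0 := D.mem_orth.1 h1 a ha
      have h3 : D.g (D.ρ p x) a = 0 := by rw [D.g_symm, h2]
      simp only [map_add, LinearMap.add_apply]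
      rw [h2, h3, g_ρ_ρ]
      have h4 := hLn a ha
      have h5 : 0 ≤ normSq p * D.g x x := mul_nonneg normSq_nonneg hgx
      linarith
    · rintro μ ⟨y, hy, hy0, hAy⟩
      rw [mem_sup_line] at hy
      obtain ⟨a, ha, p, rfl⟩ := hy
      by_cases hp : p = 0
      · rw [hp, ρ_zero, add_zero] at hAy hy0
        exact hLF μ ⟨a, ha, hy0, hAy⟩
      · have h1 : D.ρ (l * p - p * μ) x = D.ρ μ a - D.A a - D.ρ p (D.T l x) := by
          rw [map_add, map_add, D.A_ρ] at hAy
          rw [D.ρ_sub, D.ρ_mul, D.ρ_mul, T_apply, map_sub]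
          rw [eq_sub_iff_add_eq, eq_sub_iff_add_eq]
          have h2 : D.ρ p (D.ρ l x) - D.ρ μ (D.ρ p x) + (D.ρ p (D.A x) - D.ρ p (D.ρ l x)) + D.A a =
              D.A a + D.ρ p (D.A x) - D.ρ μ (D.ρ p x) := by abel
          rw [h2, hAy, add_sub_cancel_right]
        have h2 : D.ρ (l * p - p * μ) x ∈ L := by
          rw [h1]
          exact L.sub_mem (L.sub_mem (hL.1 _ _ ha) (hL.2 _ ha)) (hL.1 _ _ hTx)
        have h3 : l * p - p * μ = 0 := by
          by_contra hne
          apply hxL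
          have := hL.1 (l * p - p * μ)⁻¹ _ h2
          rwa [ρ_inv _ _ hne] at this
        have h4 : μ = p⁻¹ * l * p := by
          rw [mul_assoc, sub_eq_zero.1 h3, ← mul_assoc, inv_mul_cancel₀ hp, one_mul]
        rw [h4]
        exact hF l hlF p hp
    · refine lt_of_le_of_ne le_sup_left fun h => hxL ?_
      rw [h]
      exact le_sup_right (a := L) (D.mem_line_self x)
  -- the radical is contained in `L`
  have hR : D.orth ⊤ ≤ L := by
    intro x hx
    have h1 : ∀ y, D.g x y = 0 := fun y => D.mem_orth'.1 hx y Submodule.mem_top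
    refine hext x 0 (D.mem_orth'.2 fun y _ => h1 y) ?_ h0 (by rw [h1])
    rw [T_apply, D.rad x h1, ρ_zero, sub_zero]
    exact L.zero_mem
  have hLL : D.orth (D.orth L) = L := D.orth_orth hR
  set M := D.orth L with hM
  have hMinv : D.Inv M := D.inv_orth hL
  have hgLM : ∀ a ∈ L, ∀ m ∈ M, D.g a m = 0 := fun a ha m hm => D.mem_orth.1 hm a ha
  set L0 := L ⊓ M with hL0
  have hL0inv : D.Inv L0 := ⟨fun q x hx => ⟨hL.1 q x hx.1, hMinv.1 q x hx.2⟩,
    fun x hx => ⟨hL.2 x hx.1, hMinv.2 x hx.2⟩⟩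
  -- eigenvectors in `M` modulo `L0`
  have hneg1 : ∀ x l, x ∈ M → x ∉ L → D.T l x ∈ L → l ∈ F → D.g x x < 0 ∧ l.re = 0 := by
    intro x l hx hxL hTx hlF
    have h1 : D.g x x < 0 := by
      by_contra hcon
      exact hxL (hext x l hx hTx hlF (not_lt.1 hcon))
    refine ⟨h1, ?_⟩
    have h2 : D.g (D.T l x) x = 0 := hgLM _ hTx x hx
    have h3 : D.g (D.A x) x = 0 := by
      have := D.A_skew x x
      rw [D.g_symm x (D.A x)] at this
      linarith
    rw [T_apply, map_sub, LinearMap.sub_apply, h3, g_ρ_self, zero_sub, neg_eq_zero] at h2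
    rcases mul_eq_zero.1 h2 with h | h
    · exact h
    · exact (h1.ne h).elim
  have hneg2 : ∀ x l, x ∈ M → x ∉ L → D.T l x ∈ L → D.g x x < 0 ∧ l.re = 0 := by
    intro x l hx hxL hTx
    by_cases hlF : l ∈ F
    · exact hneg1 x l hx hxL hTx hlF
    exfalso
    have hTM : D.T l x ∈ M := D.T_mem hMinv l hx
    obtain ⟨hre, hlF'⟩ := hF2 l (D.eig_of_mod hL0inv l (fun h => hxL h.1) ⟨hTx, hTM⟩) hlF
    have hsl : -star l ∈ F := by
      obtain ⟨q, hq, hq2⟩ := star_conj (-l)
      have := hF _ hlF' q hq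
      rwa [hq2, star_neg] at this
    have hex : ∃ y ∈ M, y ∉ L ∧ D.T (-star l) y ∈ L := by
      by_contra hcon
      push Not at hcon
      apply hxL
      rw [← hLL]
      rw [mem_orth']
      intro m hm
      obtain ⟨y, hy, k, hk, hyk⟩ := surj_mod (D.T (-star l)) M L0
        (fun y hy => D.T_mem hMinv _ hy) (fun y hy => D.T_mem hL0inv _ hy)
        (fun y hy hTy => by
          refine ⟨?_, hy⟩
          by_contra hyL
          exact hcon y hy hyL hTy.1) m hm
      have h1 := D.T_adj l x y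
      rw [hgLM _ hTx y hy] at h1
      rw [hyk, map_add, D.g_symm x k, hgLM k hk.1 x hx, add_zero]
      linarith
    obtain ⟨y, hy, hyL, hTy⟩ := hex
    have := (hneg1 y _ hy hyL hTy hsl).2
    rw [Quaternion.re_neg, Quaternion.re_star] at this
    exact hre (neg_eq_zero.1 this)
  -- `M` is negative modulo `L0`
  have hneg3 : ∀ (d : ℕ) (M' : Submodule ℝ V), Module.finrank ℝ M' ≤ d → D.Inv M' → M' ≤ M →
      L0 ≤ M' → ∀ x ∈ M', x ∉ L → D.g x x < 0 := by
    intro d
    induction d with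
    | zero =>
      intro M' hd _ _ _ x hx hxL
      exfalso
      have h1 : M' = ⊥ := Submodule.finrank_eq_zero.1 (Nat.le_zero.1 hd)
      rw [h1, Submodule.mem_bot] at hx
      exact hxL (hx ▸ L.zero_mem)
    | succ d ih =>
      intro M' hd hM' hMM' hLM' x hx hxL
      obtain ⟨e, he, heL, l, hel⟩ := D.exists_eig L M' hM' fun h => hxL (h hx)
      have he1 := (hneg2 e l (hMM' he) heL hel).1
      -- the orthogonal complement of the line
      set M'' := M' ⊓ D.orth (D.line e) with hM''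
      have hperp : ∀ y, y ∈ D.orth (D.line e) ↔ ∀ q, D.g (D.ρ q e) y = 0 := by
        intro y
        rw [mem_orth]
        constructor
        · intro h q
          exact h _ ⟨q, rfl⟩
        · rintro h _ ⟨q, rfl⟩
          exact h q
      have hinv'' : D.Inv M'' := by
        refine ⟨fun q y hy => ⟨hM'.1 _ _ hy.1, (hperp _).2 ?_⟩,
          fun y hy => ⟨hM'.2 _ hy.1, (hperp _).2 ?_⟩⟩
        · intro p
          rw [D.g_symm, D.g_ρ, D.g_symm, ← D.ρ_mul]
          exact (hperp y).1 hy.2 _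
        · intro p
          have h1 : D.A (D.ρ p e) = D.ρ (l * p) e + D.ρ p (D.T l e) := by
            rw [D.A_ρ, T_apply, map_sub, D.ρ_mul]
            abel
          have h2 := D.A_skew (D.ρ p e) y
          have hel' : D.T l e ∈ L := hel
          rw [h1, map_add, LinearMap.add_apply, (hperp y).1 hy.2,
            hgLM _ (hL.1 _ _ hel') y (hMM' hy.1)] at h2
          linarith
      have hlt : Module.finrank ℝ M'' < Module.finrank ℝ M' := by
        apply Submodule.finrank_lt_finrank_of_lt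
        refine lt_of_le_of_ne inf_le_left fun h => ?_
        have h1 : e ∈ M'' := h ▸ he
        have h2 := (hperp e).1 h1.2 1
        rw [ρ_one] at h2
        exact he1.ne h2
      have hL0'' : L0 ≤ M'' := by
        refine le_inf hLM' fun y hy => ?_
        rw [hperp]
        intro q
        rw [D.g_symm]
        exact hgLM _ hy.1 _ (hMinv.1 _ _ (hMM' he))
      -- decomposition of `x`
      obtain ⟨q, hq⟩ := D.exists_proj e x he1.ne
      have hx' : x - D.ρ q e ∈ M'' := by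
        refine ⟨M'.sub_mem hx (hM'.1 _ _ he), (hperp _).2 fun p => ?_⟩
        rw [map_sub, hq p, sub_self]
      have h1 : D.g x x = D.g (x - D.ρ q e) (x - D.ρ q e) + normSq q * D.g e e := by
        have h2 := (hperp _).1 hx'.2 q
        have h3 : x = (x - D.ρ q e) + D.ρ q e := by abel
        have h4 : ∀ a b : V, D.g (a + b) (a + b) = D.g a a + 2 * D.g b a + D.g b b := by
          intro a b
          simp only [map_add, LinearMap.add_apply]
          rw [D.g_symm a b]
          ring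
        conv_lhs => rw [h3]
        rw [h4, h2, g_ρ_ρ]
        ring
      rw [h1]
      by_cases hx'L : x - D.ρ q e ∈ L
      · have hq0 : q ≠ 0 := by
          rintro rfl
          rw [ρ_zero, sub_zero] at hx'L
          exact hxL hx'L
        rw [hgLM _ hx'L _ (hMM' hx'.1), zero_add]
        exact mul_neg_of_pos_of_neg
          (lt_of_le_of_ne normSq_nonneg (Ne.symm (by rwa [Ne, normSq_eq_zero]))) he1
      · have h2 := ih M'' (by omega) hinv'' (inf_le_left.trans hMM') hL0'' _ hx' hx'L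
        have h3 : normSq q * D.g e e ≤ 0 :=
          mul_nonpos_of_nonneg_of_nonpos normSq_nonneg he1.le
        linarith
  have hneg : ∀ x ∈ M, x ∉ L → D.g x x < 0 := hneg3 _ M le_rfl hMinv le_rfl inf_le_right
  -- the orthogonal complement of `L0`
  have hperp0 : D.orth L0 ≤ L ⊔ M := by
    have h1 : D.orth (L ⊔ M) ≤ L0 := by
      refine le_inf ?_ (LinearMap.BilinForm.orthogonal_le le_sup_left)
      calc D.orth (L ⊔ M) ≤ D.orth M := LinearMap.BilinForm.orthogonal_le le_sup_right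
        _ = L := hLL
    calc D.orth L0 ≤ D.orth (D.orth (L ⊔ M)) := LinearMap.BilinForm.orthogonal_le h1
      _ = L ⊔ M := D.orth_orth (hR.trans le_sup_left)
  refine ⟨L, hNL, hL, hLn, ?_, hLF, ?_⟩
  · intro L' hLL' hL'n y hy
    have h1 : y ∈ D.orth L0 := by
      rw [mem_orth]
      intro k hk
      exact D.cs hL'n (hLL' hk.1) hy (hgLM k hk.1 k hk.2)
    obtain ⟨a, ha, m, hm, rfl⟩ := Submodule.mem_sup.1 (hperp0 h1)
    have h2 : m ∈ L' := by
      have := L'.sub_mem hy (hLL' ha)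
      rwa [add_sub_cancel_left] at this
    have h3 : m ∈ L := by
      by_contra hmL
      exact absurd (hL'n m h2) (not_le.2 (hneg m hm hmL))
    exact L.add_mem ha h3
  · intro l hlF hl hre hl'
    by_contra hcon
    rw [eig_iff] at hl hcon
    obtain ⟨x, -, hx0, hTx⟩ := hl
    push Not at hcon
    have h1 : x ∈ D.orth L0 := by
      rw [mem_orth']
      intro k hk
      obtain ⟨y, hy, b, hb, hyb⟩ := surj_mod (D.T (-star l)) L0 ⊥
        (fun y hy => D.T_mem hL0inv _ hy)
        (fun y hy => by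
          rw [Submodule.mem_bot] at hy ⊢
          rw [hy, map_zero])
        (fun y hy hTy => by
          rw [Submodule.mem_bot] at hTy ⊢
          by_contra hne
          apply hl'
          have h2 := hLF (-star l) ((D.eig_iff L _).2 ⟨y, hy.1, hne, hTy⟩)
          obtain ⟨q, hq, hq2⟩ := star_conj (-star l)
          have h3 := hF _ h2 q hq
          rwa [hq2, star_neg, star_star] at h3) k hk
      rw [Submodule.mem_bot] at hb
      rw [hb, add_zero] at hyb
      have h2 := D.T_adj l x y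
      rw [hTx, map_zero, LinearMap.zero_apply] at h2
      rw [hyb]
      linarith
    obtain ⟨a, ha, m, hm, rfl⟩ := Submodule.mem_sup.1 (hperp0 h1)
    rw [map_add] at hTx
    have hmL : m ∈ L := by
      by_contra hmL
      have h2 : D.T l m ∈ L := by
        rw [eq_neg_of_add_eq_zero_right hTx]
        exact L.neg_mem (D.T_mem hL l ha)
      exact hre (hneg2 m l hm hmL h2).2
    exact hcon _ (L.add_mem ha hmL) hx0 (by rw [map_add, hTx])

end QSys

end Pool.Agent.Q110.Neut
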