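import Pool.Agent.Q110.Neut
import Mathlib.LinearAlgebra.Matrix.ConjTranspose
import Mathlib.LinearAlgebra.Matrix.NonsingularInverse

/-!
# Invariant maximal semidefinite subspaces: matrix form
-/

set_option autoImplicit false

open Quaternion Matrix MulOpposite

namespace Pool.Agent.Q110.NeutMat

open Pool.Agent.Q110.Neut

variable {n : ℕ}

theorem re_mul_comm' (a b : ℍ[ℝ]) : (a * b).re = (b * a).re := by
  rw [Quaternion.re_mul, Quaternion.re_mul]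
  ring

theorem re_conj (l q : ℍ[ℝ]) (hq : q ≠ 0) : (q⁻¹ * l * q).re = l.re := by
  rw [re_mul_comm', ← mul_assoc, mul_inv_cancel₀ hq, one_mul]

theorem form_symm (G : Matrix (Fin n) (Fin n) ℍ[ℝ]) (hG : Gᴴ = G) (x y : Fin n → ℍ[ℝ]) :
    star (star x ⬝ᵥ (G *ᵥ y)) = star y ⬝ᵥ (G *ᵥ x) := by
  rw [Matrix.star_dotProduct, star_star, Matrix.star_mulVec, hG, Matrix.dotProduct_mulVec]

/-- The quaternionic system attached to a hermitian matrix `G` and a `G`-skew matrix `A`. -/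
noncomputable def mkSys (A G : Matrix (Fin n) (Fin n) ℍ[ℝ]) (hG : Gᴴ = G)
    (hAG : Aᴴ * G = -(G * A)) (hker : ∀ x : Fin n → ℍ[ℝ], G *ᵥ x = 0 → A *ᵥ x = 0) :
    QSys (Fin n → ℍ[ℝ]) where
  ρ q :=
    { toFun := fun x i => x i * q
      map_add' := fun x y => by
        funext i
        simp only [Pi.add_apply, add_mul]
      map_smul' := fun r x => by
        funext i
        simp only [Pi.smul_apply, smul_mul_assoc, RingHom.id_apply] }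
  ρ_real r x := by
    funext i
    change x i * (r : ℍ[ℝ]) = r • x i
    rw [← Quaternion.coe_mul_eq_smul, Quaternion.coe_commutes]
  ρ_add p q x := by
    funext i
    exact mul_add _ _ _
  ρ_mul p q x := by
    funext i
    exact (mul_assoc _ _ _).symm
  g := LinearMap.mk₂ ℝ (fun x y => (star x ⬝ᵥ (G *ᵥ y)).re)
    (fun x x' y => by rw [star_add, add_dotProduct, Quaternion.re_add])
    (fun r x y => by
      have h1 : star (r • x) = r • star x := by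
        funext i
        simp only [Pi.star_apply, Pi.smul_apply]
        exact Quaternion.star_smul r (x i)
      rw [h1, smul_dotProduct, Quaternion.re_smul, smul_eq_mul])
    (fun x y y' => by rw [Matrix.mulVec_add, dotProduct_add, Quaternion.re_add])
    (fun r x y => by
      rw [Matrix.mulVec_smul, dotProduct_smul, Quaternion.re_smul, smul_eq_mul])
  g_symm x y := by
    change (star x ⬝ᵥ (G *ᵥ y)).re = (star y ⬝ᵥ (G *ᵥ x)).re
    rw [← form_symm G hG x y, Quaternion.re_star]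
  g_ρ q x y := by
    change (star (fun i => x i * q) ⬝ᵥ (G *ᵥ y)).re = (star x ⬝ᵥ (G *ᵥ fun i => y i * star q)).re
    have h1 : star (fun i => x i * q) = fun i => star q * star (x i) := by
      funext i
      rw [Pi.star_apply, star_mul]
    have h2 : (G *ᵥ fun i => y i * star q) = fun i => (G *ᵥ y) i * star q := by
      funext i
      simp only [Matrix.mulVec, dotProduct, Finset.sum_mul, mul_assoc]
    rw [h1, h2]
    have h3 : (fun i => star q * star (x i)) ⬝ᵥ (G *ᵥ y) = star q * (star x ⬝ᵥ (G *ᵥ y)) := by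
      simp only [dotProduct, Finset.mul_sum, mul_assoc, Pi.star_apply]
    have h4 : star x ⬝ᵥ (fun i => (G *ᵥ y) i * star q) = (star x ⬝ᵥ (G *ᵥ y)) * star q := by
      simp only [dotProduct, Finset.sum_mul, mul_assoc, Pi.star_apply]
    rw [h3, h4, re_mul_comm']
  A :=
    { toFun := fun x => A *ᵥ x
      map_add' := fun x y => Matrix.mulVec_add A x y
      map_smul' := fun r x => Matrix.mulVec_smul A r x }
  A_ρ q x := by
    funext i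
    change (A *ᵥ fun i => x i * q) i = (A *ᵥ x) i * q
    simp only [Matrix.mulVec, dotProduct, Finset.sum_mul, mul_assoc]
  A_skew x y := by
    change (star (A *ᵥ x) ⬝ᵥ (G *ᵥ y)).re = -(star x ⬝ᵥ (G *ᵥ (A *ᵥ y))).re
    rw [Matrix.star_mulVec, ← Matrix.dotProduct_mulVec, Matrix.mulVec_mulVec, hAG,
      Matrix.neg_mulVec, dotProduct_neg, Quaternion.re_neg, Matrix.mulVec_mulVec]
  rad x hx := by
    change A *ᵥ x = 0
    apply hker
    funext i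
    have h1 : (star x ⬝ᵥ (G *ᵥ (Pi.single i ((G *ᵥ x) i)))).re = 0 := hx _
    rw [← Quaternion.re_star, form_symm G hG] at h1
    have h2 : star (Pi.single i ((G *ᵥ x) i) : Fin n → ℍ[ℝ]) ⬝ᵥ (G *ᵥ x) =
        star ((G *ᵥ x) i) * (G *ᵥ x) i := by
      rw [← Pi.single_star, single_dotProduct]
    rw [h2, Quaternion.star_mul_self, Quaternion.re_coe, Quaternion.normSq_eq_zero] at h1
    exact h1

/-- Right quaternionic subspaces as real subspaces. -/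
def toR (M : Submodule ℍ[ℝ]ᵐᵒᵖ (Fin n → ℍ[ℝ])) : Submodule ℝ (Fin n → ℍ[ℝ]) where
  carrier := M
  add_mem' := M.add_mem
  zero_mem' := M.zero_mem
  smul_mem' r x hx := by
    have h : r • x = op (r : ℍ[ℝ]) • x := by
      funext i
      simp only [Pi.smul_apply, op_smul_eq_mul]
      rw [← Quaternion.coe_mul_eq_smul, Quaternion.coe_commutes]
    change r • x ∈ M
    rw [h]
    exact M.smul_mem _ hx

theorem mem_toR {M : Submodule ℍ[ℝ]ᵐᵒᵖ (Fin n → ℍ[ℝ])} {x : Fin n → ℍ[ℝ]} : x ∈ toR M ↔ x ∈ M :=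
  Iff.rfl

/-- The matrix form of the main theorem. -/
theorem concrete (A G : Matrix (Fin n) (Fin n) ℍ[ℝ]) (hG : Gᴴ = G) (hAG : Aᴴ * G = -(G * A))
    (hker : ∀ x : Fin n → ℍ[ℝ], G *ᵥ x = 0 → A *ᵥ x = 0) (F : Set ℍ[ℝ])
    (hF : ∀ l ∈ F, ∀ q : ℍ[ℝ], q ≠ 0 → q⁻¹ * l * q ∈ F) (h0 : (0 : ℍ[ℝ]) ∈ F)
    (hF2 : ∀ l : ℍ[ℝ], (∃ x : Fin n → ℍ[ℝ], x ≠ 0 ∧ A *ᵥ x = op l • x) → l ∉ F →
      l.re ≠ 0 ∧ -l ∈ F)
    (N : Submodule ℍ[ℝ]ᵐᵒᵖ (Fin n → ℍ[ℝ])) (hN : ∀ x ∈ N, A *ᵥ x ∈ N)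
    (hNn : ∀ x ∈ N, 0 ≤ (star x ⬝ᵥ (G *ᵥ x)).re)
    (hNF : ∀ l : ℍ[ℝ], (∃ x ∈ N, x ≠ 0 ∧ A *ᵥ x = op l • x) → l ∈ F) :
    ∃ L : Submodule ℍ[ℝ]ᵐᵒᵖ (Fin n → ℍ[ℝ]), N ≤ L ∧ (∀ x ∈ L, A *ᵥ x ∈ L) ∧
      (∀ x ∈ L, 0 ≤ (star x ⬝ᵥ (G *ᵥ x)).re) ∧
      (∀ L' : Submodule ℍ[ℝ]ᵐᵒᵖ (Fin n → ℍ[ℝ]), L ≤ L' →
        (∀ x ∈ L', 0 ≤ (star x ⬝ᵥ (G *ᵥ x)).re) → L' ≤ L) ∧
      (∀ l : ℍ[ℝ], (∃ x ∈ L, x ≠ 0 ∧ A *ᵥ x = op l • x) → l ∈ F) ∧
      ∀ l ∈ F, (∃ x : Fin n → ℍ[ℝ], x ≠ 0 ∧ A *ᵥ x = op l • x) → l.re ≠ 0 → -l ∉ F →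
        ∃ x ∈ L, x ≠ 0 ∧ A *ᵥ x = op l • x := by
  set D := mkSys A G hG hAG hker with hD
  have hρ : ∀ (q : ℍ[ℝ]) (x : Fin n → ℍ[ℝ]), D.ρ q x = op q • x := fun q x => rfl
  have hA : ∀ x : Fin n → ℍ[ℝ], D.A x = A *ᵥ x := fun x => rfl
  have hg : ∀ x : Fin n → ℍ[ℝ], D.g x x = (star x ⬝ᵥ (G *ᵥ x)).re := fun x => rfl
  obtain ⟨L, hNL, hL, hLn, hmax, hLF, hLF2⟩ := D.main F hF h0
    (fun l hl => hF2 l (by
      obtain ⟨x, -, hx0, hx⟩ := hl
      exact ⟨x, hx0, hx⟩)) (toR N)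
    ⟨fun q x hx => N.smul_mem (op q) hx, fun x hx => hN x hx⟩ (fun x hx => hNn x hx)
    (fun l hl => hNF l hl)
  let L1 : Submodule ℍ[ℝ]ᵐᵒᵖ (Fin n → ℍ[ℝ]) :=
    { carrier := L
      add_mem' := L.add_mem
      zero_mem' := L.zero_mem
      smul_mem' := fun q x hx => hL.1 q.unop x hx }
  refine ⟨L1, fun x hx => hNL hx, hL.2, hLn, fun L' hL' hn x hx => hmax (toR L') hL' hn hx, ?_, ?_⟩
  · exact hLF
  · rintro l hl ⟨x, hx0, hx⟩ hre hl'
    exact hLF2 l hl ⟨x, Submodule.mem_top, hx0, hx⟩ hre hl'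

end Pool.Agent.Q110.NeutMat
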