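import Mathlib.Analysis.Quaternion
import Mathlib.LinearAlgebra.Matrix.Hermitian
import Mathlib.LinearAlgebra.Dimension.Free
import Mathlib.LinearAlgebra.FiniteDimensional.Basic
import Mathlib.LinearAlgebra.FiniteDimensional.Lemmas

set_option autoImplicit false

open scoped Quaternion
open Matrix

namespace Pool.Agent.Q110.Quat

variable {n : ℕ}

theorem finrank_op : Module.finrank ℝ (ℍ[ℝ])ᵐᵒᵖ = 4 := by
  rw [← Quaternion.finrank_eq_four (R := ℝ)]
  exact (LinearEquiv.finrank_eq (MulOpposite.opLinearEquiv ℝ)).symm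

theorem finrank_real : Module.finrank ℝ (Fin n → ℍ[ℝ]) = 4 * n := by
  rw [Module.finrank_pi_fintype]
  simp [Quaternion.finrank_eq_four, mul_comm]

instance : Module.Finite (ℍ[ℝ])ᵐᵒᵖ (Fin n → ℍ[ℝ]) := Module.Finite.of_restrictScalars_finite ℝ _ _

theorem finrank_quat : Module.finrank (ℍ[ℝ])ᵐᵒᵖ (Fin n → ℍ[ℝ]) = n := by
  have h1 := Module.finrank_mul_finrank ℝ (ℍ[ℝ])ᵐᵒᵖ (Fin n → ℍ[ℝ])
  rw [finrank_op, finrank_real] at h1
  omega

end Pool.Agent.Q110.Quat
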