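import Pool.Agent.Q110.Net
import Mathlib.LinearAlgebra.Dual.Lemmas
import Mathlib.LinearAlgebra.FiniteDimensional.Lemmas
import Mathlib.LinearAlgebra.Matrix.Rank
import Mathlib.Data.Rat.Lemmas
import Mathlib.Data.Fintype.Option
import Mathlib.Tactic.LinearCombination
import Mathlib.Tactic.FinCases

/-!
# Systems of equations `x_i = 1`, `x_i + x_j = x_k`
-/

set_option autoImplicit false

open Matrix

namespace Pool.Agent.Q110.Tys

open Pool.Agent.Q110.Net

/-- The equations `x_i = 1` and `x_i + x_j = x_k` in the unknowns `x_0, …, x_{n-1}`. -/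
inductive Eqn (n : ℕ) : Type
  | one (i : Fin n) : Eqn n
  | add (i j k : Fin n) : Eqn n

variable {n : ℕ}

/-- The tuple `x` satisfies the equation. -/
def Eqn.Sat {K : Type*} [Add K] [One K] (x : Fin n → K) : Eqn n → Prop
  | .one i => x i = 1
  | .add i j k => x i + x j = x k

/-- The coefficients of the homogenised equation. -/
def Eqn.ext : Eqn n → Option (Fin n) → ℤ
  | .one i => Pi.single (some i) 1 - Pi.single none 1
  | .add i j k => Pi.single (some i) 1 + Pi.single (some j) 1 - Pi.single (some k) 1

def Eqn.weight : Eqn n → ℕ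
  | .one _ => 1
  | .add _ _ _ => 2

theorem Eqn.weight_le (e : Eqn n) : e.weight ≤ 2 := by
  cases e <;> simp [Eqn.weight]

theorem sat_iff {K : Type*} [Field K] (x : Fin n → K) (e : Eqn n) :
    e.Sat x ↔ (e.ext none : K) + ∑ j, (e.ext (some j) : K) * x j = 0 := by
  cases e with
  | one i =>
    simp only [Eqn.Sat, Eqn.ext, Pi.sub_apply, Int.cast_sub, sub_mul]
    rw [Finset.sum_sub_distrib]
    have h1 : ∑ j, (((Pi.single (some i) 1 : Option (Fin n) → ℤ) (some j) : ℤ) : K) * x j = x i := by
      rw [Finset.sum_eq_single i]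
      · simp
      · intro b _ hb
        simp [Pi.single_apply, hb]
      · intro h
        exact (h (Finset.mem_univ _)).elim
    rw [h1]
    simp [Pi.single_apply]
    constructor
    · intro h
      rw [h]
      ring
    · intro h
      linear_combination h
  | add i j k =>
    simp only [Eqn.Sat, Eqn.ext, Pi.sub_apply, Pi.add_apply, Int.cast_sub, Int.cast_add, sub_mul,
      add_mul]
    rw [Finset.sum_sub_distrib, Finset.sum_add_distrib]
    have h1 : ∀ i : Fin n,
        ∑ j, (((Pi.single (some i) 1 : Option (Fin n) → ℤ) (some j) : ℤ) : K) * x j = x i := by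
      intro i
      rw [Finset.sum_eq_single i]
      · simp
      · intro b _ hb
        simp [Pi.single_apply, hb]
      · intro h
        exact (h (Finset.mem_univ _)).elim
    rw [h1, h1, h1]
    simp [Pi.single_apply]
    constructor
    · intro h
      rw [h]
      ring
    · intro h
      linear_combination h

theorem isNet_single {ι : Type*} [DecidableEq ι] (a : ι) : IsNet (Pi.single a 1 : ι → ℤ) := by
  refine ⟨fun i => ?_, fun i j h1 h2 => ?_, fun i j h1 h2 => ?_⟩
  · by_cases h : i = a <;> simp [Pi.single_apply, h]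
  · have h3 : i = a := by
      by_contra h
      simp [Pi.single_apply, h] at h1
    have h4 : j = a := by
      by_contra h
      simp [Pi.single_apply, h] at h2
    rw [h3, h4]
  · exfalso
    by_cases h : i = a <;> simp [Pi.single_apply, h] at h1

theorem isNet_sub {ι : Type*} [DecidableEq ι] (a b : ι) :
    IsNet (Pi.single a 1 - Pi.single b 1 : ι → ℤ) := by
  by_cases hab : a = b
  · subst hab
    rw [sub_self]
    exact ⟨fun i => Or.inl rfl, fun i j h1 => by simp at h1, fun i j h1 => by simp at h1⟩
  refine ⟨fun i => ?_, fun i j h1 h2 => ?_, fun i j h1 h2 => ?_⟩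
  · by_cases h : i = a
    · subst h
      simp [Pi.single_apply, hab]
    · by_cases h' : i = b
      · subst h'
        simp [Pi.single_apply, h]
      · simp [Pi.single_apply, h, h']
  · have key : ∀ i, (Pi.single a 1 - Pi.single b 1 : ι → ℤ) i = 1 → i = a := by
      intro i hi
      by_contra h
      by_cases h' : i = b
      · subst h'
        simp [h] at hi
      · simp [h, h'] at hi
    rw [key i h1, key j h2]
  · have key : ∀ i, (Pi.single a 1 - Pi.single b 1 : ι → ℤ) i = -1 → i = b := by
      intro i hi
      by_contra h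
      by_cases h' : i = a
      · subst h'
        simp [h] at hi
      · simp [h, h'] at hi
    rw [key i h1, key j h2]

theorem rows (e : Eqn n) : ∃ r : Fin e.weight → Option (Fin n) → ℤ,
    (∀ t, IsNet (r t)) ∧ e.ext = ∑ t, r t := by
  cases e with
  | one i =>
    refine ⟨fun _ => (Eqn.one i).ext, fun _ => isNet_sub _ _, ?_⟩
    change _ = ∑ _t : Fin 1, (Eqn.one i).ext
    simp
  | add i j k =>
    refine ⟨![Pi.single (some i) 1 - Pi.single (some k) 1, Pi.single (some j) 1], ?_, ?_⟩
    · intro t
      change Fin 2 at t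
      fin_cases t
      · exact isNet_sub _ _
      · exact isNet_single _
    · have : (∑ t : Fin 2, (![Pi.single (some i) 1 - Pi.single (some k) 1,
        Pi.single (some j) 1] : Fin 2 → Option (Fin n) → ℤ) t) =
          Pi.single (some i) 1 - Pi.single (some k) 1 + Pi.single (some j) 1 := by
        rw [Fin.sum_univ_two]
        rfl
      refine Eq.trans ?_ this.symm
      simp only [Eqn.ext]
      abel

section minors

variable {ι : Type*} [Fintype ι] [DecidableEq ι]

theorem minor_bound (eqs : ι → Eqn n) (f : ι → Option (Fin n)) :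
    |Matrix.det (Matrix.of fun a b => (eqs a).ext (f b))| ≤ ∏ a, ((eqs a).weight : ℤ) := by
  by_cases hf : Function.Injective f
  · choose r hr1 hr2 using fun a => rows (eqs a)
    refine det_bound _ (fun a => (eqs a).weight) (fun a t => r a t ∘ f)
      (fun a t => (hr1 a t).comp hf) fun a => ?_
    funext b
    rw [Matrix.of_apply, hr2 a, Finset.sum_apply, Finset.sum_apply]
    rfl
  · rw [Function.not_injective_iff] at hf
    obtain ⟨a, b, hab, hne⟩ := hf
    rw [Matrix.det_zero_of_column_eq hne fun i => by rw [Matrix.of_apply, Matrix.of_apply, hab],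
      abs_zero]
    exact Finset.prod_nonneg fun _ _ => Int.natCast_nonneg _

theorem prod_weight_le (eqs : ι → Eqn n) (h : ∃ a i, eqs a = Eqn.one i) :
    ∏ a, ((eqs a).weight : ℤ) ≤ 2 ^ (Fintype.card ι - 1) := by
  obtain ⟨a, i, ha⟩ := h
  rw [← Finset.mul_prod_erase _ _ (Finset.mem_univ a), ha]
  have h1 : ∏ x ∈ Finset.univ.erase a, ((eqs x).weight : ℤ) ≤ ∏ x ∈ Finset.univ.erase a, (2 : ℤ) :=
    Finset.prod_le_prod (fun _ _ => Int.natCast_nonneg _)
      fun x _ => by exact_mod_cast (eqs x).weight_le
  rw [Finset.prod_const, Finset.card_erase_of_mem (Finset.mem_univ _), Finset.card_univ] at h1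
  simpa [Eqn.weight] using h1

end minors

/-- A nonsingular square subsystem determines a solution with small numerators and denominators. -/
theorem square_bound {K : Type*} [Field K] [CharZero K] (eqs : Fin n → Eqn n) (x : Fin n → K)
    (hx : ∀ a, (eqs a).Sat x)
    (hdet : Matrix.det (Matrix.of fun a b => (eqs a).ext (some b)) ≠ 0) (i : Fin n) :
    ∃ q : ℚ, x i = q ∧ |q.num| ≤ 2 ^ (n - 1) ∧ q.den ≤ 2 ^ (n - 1) := by
  set A : Matrix (Fin n) (Fin n) ℤ := Matrix.of fun a b => (eqs a).ext (some b) with hA
  set f : Fin n → Option (Fin n) := Function.update some i none with hf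
  set N : Matrix (Fin n) (Fin n) ℤ := Matrix.of fun a b => (eqs a).ext (f b) with hN
  -- Cramer's rule
  have hcr : (A.det : K) * x i = ((-N.det : ℤ) : K) := by
    have h1 : (A.map (Int.castRingHom K)) *ᵥ x = fun a => -((eqs a).ext none : K) := by
      funext a
      have h2 := (sat_iff x (eqs a)).1 (hx a)
      simp only [Matrix.mulVec, dotProduct, Matrix.map_apply, hA, Matrix.of_apply]
      change ∑ j, ((eqs a).ext (some j) : K) * x j = _
      linear_combination h2
    have h4 : Matrix.cramer (A.map (Int.castRingHom K)) ((A.map (Int.castRingHom K)) *ᵥ x) =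
        (A.map (Int.castRingHom K)).det • x := by
      rw [Matrix.cramer_eq_adjugate_mulVec, Matrix.mulVec_mulVec, Matrix.adjugate_mul,
        Matrix.smul_mulVec, Matrix.one_mulVec]
    have h5 := congrFun h4 i
    rw [h1, Matrix.cramer_apply, Pi.smul_apply, smul_eq_mul] at h5
    have h6 : (A.map (Int.castRingHom K)).det = (A.det : K) := by
      rw [← RingHom.mapMatrix_apply, ← RingHom.map_det]
      rfl
    rw [h6] at h5
    rw [← h5]
    have h7 : (A.map (Int.castRingHom K)).updateCol i (fun a => -((eqs a).ext none : K)) =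
        ((N.updateCol i fun a => -N a i).map (Int.castRingHom K)) := by
      ext a b
      by_cases hb : b = i
      · subst hb
        simp [hN, hf]
      · simp [hN, hf, hA, hb]
    rw [h7, ← RingHom.mapMatrix_apply, ← RingHom.map_det]
    have h8 : (N.updateCol i fun a => -N a i).det = -N.det := by
      have h9 := Matrix.det_updateCol_smul N i (-1) (fun a => N a i)
      have h10 : N.updateCol i (fun a => N a i) = N := by
        ext a b
        by_cases hb : b = i
        · subst hb
          simp
        · simp [hb]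
      rw [h10] at h9
      have h11 : (-1 : ℤ) • (fun a => N a i) = fun a => -N a i := by
        funext a
        simp
      rw [h11] at h9
      rw [h9]
      ring
    rw [h8]
    rfl
  have hA0 : (A.det : K) ≠ 0 := by
    exact_mod_cast hdet
  by_cases hone : ∃ a k, eqs a = Eqn.one k
  · have hw := prod_weight_le eqs hone
    rw [Fintype.card_fin] at hw
    have hb1 : |A.det| ≤ 2 ^ (n - 1) := (minor_bound eqs some).trans hw
    have hb2 : |N.det| ≤ 2 ^ (n - 1) := (minor_bound eqs f).trans hw
    refine ⟨((-N.det : ℤ) : ℚ) / (A.det : ℚ), ?_, ?_, ?_⟩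
    · rw [Rat.cast_div, Rat.cast_intCast, Rat.cast_intCast, eq_div_iff hA0, mul_comm]
      exact hcr
    · have h1 : (((-N.det : ℤ) : ℚ) / (A.det : ℚ)).num ∣ -N.det := by
        rw [← Rat.divInt_eq_div]
        exact Rat.num_dvd _ hdet
      by_cases h0 : N.det = 0
      · rw [h0]
        simp
      · refine (Int.le_of_dvd (abs_pos.2 (neg_ne_zero.2 h0)) ?_).trans (by rwa [abs_neg])
        rwa [abs_dvd_abs]
    · have h1 : ((((-N.det : ℤ) : ℚ) / (A.det : ℚ)).den : ℤ) ∣ A.det := by
        rw [← Rat.divInt_eq_div]
        exact Rat.den_dvd _ _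
      have h2 : ((((-N.det : ℤ) : ℚ) / (A.det : ℚ)).den : ℤ) ≤ |A.det| :=
        Int.le_of_dvd (abs_pos.2 hdet) ((dvd_abs _ _).2 h1)
      have h3 := h2.trans hb1
      exact_mod_cast h3
  · -- all equations are homogeneous
    refine ⟨0, ?_, by simp, ?_⟩
    · have hN0 : N.det = 0 := by
        refine Matrix.det_eq_zero_of_column_eq_zero i fun a => ?_
        have : f i = none := by simp [hf]
        rw [hN, Matrix.of_apply, this]
        cases h : eqs a with
        | one k => exact (hone ⟨a, k, h⟩).elim
        | add i j k => simp [Eqn.ext, Pi.single_apply]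
      rw [hN0, neg_zero, Int.cast_zero] at hcr
      rcases mul_eq_zero.1 hcr with h | h
      · exact (hA0 h).elim
      · rw [h, Rat.cast_zero]
    · rw [Rat.den_zero]
      exact Nat.one_le_two_pow

/-- The solution of a uniquely solvable system has small numerators and denominators. -/
theorem unique_bound {K : Type*} [Field K] [CharZero K] (S : Set (Eqn n)) (x : Fin n → K)
    (hx : ∀ e ∈ S, e.Sat x) (hu : ∀ y : Fin n → K, (∀ e ∈ S, e.Sat y) → y = x) (i : Fin n) :
    ∃ q : ℚ, x i = q ∧ |q.num| ≤ 2 ^ (n - 1) ∧ q.den ≤ 2 ^ (n - 1) := by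
  classical
  let v : Eqn n → Fin n → ℚ := fun e j => (e.ext (some j) : ℚ)
  -- the rows span
  have hspan : Submodule.span ℚ (v '' S) = ⊤ := by
    by_contra h
    obtain ⟨g, hg0, hg⟩ := Submodule.exists_le_ker_of_lt_top _ (lt_top_iff_ne_top.2 h)
    let z : Fin n → ℚ := fun j => g (Pi.single j 1)
    have hgz : ∀ w : Fin n → ℚ, g w = ∑ j, w j * z j := by
      intro w
      conv_lhs => rw [← Finset.univ_sum_single w]
      rw [map_sum]
      refine Finset.sum_congr rfl fun j _ => ?_
      have : (Pi.single j (w j) : Fin n → ℚ) = w j • Pi.single j 1 := by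
        rw [← Pi.single_smul, smul_eq_mul, mul_one]
      rw [this, map_smul, smul_eq_mul]
    have hz : ∃ j, z j ≠ 0 := by
      by_contra hz
      push Not at hz
      apply hg0
      apply LinearMap.ext
      intro w
      rw [hgz w]
      simp [hz]
    obtain ⟨j, hj⟩ := hz
    have h2 := hu (fun k => x k + (z k : K)) (by
      intro e he
      rw [sat_iff]
      have h3 := (sat_iff x e).1 (hx e he)
      have h4 : g (v e) = 0 := hg (Submodule.subset_span ⟨e, he, rfl⟩)
      rw [hgz] at h4
      have h5 : ∑ j, (e.ext (some j) : K) * (z j : K) = 0 := by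
        have := congrArg (fun r : ℚ => (r : K)) h4
        simpa [v] using this
      simp only [mul_add]
      rw [Finset.sum_add_distrib, h5, add_zero]
      exact h3)
    have h3 := congrFun h2 j
    simp only [add_eq_left] at h3
    exact hj (by exact_mod_cast h3)
  obtain ⟨b, hbS, hbspan, hbli⟩ := exists_linearIndependent ℚ (v '' S)
  have hbfin : b.Finite := hbli.setFinite
  have : Fintype b := hbfin.fintype
  have hcard : Fintype.card b = n := by
    have h1 := finrank_span_set_eq_card hbli
    rw [hbspan, hspan, finrank_top, Module.finrank_fintype_fun_eq_card, Fintype.card_fin,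
      Set.toFinset_card] at h1
    exact h1.symm
  let e : Fin n ≃ b := (Fintype.equivFinOfCardEq hcard).symm
  have hch : ∀ a : Fin n, ∃ q ∈ S, v q = (e a : Fin n → ℚ) := fun a => hbS (e a).2
  choose eqs heqS heq using hch
  refine square_bound eqs x (fun a => hx _ (heqS a)) ?_ i
  intro hdet
  have hli : LinearIndependent ℚ (fun a => v (eqs a)) := by
    have : (fun a => v (eqs a)) = (fun w : b => (w : Fin n → ℚ)) ∘ e := by
      funext a
      exact heq a
    rw [this]
    exact hbli.comp _ e.injective
  have h1 : IsUnit (Matrix.of fun a b => ((eqs a).ext (some b) : ℚ)) := by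
    rw [← Matrix.linearIndependent_rows_iff_isUnit]
    exact hli
  rw [Matrix.isUnit_iff_isUnit_det] at h1
  apply h1.ne_zero
  have h2 : (Matrix.of fun a b => ((eqs a).ext (some b) : ℚ)) =
      (Int.castRingHom ℚ).mapMatrix (Matrix.of fun a b => (eqs a).ext (some b)) := by
    ext a b
    rfl
  rw [h2, ← RingHom.map_det, hdet, map_zero]

end Pool.Agent.Q110.Tys
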