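import Mathlib.LinearAlgebra.Eigenspace.Basic
import Mathlib.LinearAlgebra.Eigenspace.Triangularizable
import Mathlib.LinearAlgebra.Eigenspace.Minpoly
import Mathlib.Analysis.Complex.Polynomial.Basic
import Mathlib.Analysis.Complex.Norm
import Mathlib.LinearAlgebra.Matrix.ToLin
import Mathlib.Tactic.LinearCombination
import Mathlib.Tactic.FieldSimp
import Mathlib.Tactic.Module

/-!
# Finite dimensional modules for the equitable presentation, `q = 2`
-/

set_option autoImplicit false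

open Module.End

namespace Pool.Agent.Q110.Uq

variable {V : Type*} [AddCommGroup V] [Module ℂ V]

/-- Data for a module, `q = 2`. -/
structure Sys (V : Type*) [AddCommGroup V] [Module ℂ V] where
  X : V →ₗ[ℂ] V
  Y : V →ₗ[ℂ] V
  Z : V →ₗ[ℂ] V
  xinj : ∀ v, X v = 0 → v = 0
  hXY : ∀ v, (4 : ℂ) • X (Y v) - Y (X v) = (3 : ℂ) • v
  hYZ : ∀ v, (4 : ℂ) • Y (Z v) - Z (Y v) = (3 : ℂ) • v
  hZX : ∀ v, (4 : ℂ) • Z (X v) - X (Z v) = (3 : ℂ) • v

namespace Sys

variable (S : Sys V)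

theorem YX (v : V) : S.Y (S.X v) = (4 : ℂ) • S.X (S.Y v) - (3 : ℂ) • v := by
  rw [← S.hXY v]
  abel

/-- `Y` is injective. -/
theorem yinj [FiniteDimensional ℂ V] (v : V) (hv : S.Y v = 0) : v = 0 := by
  by_contra hv0
  -- the operator `n = X Y - 1`
  set n : V →ₗ[ℂ] V := S.X * S.Y - 1 with hn
  have hnX : ∀ w, n (S.X w) = (4 : ℂ) • S.X (n w) := by
    intro w
    simp only [hn, LinearMap.sub_apply, Module.End.mul_apply, Module.End.one_apply, S.YX, map_sub,
      map_smul]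
    module
  have hpow : ∀ k : ℕ, HasEigenvalue n (-(4 : ℂ) ^ k) := by
    have : ∀ k : ℕ, ∃ w, w ≠ 0 ∧ n w = (-(4 : ℂ) ^ k) • w := by
      intro k
      induction k with
      | zero =>
        refine ⟨v, hv0, ?_⟩
        simp [hn, hv]
      | succ k ih =>
        obtain ⟨w, hw, hw2⟩ := ih
        refine ⟨S.X w, fun h => hw (S.xinj w h), ?_⟩
        rw [hnX, hw2, map_smul, smul_smul]
        congr 1
        ring
    intro k
    obtain ⟨w, hw, hw2⟩ := this k
    exact hasEigenvalue_of_hasEigenvector ⟨mem_eigenspace_iff.2 hw2, hw⟩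
  have hfin : Set.Finite {μ : ℂ | HasEigenvalue n μ} := finite_hasEigenvalue n
  have hinj : Function.Injective (fun k : ℕ => (-(4 : ℂ) ^ k)) := by
    intro a b hab
    simp only [neg_inj] at hab
    have h1 : ((4 ^ a : ℕ) : ℂ) = ((4 ^ b : ℕ) : ℂ) := by
      push_cast
      exact hab
    exact Nat.pow_right_injective (by norm_num) (Nat.cast_injective h1)
  exact Set.infinite_range_of_injective hinj (hfin.subset (by
    rintro _ ⟨k, rfl⟩
    exact hpow k))

/-- A highest weight vector. -/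
theorem exists_top [FiniteDimensional ℂ V] [Nontrivial V] :
    ∃ (l : ℂ) (v : V), l ≠ 0 ∧ v ≠ 0 ∧ S.Y v = l • v ∧ S.X v = l⁻¹ • v := by
  have hfin : Set.Finite {μ : ℂ | HasEigenvalue S.Y μ} := finite_hasEigenvalue S.Y
  obtain ⟨μ, hμ⟩ := exists_eigenvalue S.Y
  obtain ⟨l, hl, hmax⟩ := Set.exists_max_image _ (fun z : ℂ => ‖z‖) hfin ⟨μ, hμ⟩
  obtain ⟨v, hv⟩ := HasEigenvalue.exists_hasEigenvector hl
  have hv1 : S.Y v = l • v := hv.apply_eq_smul
  have hv0 : v ≠ 0 := hv.2
  have hl0 : l ≠ 0 := by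
    rintro rfl
    rw [zero_smul] at hv1
    exact hv0 (S.yinj v hv1)
  refine ⟨l, v, hl0, hv0, hv1, ?_⟩
  by_contra hne
  set w := S.X v - l⁻¹ • v with hw
  have hw0 : w ≠ 0 := fun h => hne (sub_eq_zero.1 h)
  have hYw : S.Y w = (4 * l) • w := by
    rw [hw, map_sub, map_smul, S.YX, hv1, map_smul, smul_sub, smul_smul, smul_smul, smul_smul]
    have h1 : l⁻¹ * l = 1 := inv_mul_cancel₀ hl0
    have h2 : 4 * l * l⁻¹ = 4 := by field_simp
    rw [h1, h2]
    module
  have h1 : HasEigenvalue S.Y (4 * l) :=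
    hasEigenvalue_of_hasEigenvector ⟨mem_eigenspace_iff.2 hYw, hw0⟩
  have h2 := hmax _ h1
  simp only [norm_mul] at h2
  have h3 : 0 < ‖l‖ := norm_pos_iff.2 hl0
  have h4 : ‖(4 : ℂ)‖ = 4 := by simp
  rw [h4] at h2
  linarith

/-- The weights. -/
noncomputable def wt (l : ℂ) (k : ℕ) : ℂ := l / 4 ^ k

/-- The structure constants. -/
noncomputable def cst (l : ℂ) : ℕ → ℂ
  | 0 => 0
  | k + 1 => 3 / (wt l k) ^ 2 + 4 * cst l k - 3

/-- The chain of weight vectors. -/
noncomputable def chain (l : ℂ) (v : V) : ℕ → V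
  | 0 => v
  | k + 1 => S.Z (chain l v k) - (wt l k)⁻¹ • chain l v k

theorem wt_succ (l : ℂ) (k : ℕ) : wt l (k + 1) = wt l k / 4 := by
  rw [wt, wt, pow_succ, div_div]

theorem wt_ne (l : ℂ) (hl : l ≠ 0) (k : ℕ) : wt l k ≠ 0 :=
  div_ne_zero hl (pow_ne_zero _ (by norm_num))

theorem chain_succ (l : ℂ) (v : V) (k : ℕ) :
    S.Z (S.chain l v k) = S.chain l v (k + 1) + (wt l k)⁻¹ • S.chain l v k := by
  rw [chain]
  abel

theorem chain_Y (l : ℂ) (hl : l ≠ 0) (v : V) (hv : S.Y v = l • v) (k : ℕ) :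
    S.Y (S.chain l v k) = wt l k • S.chain l v k := by
  induction k with
  | zero => simp [chain, wt, hv]
  | succ k ih =>
    have hk := wt_ne l hl k
    have h1 : S.Y (S.Z (S.chain l v k)) = (4 : ℂ)⁻¹ • ((3 : ℂ) • S.chain l v k +
        S.Z (S.Y (S.chain l v k))) := by
      rw [← S.hYZ, sub_add_cancel, smul_smul]
      norm_num
    rw [chain, map_sub, map_smul, ih, h1, ih, map_smul, wt_succ, smul_sub, smul_smul, smul_smul,
      smul_add, smul_smul, smul_smul]
    have h2 : (wt l k)⁻¹ * wt l k = 1 := inv_mul_cancel₀ hk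
    have h3 : wt l k / 4 * (wt l k)⁻¹ = 4⁻¹ := by field_simp
    rw [h2, h3]
    module

theorem chain_X (l : ℂ) (hl : l ≠ 0) (v : V) (hv2 : S.X v = l⁻¹ • v)
    (k : ℕ) : S.X (S.chain l v (k + 1)) =
      (wt l (k + 1))⁻¹ • S.chain l v (k + 1) + cst l (k + 1) • S.chain l v k := by
  have hXZ : ∀ w, S.X (S.Z w) = (4 : ℂ) • S.Z (S.X w) - (3 : ℂ) • w := by
    intro w
    rw [← S.hZX w]
    abel
  induction k with
  | zero =>
    have h0 : S.chain l v 0 = v := rfl
    have hw0 : wt l 0 = l := by simp [wt]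
    have h5 : S.chain l v (0 + 1) = S.Z v - (wt l 0)⁻¹ • v := rfl
    rw [h5, map_sub, map_smul, hXZ, h0, hv2, map_smul, hw0]
    have h1 : cst l (0 + 1) = 3 / l ^ 2 - 3 := by
      rw [cst, cst, hw0]
      ring
    have h2 : S.Z v = (S.Z v - l⁻¹ • v) + l⁻¹ • v := by abel
    have h3 : (wt l (0 + 1))⁻¹ = 4 * l⁻¹ := by
      rw [wt_succ, hw0]
      field_simp
    rw [h1, h3]
    set u := S.Z v - l⁻¹ • v with hu
    rw [h2]
    have h4 : (3 / l ^ 2 - 3 : ℂ) = 3 * (l⁻¹ * l⁻¹) - 3 := by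
      field_simp
    rw [h4]
    module
  | succ k ih =>
    set a := S.chain l v (k + 1) with ha
    set b := S.chain l v k with hb
    have hk := wt_ne l hl (k + 1)
    have hZa : S.Z a = S.chain l v (k + 2) + (wt l (k + 1))⁻¹ • a := S.chain_succ l v (k + 1)
    have hZb : S.Z b = a + (wt l k)⁻¹ • b := S.chain_succ l v k
    have h0 : S.chain l v (k + 1 + 1) = S.Z a - (wt l (k + 1))⁻¹ • a := rfl
    have h1 : S.X (S.chain l v (k + 1 + 1)) =
        (4 : ℂ) • S.Z (S.X a) - (3 : ℂ) • a - (wt l (k + 1))⁻¹ • S.X a := by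
      rw [h0, map_sub, map_smul, hXZ]
    have h2 : (wt l k)⁻¹ = 4⁻¹ * (wt l (k + 1))⁻¹ := by
      rw [wt_succ]
      field_simp
    have h3 : (wt l (k + 1 + 1))⁻¹ = 4 * (wt l (k + 1))⁻¹ := by
      rw [wt_succ l (k + 1)]
      field_simp
    have h4 : cst l (k + 1 + 1) = 3 * ((wt l (k + 1))⁻¹ * (wt l (k + 1))⁻¹) +
        4 * cst l (k + 1) - 3 := by
      rw [cst]
      field_simp
    rw [h1, ih, map_add, map_smul, map_smul, hZa, hZb, h2, h3, h4]
    module

/-- The span of the chain is invariant under `X`, `Y`, `Z`. -/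
theorem chain_inv (l : ℂ) (hl : l ≠ 0) (v : V) (hv : S.Y v = l • v) (hv2 : S.X v = l⁻¹ • v)
    (w : V) (hw : w ∈ Submodule.span ℂ (Set.range (S.chain l v))) :
    S.X w ∈ Submodule.span ℂ (Set.range (S.chain l v)) ∧
      S.Y w ∈ Submodule.span ℂ (Set.range (S.chain l v)) ∧
      S.Z w ∈ Submodule.span ℂ (Set.range (S.chain l v)) := by
  set W := Submodule.span ℂ (Set.range (S.chain l v)) with hW
  have hmem : ∀ k, S.chain l v k ∈ W := fun k => Submodule.subset_span ⟨k, rfl⟩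
  induction hw using Submodule.span_induction with
  | mem w hw =>
    obtain ⟨k, rfl⟩ := hw
    refine ⟨?_, ?_, ?_⟩
    · cases k with
      | zero =>
        have : S.X (S.chain l v 0) = l⁻¹ • S.chain l v 0 := hv2
        rw [this]
        exact W.smul_mem _ (hmem 0)
      | succ k =>
        rw [S.chain_X l hl v hv2 k]
        exact W.add_mem (W.smul_mem _ (hmem _)) (W.smul_mem _ (hmem _))
    · rw [S.chain_Y l hl v hv k]
      exact W.smul_mem _ (hmem _)
    · rw [S.chain_succ l v k]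
      exact W.add_mem (hmem _) (W.smul_mem _ (hmem _))
  | zero => simp
  | add a b _ _ ha hb =>
    exact ⟨by rw [map_add]; exact W.add_mem ha.1 hb.1,
      by rw [map_add]; exact W.add_mem ha.2.1 hb.2.1,
      by rw [map_add]; exact W.add_mem ha.2.2 hb.2.2⟩
  | smul c a _ ha =>
    exact ⟨by rw [map_smul]; exact W.smul_mem c ha.1,
      by rw [map_smul]; exact W.smul_mem c ha.2.1,
      by rw [map_smul]; exact W.smul_mem c ha.2.2⟩

theorem chain_zero_of_le (l : ℂ) (v : V) {k : ℕ} (hk : S.chain l v k = 0) (j : ℕ) (hj : k ≤ j) :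
    S.chain l v j = 0 := by
  induction j, hj using Nat.le_induction with
  | base => exact hk
  | succ j _ ih =>
    rw [chain, ih, map_zero, smul_zero, sub_zero]

theorem wt_injective (l : ℂ) (hl : l ≠ 0) : Function.Injective (wt l) := by
  intro a b hab
  simp only [wt] at hab
  have h1 : (4 : ℂ) ^ a = 4 ^ b := by
    rw [div_eq_div_iff (pow_ne_zero _ (by norm_num)) (pow_ne_zero _ (by norm_num))] at hab
    exact (mul_left_cancel₀ hl hab).symm
  have h2 : ((4 ^ a : ℕ) : ℂ) = ((4 ^ b : ℕ) : ℂ) := by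
    push_cast
    exact h1
  exact Nat.pow_right_injective (by norm_num) (Nat.cast_injective h2)

theorem chain_finrank [FiniteDimensional ℂ V] (l : ℂ) (hl : l ≠ 0) (v : V) (hv : S.Y v = l • v) :
    S.chain l v (Module.finrank ℂ V) = 0 := by
  by_contra hne
  have hne' : ∀ k : Fin (Module.finrank ℂ V + 1), S.chain l v k ≠ 0 := by
    intro k hk
    exact hne (S.chain_zero_of_le l v hk _ (by omega))
  have hli := eigenvectors_linearIndependent' S.Y
    (fun k : Fin (Module.finrank ℂ V + 1) => wt l k)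
    (fun a b hab => Fin.ext (wt_injective l hl hab)) (fun k => S.chain l v k)
    (fun k => ⟨mem_eigenspace_iff.2 (S.chain_Y l hl v hv k), hne' k⟩)
  have := hli.fintype_card_le_finrank
  rw [Fintype.card_fin] at this
  omega

end Sys

/-- The Leonard pair structure of `A` and `B`. -/
theorem main {n : ℕ} [FiniteDimensional ℂ V] (S : Sys V) (hn : Module.finrank ℂ V = n + 1)
    (A B : V →ₗ[ℂ] V) (a b c d a' b' c' d' : ℂ)
    (hA : ∀ v, A v = a • v + b • S.X v + c • S.Y v + d • S.X (S.Y v))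
    (hB : ∀ v, B v = a' • v + b' • S.Y v + c' • S.Z v + d' • S.Y (S.Z v))
    (hirr : ∀ W : Submodule ℂ V, (∀ w ∈ W, A w ∈ W) → (∀ w ∈ W, B w ∈ W) → W = ⊥ ∨ W = ⊤) :
    ∃ (l : ℂ) (v : ℕ → V), l ≠ 0 ∧ Sys.cst l (n + 1) = 0 ∧ v (n + 1) = 0 ∧
      (⊤ ≤ Submodule.span ℂ (Set.range fun k : Fin (n + 1) => v k)) ∧
      (A (v 0) = (a + b * (Sys.wt l 0)⁻¹ + c * Sys.wt l 0 + d) • v 0) ∧
      (∀ k, A (v (k + 1)) = (a + b * (Sys.wt l (k + 1))⁻¹ + c * Sys.wt l (k + 1) + d) • v (k + 1) +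
        ((b + d * Sys.wt l (k + 1)) * Sys.cst l (k + 1)) • v k) ∧
      ∀ k, B (v k) = (a' + b' * Sys.wt l k + c' * (Sys.wt l k)⁻¹ + d') • v k +
        (c' + d' * Sys.wt l (k + 1)) • v (k + 1) := by
  have : Nontrivial V := Module.nontrivial_of_finrank_pos (R := ℂ) (by omega)
  obtain ⟨l, v, hl, hv0, hv, hv2⟩ := S.exists_top
  have hinv := S.chain_inv l hl v hv hv2
  set W := Submodule.span ℂ (Set.range (S.chain l v)) with hW
  have htop : W = ⊤ := by
    refine (hirr W (fun w hw => ?_) (fun w hw => ?_)).resolve_left fun h => ?_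
    · obtain ⟨h1, h2, h3⟩ := hinv w hw
      rw [hA]
      exact W.add_mem (W.add_mem (W.add_mem (W.smul_mem _ hw) (W.smul_mem _ h1))
        (W.smul_mem _ h2)) (W.smul_mem _ (hinv _ h2).1)
    · obtain ⟨h1, h2, h3⟩ := hinv w hw
      rw [hB]
      exact W.add_mem (W.add_mem (W.add_mem (W.smul_mem _ hw) (W.smul_mem _ h2))
        (W.smul_mem _ h3)) (W.smul_mem _ (hinv _ h3).2.1)
    · have h1 : v ∈ W := Submodule.subset_span ⟨0, rfl⟩
      rw [h, Submodule.mem_bot] at h1
      exact hv0 h1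
  have hz : S.chain l v (n + 1) = 0 := hn ▸ S.chain_finrank l hl v hv
  have hspan : ⊤ ≤ Submodule.span ℂ (Set.range fun k : Fin (n + 1) => S.chain l v k) := by
    rw [← htop, hW, Submodule.span_le]
    rintro _ ⟨k, rfl⟩
    by_cases hk : k < n + 1
    · exact Submodule.subset_span ⟨⟨k, hk⟩, rfl⟩
    · have : S.chain l v k = 0 := S.chain_zero_of_le l v hz k (by omega)
      rw [this]
      exact Submodule.zero_mem _
  have hlast : S.chain l v n ≠ 0 := by
    intro h
    have h1 : ⊤ ≤ Submodule.span ℂ (Set.range fun k : Fin n => S.chain l v k) := by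
      rw [← htop, hW, Submodule.span_le]
      rintro _ ⟨k, rfl⟩
      by_cases hk : k < n
      · exact Submodule.subset_span ⟨⟨k, hk⟩, rfl⟩
      · have : S.chain l v k = 0 := S.chain_zero_of_le l v h k (by omega)
        rw [this]
        exact Submodule.zero_mem _
    have h2 := finrank_range_le_card (R := ℂ) (fun k : Fin n => S.chain l v k)
    rw [Set.finrank, top_le_iff.1 h1, finrank_top, Fintype.card_fin] at h2
    omega
  have hc : Sys.cst l (n + 1) = 0 := by
    have h1 := S.chain_X l hl v hv2 n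
    rw [hz, map_zero, smul_zero, zero_add] at h1
    exact (smul_eq_zero.1 h1.symm).resolve_right hlast
  refine ⟨l, S.chain l v, hl, hc, hz, hspan, ?_, fun k => ?_, fun k => ?_⟩
  · have h0 : S.chain l v 0 = v := rfl
    have hw0 : Sys.wt l 0 = l := by simp [Sys.wt]
    rw [h0, hA, hv, map_smul, hv2, hw0]
    have h1 : l * l⁻¹ = 1 := mul_inv_cancel₀ hl
    rw [smul_smul l l⁻¹, h1]
    module
  · have h1 := S.chain_Y l hl v hv (k + 1)
    have h2 := S.chain_X l hl v hv2 k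
    rw [hA, h1, map_smul, h2]
    have h3 : Sys.wt l (k + 1) * (Sys.wt l (k + 1))⁻¹ = 1 := mul_inv_cancel₀ (Sys.wt_ne l hl _)
    rw [smul_add (Sys.wt l (k + 1)), smul_smul (Sys.wt l (k + 1)) (Sys.wt l (k + 1))⁻¹, h3]
    module
  · have h1 := S.chain_Y l hl v hv k
    have h1' := S.chain_Y l hl v hv (k + 1)
    have h2 := S.chain_succ l v k
    rw [hB, h1, h2, map_add, map_smul, h1, h1']
    have h3 : (Sys.wt l k)⁻¹ * Sys.wt l k = 1 := inv_mul_cancel₀ (Sys.wt_ne l hl _)
    rw [smul_smul (Sys.wt l k)⁻¹ (Sys.wt l k), h3]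
    module

end Pool.Agent.Q110.Uq
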