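import Pool.Agent.Q110.Uq
import Mathlib.LinearAlgebra.Matrix.ToLinearEquiv
import Mathlib.LinearAlgebra.Matrix.NonsingularInverse
import Mathlib.LinearAlgebra.Matrix.Trace
import Mathlib.Tactic.FinCases
import Mathlib.Tactic.NormNum

/-!
# A concrete pair of diameter three and `q = 2`
-/

set_option autoImplicit false

open Matrix

namespace Pool.Agent.Q110.UqPair

open Pool.Agent.Q110.Uq

/-- Solution of the eigenvalue equations. -/
theorem perm4 (x0 x1 x2 x3 : ℂ)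
    (h1 : (21 - x0) * (21 - x1) * (21 - x2) * (21 - x3) = 0)
    (h2 : (-21 - x0) * (-21 - x1) * (-21 - x2) * (-21 - x3) = 0)
    (h3 : (4 - x0) * (4 - x1) * (4 - x2) * (4 - x3) = 0)
    (h4 : (-4 - x0) * (-4 - x1) * (-4 - x2) * (-4 - x3) = 0)
    (hr : 4 * (x0 - x3) = 21 * (x1 - x2)) :
    ∃ s : ℂ, s * s = 1 ∧ x0 = 21 * s ∧ x1 = 4 * s ∧ x2 = -4 * s ∧ x3 = -21 * s := by
  have he1 : x0 + x1 + x2 + x3 = 0 := by
    linear_combination (-1 / 42 / 425) * (h1 - h2) + (1 / 8 / 425) * (h3 - h4)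
  have he2 : x0 * x1 + x0 * x2 + x0 * x3 + x1 * x2 + x1 * x3 + x2 * x3 = -457 := by
    linear_combination (1 / 850) * (h1 + h2) - (1 / 850) * (h3 + h4)
  have he3 : x0 * x1 * x2 + x0 * x1 * x3 + x0 * x2 * x3 + x1 * x2 * x3 = 0 := by
    linear_combination (-1 / 8) * (h3 - h4) - 16 * he1
  have he4 : x0 * x1 * x2 * x3 = 7056 := by
    linear_combination (1 / 2) * (h3 + h4) - 16 * he2
  set w := x1 - x2 with hw
  set p := x0 + x3 with hp
  have hu : x0 - x3 = 21 / 4 * w := by linear_combination (1 / 4) * hr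
  have hx0 : x0 = (p + 21 / 4 * w) / 2 := by rw [← hu, hp]; ring
  have hx3 : x3 = (p - 21 / 4 * w) / 2 := by rw [← hu, hp]; ring
  have hx12 : x1 + x2 = -p := by linear_combination he1
  have hx1 : x1 = (-p + w) / 2 := by rw [← hx12, hw]; ring
  have hx2 : x2 = (-p - w) / 2 := by rw [← hx12, hw]; ring
  have h5 : p * w ^ 2 = 0 := by
    rw [hx0, hx1, hx2, hx3] at he3
    linear_combination (64 / 425) * he3
  have h6 : 2 * p ^ 2 + 457 / 16 * w ^ 2 = 1828 := by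
    rw [hx0, hx1, hx2, hx3] at he2
    linear_combination (-4) * he2
  have hp0 : p = 0 := by
    rcases mul_eq_zero.1 h5 with h | h
    · exact h
    · exfalso
      have hw0 : w = 0 := by simpa using h
      rw [hw0] at h6
      rw [hx0, hx1, hx2, hx3, hw0] at he4
      have h7 : p ^ 2 = 914 := by linear_combination (1 / 2) * h6
      have h8 : p ^ 4 = 112896 := by linear_combination 16 * he4
      have h9 : p ^ 4 = 914 ^ 2 := by
        have : p ^ 4 = (p ^ 2) ^ 2 := by ring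
        rw [this, h7]
      rw [h9] at h8
      norm_num at h8
  rw [hp0] at h6 hx0 hx1 hx2 hx3
  refine ⟨w / 8, ?_, ?_, ?_, ?_, ?_⟩
  · linear_combination (16 / 457 / 64) * h6
  · rw [hx0]; ring
  · rw [hx1]; ring
  · rw [hx2]; ring
  · rw [hx3]; ring

/-- The matrices over a field. -/
def mA (K : Type*) [Field K] : Matrix (Fin 4) (Fin 4) K :=
  !![21, 0, 0, 0; 0, 4, 0, 0; 0, 0, -4, 0; 0, 0, 0, -21]

def mB (K : Type*) [Field K] : Matrix (Fin 4) (Fin 4) K :=
  !![0, 4, 0, 0; 21, 0, 17, 0; 0, 17, 0, 21; 0, 0, 4, 0]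

/-- Irreducibility. -/
theorem irr (W : Submodule ℂ (Fin 4 → ℂ)) (hA : ∀ w ∈ W, mA ℂ *ᵥ w ∈ W)
    (hB : ∀ w ∈ W, mB ℂ *ᵥ w ∈ W) : W = ⊥ ∨ W = ⊤ := by
  have aA : ∀ w, mA ℂ *ᵥ w = ![21 * w 0, 4 * w 1, -4 * w 2, -21 * w 3] := by
    intro w
    ext i
    fin_cases i <;> simp [mA, Matrix.mulVec, dotProduct, Fin.sum_univ_four]
  have aB : ∀ w, mB ℂ *ᵥ w = ![4 * w 1, 21 * w 0 + 17 * w 2, 17 * w 1 + 21 * w 3, 4 * w 2] := by
    intro w
    ext i
    fin_cases i <;> simp [mB, Matrix.mulVec, dotProduct, Fin.sum_univ_four]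
  simp only [aA] at hA
  simp only [aB] at hB
  have proj : ∀ w ∈ W, ∀ e1 e2 e3 : ℂ,
      ![(21 - e1) * (21 - e2) * (21 - e3) * w 0, (4 - e1) * (4 - e2) * (4 - e3) * w 1,
        (-4 - e1) * (-4 - e2) * (-4 - e3) * w 2, (-21 - e1) * (-21 - e2) * (-21 - e3) * w 3] ∈ W := by
    intro w hw e1 e2 e3
    have step : ∀ e : ℂ, ∀ u ∈ W,
        ![(21 - e) * u 0, (4 - e) * u 1, (-4 - e) * u 2, (-21 - e) * u 3] ∈ W := by
      intro e u hu
      have h := W.sub_mem (hA u hu) (W.smul_mem e hu)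
      convert h using 1
      ext i
      fin_cases i <;> simp [Matrix.vecHead, Matrix.vecTail] <;> ring
    have h := step e1 _ (step e2 _ (step e3 w hw))
    convert h using 1
    ext i
    fin_cases i <;> simp <;> ring
  have e0 : ∀ w ∈ W, ![w 0, 0, 0, 0] ∈ W := by
    intro w hw
    have h := W.smul_mem (1 / 17850 : ℂ) (proj w hw 4 (-4) (-21))
    convert h using 1
    ext i
    fin_cases i <;> simp <;> ring
  have e1 : ∀ w ∈ W, ![0, w 1, 0, 0] ∈ W := by
    intro w hw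
    have h := W.smul_mem (-1 / 3400 : ℂ) (proj w hw 21 (-4) (-21))
    convert h using 1
    ext i
    fin_cases i <;> simp <;> ring
  have e2 : ∀ w ∈ W, ![0, 0, w 2, 0] ∈ W := by
    intro w hw
    have h := W.smul_mem (1 / 3400 : ℂ) (proj w hw 21 4 (-21))
    convert h using 1
    ext i
    fin_cases i <;> simp <;> ring
  have e3 : ∀ w ∈ W, ![0, 0, 0, w 3] ∈ W := by
    intro w hw
    have h := W.smul_mem (-1 / 17850 : ℂ) (proj w hw 21 4 (-4))
    convert h using 1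
    ext i
    fin_cases i <;> simp <;> ring
  by_cases hW : W = ⊥
  · exact Or.inl hW
  right
  obtain ⟨w, hw, hw0⟩ := Submodule.exists_mem_ne_zero_of_ne_bot hW
  have s01 : ∀ a : ℂ, ![a, 0, 0, 0] ∈ W → ![0, a, 0, 0] ∈ W := by
    intro a h
    have h1 := W.smul_mem (1 / 21 : ℂ) (e1 _ (hB _ h))
    convert h1 using 1
    ext i
    fin_cases i <;> simp
  have s10 : ∀ a : ℂ, ![0, a, 0, 0] ∈ W → ![a, 0, 0, 0] ∈ W := by
    intro a h
    have h1 := W.smul_mem (1 / 4 : ℂ) (e0 _ (hB _ h))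
    convert h1 using 1
    ext i
    fin_cases i <;> simp
  have s12 : ∀ a : ℂ, ![0, a, 0, 0] ∈ W → ![0, 0, a, 0] ∈ W := by
    intro a h
    have h1 := W.smul_mem (1 / 17 : ℂ) (e2 _ (hB _ h))
    convert h1 using 1
    ext i
    fin_cases i <;> simp
  have s21 : ∀ a : ℂ, ![0, 0, a, 0] ∈ W → ![0, a, 0, 0] ∈ W := by
    intro a h
    have h1 := W.smul_mem (1 / 17 : ℂ) (e1 _ (hB _ h))
    convert h1 using 1
    ext i
    fin_cases i <;> simp
  have s23 : ∀ a : ℂ, ![0, 0, a, 0] ∈ W → ![0, 0, 0, a] ∈ W := by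
    intro a h
    have h1 := W.smul_mem (1 / 4 : ℂ) (e3 _ (hB _ h))
    convert h1 using 1
    ext i
    fin_cases i <;> simp
  have s32 : ∀ a : ℂ, ![0, 0, 0, a] ∈ W → ![0, 0, a, 0] ∈ W := by
    intro a h
    have h1 := W.smul_mem (1 / 21 : ℂ) (e2 _ (hB _ h))
    convert h1 using 1
    ext i
    fin_cases i <;> simp
  have hone : ∃ a : ℂ, a ≠ 0 ∧ ![0, a, 0, 0] ∈ W := by
    by_cases c0 : w 0 = 0
    · by_cases c1 : w 1 = 0
      · by_cases c2 : w 2 = 0
        · by_cases c3 : w 3 = 0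
          · exfalso
            apply hw0
            ext i
            fin_cases i
            · exact c0
            · exact c1
            · exact c2
            · exact c3
          · exact ⟨_, c3, s21 _ (s32 _ (e3 w hw))⟩
        · exact ⟨_, c2, s21 _ (e2 w hw)⟩
      · exact ⟨_, c1, e1 w hw⟩
    · exact ⟨_, c0, s01 _ (e0 w hw)⟩
  obtain ⟨a, ha, haW⟩ := hone
  rw [eq_top_iff]
  intro v _
  have g := W.add_mem (W.add_mem (W.add_mem (W.smul_mem (v 0 / a) (s10 a haW))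
    (W.smul_mem (v 1 / a) haW)) (W.smul_mem (v 2 / a) (s12 a haW)))
    (W.smul_mem (v 3 / a) (s23 a (s12 a haW)))
  convert g using 1
  ext i
  fin_cases i <;> simp <;> field_simp

/-- **The key computation.** -/
theorem key (S : Sys (Fin 4 → ℂ)) (a b c d a' b' c' d' : ℂ)
    (hA : ∀ v, mA ℂ *ᵥ v = a • v + b • S.X v + c • S.Y v + d • S.X (S.Y v))
    (hB : ∀ v, mB ℂ *ᵥ v = a' • v + b' • S.Y v + c' • S.Z v + d' • S.Y (S.Z v)) :
    d ^ 2 = -256 / 9 := by
  obtain ⟨l, v, hl, hc, hv4, hspan, hA0, hA', hB'⟩ := main (n := 3) S (by simp)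
    (Matrix.toLin' (mA ℂ)) (Matrix.toLin' (mB ℂ)) a b c d a' b' c' d' hA hB irr
  have hl2 : l ^ 2 = 64 := by
    simp only [Sys.cst, Sys.wt] at hc
    field_simp at hc
    have hl4 : l ^ 2 ≠ 0 := pow_ne_zero _ hl
    have h1 : (l ^ 2 - 64) = 0 := by
      ring_nf at hc
      linear_combination (-1 / 255) * hc
    linear_combination h1
  have hl0 : l ≠ 0 := hl
  have hinv : l⁻¹ = l / 64 := by
    field_simp
    exact hl2.symm
  have w0 : Sys.wt l 0 = l := by simp [Sys.wt]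
  have w1 : Sys.wt l 1 = l / 4 := by simp [Sys.wt]
  have w2 : Sys.wt l 2 = l / 16 := by
    simp only [Sys.wt]
    norm_num
  have w3 : Sys.wt l 3 = l / 64 := by
    simp only [Sys.wt]
    norm_num
  have i0 : (Sys.wt l 0)⁻¹ = l / 64 := by rw [w0, hinv]
  have i1 : (Sys.wt l 1)⁻¹ = l / 16 := by
    rw [w1, inv_div, div_eq_mul_inv, hinv]
    ring
  have i2 : (Sys.wt l 2)⁻¹ = l / 4 := by
    rw [w2, inv_div, div_eq_mul_inv, hinv]
    ring
  have i3 : (Sys.wt l 3)⁻¹ = l := by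
    rw [w3, inv_div, div_eq_mul_inv, hinv]
    ring
  have c1 : Sys.cst l 1 = -189 / 64 := by
    simp only [Sys.cst, w0]
    rw [hl2]
    norm_num
  have c2 : Sys.cst l 2 = -225 / 16 := by
    have : Sys.cst l 2 = 3 / (Sys.wt l 1) ^ 2 + 4 * Sys.cst l 1 - 3 := rfl
    rw [this, c1, w1, div_pow, hl2]
    norm_num
  have c3 : Sys.cst l 3 = -189 / 4 := by
    have : Sys.cst l 3 = 3 / (Sys.wt l 2) ^ 2 + 4 * Sys.cst l 2 - 3 := rfl
    rw [this, c2, w2, div_pow, hl2]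
    norm_num
  -- the two matrices in the basis of weight vectors
  obtain ⟨T0, hT0⟩ : ∃ t, t = a + b * (l / 64) + c * l + d := ⟨_, rfl⟩
  obtain ⟨T1, hT1⟩ : ∃ t, t = a + b * (l / 16) + c * (l / 4) + d := ⟨_, rfl⟩
  obtain ⟨T2, hT2⟩ : ∃ t, t = a + b * (l / 4) + c * (l / 16) + d := ⟨_, rfl⟩
  obtain ⟨T3, hT3⟩ : ∃ t, t = a + b * l + c * (l / 64) + d := ⟨_, rfl⟩
  obtain ⟨t0, ht0⟩ : ∃ t, t = a' + b' * l + c' * (l / 64) + d' := ⟨_, rfl⟩
  obtain ⟨t1, ht1⟩ : ∃ t, t = a' + b' * (l / 4) + c' * (l / 16) + d' := ⟨_, rfl⟩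
  obtain ⟨t2, ht2⟩ : ∃ t, t = a' + b' * (l / 16) + c' * (l / 4) + d' := ⟨_, rfl⟩
  obtain ⟨t3, ht3⟩ : ∃ t, t = a' + b' * (l / 64) + c' * l + d' := ⟨_, rfl⟩
  obtain ⟨α1, hα1⟩ : ∃ t, t = (b + d * (l / 4)) * (-189 / 64) := ⟨_, rfl⟩
  obtain ⟨α2, hα2⟩ : ∃ t, t = (b + d * (l / 16)) * (-225 / 16) := ⟨_, rfl⟩
  obtain ⟨α3, hα3⟩ : ∃ t, t = (b + d * (l / 64)) * (-189 / 4) := ⟨_, rfl⟩
  obtain ⟨β0, hβ0⟩ : ∃ t, t = c' + d' * (l / 4) := ⟨_, rfl⟩
  obtain ⟨β1, hβ1⟩ : ∃ t, t = c' + d' * (l / 16) := ⟨_, rfl⟩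
  obtain ⟨β2, hβ2⟩ : ∃ t, t = c' + d' * (l / 64) := ⟨_, rfl⟩
  have A0 : mA ℂ *ᵥ v 0 = T0 • v 0 := by
    have h := hA0
    rw [Matrix.toLin'_apply, i0, w0, ← hT0] at h
    exact h
  have A1 : mA ℂ *ᵥ v 1 = T1 • v 1 + α1 • v 0 := by
    have h := hA' 0
    rw [Matrix.toLin'_apply, zero_add, i1, w1, c1, ← hT1, ← hα1] at h
    exact h
  have A2 : mA ℂ *ᵥ v 2 = T2 • v 2 + α2 • v 1 := by
    have h := hA' 1
    rw [Matrix.toLin'_apply, one_add_one_eq_two, i2, w2, c2, ← hT2, ← hα2] at h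
    exact h
  have A3 : mA ℂ *ᵥ v 3 = T3 • v 3 + α3 • v 2 := by
    have h := hA' 2
    have e : 2 + 1 = 3 := rfl
    rw [Matrix.toLin'_apply, e, i3, w3, c3, ← hT3, ← hα3] at h
    exact h
  have B0 : mB ℂ *ᵥ v 0 = t0 • v 0 + β0 • v 1 := by
    have h := hB' 0
    rw [Matrix.toLin'_apply, zero_add, i0, w0, w1, ← ht0, ← hβ0] at h
    exact h
  have B1 : mB ℂ *ᵥ v 1 = t1 • v 1 + β1 • v 2 := by
    have h := hB' 1
    rw [Matrix.toLin'_apply, one_add_one_eq_two, i1, w1, w2, ← ht1, ← hβ1] at h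
    exact h
  have B2 : mB ℂ *ᵥ v 2 = t2 • v 2 + β2 • v 3 := by
    have h := hB' 2
    have e : 2 + 1 = 3 := rfl
    rw [Matrix.toLin'_apply, e, i2, w2, w3, ← ht2, ← hβ2] at h
    exact h
  have B3 : mB ℂ *ᵥ v 3 = t3 • v 3 := by
    have h := hB' 3
    have e : (3 : ℕ) + 1 = 4 := rfl
    have hv4' : v 4 = 0 := hv4
    rw [Matrix.toLin'_apply, i3, w3, e, hv4', smul_zero, add_zero, ← ht3] at h
    exact h
  set P : Matrix (Fin 4) (Fin 4) ℂ := Matrix.of fun i k => v k i with hP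
  have hdet : P.det ≠ 0 := by
    intro h0
    obtain ⟨u, hu, hu0⟩ := Matrix.exists_vecMul_eq_zero_iff.2 h0
    apply hu
    have h1 : ∀ w : Fin 4 → ℂ, w ∈ Submodule.span ℂ (Set.range fun k : Fin (3 + 1) => v k) →
        u ⬝ᵥ w = 0 := by
      intro w hw
      induction hw using Submodule.span_induction with
      | mem w hw =>
        obtain ⟨k, rfl⟩ := hw
        exact congrFun hu0 k
      | zero => simp
      | add a b _ _ ha hb => rw [dotProduct_add, ha, hb, add_zero]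
      | smul c a _ ha => rw [dotProduct_smul, ha, smul_zero]
    funext i
    have h2 := h1 (Pi.single i 1) (hspan Submodule.mem_top)
    rwa [dotProduct_single, mul_one] at h2
  set UA : Matrix (Fin 4) (Fin 4) ℂ :=
    !![T0, α1, 0, 0; 0, T1, α2, 0; 0, 0, T2, α3; 0, 0, 0, T3] with hUA
  set LB : Matrix (Fin 4) (Fin 4) ℂ :=
    !![t0, 0, 0, 0; β0, t1, 0, 0; 0, β1, t2, 0; 0, 0, β2, t3] with hLB
  have hmulP : ∀ (M : Matrix (Fin 4) (Fin 4) ℂ) (i k : Fin 4), (M * P) i k = (M *ᵥ v k) i :=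
    fun M i k => rfl
  have hAP : mA ℂ * P = P * UA := by
    ext i k
    rw [hmulP, Matrix.mul_apply, Fin.sum_univ_four]
    fin_cases k
    · have := congrFun A0 i
      simp [hUA, hP] at this ⊢
      rw [this]
      ring
    · have := congrFun A1 i
      simp [hUA, hP] at this ⊢
      rw [this]
      ring
    · have := congrFun A2 i
      simp [hUA, hP] at this ⊢
      rw [this]
      ring
    · have := congrFun A3 i
      simp [hUA, hP] at this ⊢
      rw [this]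
      ring
  have hBP : mB ℂ * P = P * LB := by
    ext i k
    rw [hmulP, Matrix.mul_apply, Fin.sum_univ_four]
    fin_cases k
    · have := congrFun B0 i
      simp [hLB, hP] at this ⊢
      rw [this]
      ring
    · have := congrFun B1 i
      simp [hLB, hP] at this ⊢
      rw [this]
      ring
    · have := congrFun B2 i
      simp [hLB, hP] at this ⊢
      rw [this]
      ring
    · have := congrFun B3 i
      simp [hLB, hP] at this ⊢
      rw [this]
      ring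
  have hPu : IsUnit P.det := isUnit_iff_ne_zero.2 hdet
  -- determinants
  have hdetA : ∀ μ : ℂ, (μ - T0) * (μ - T1) * (μ - T2) * (μ - T3) =
      (μ - 21) * (μ - 4) * (μ + 4) * (μ + 21) := by
    intro μ
    have h1 : (μ • (1 : Matrix (Fin 4) (Fin 4) ℂ) - mA ℂ) * P =
        P * (μ • (1 : Matrix (Fin 4) (Fin 4) ℂ) - UA) := by
      rw [Matrix.sub_mul, Matrix.mul_sub, hAP, Matrix.smul_mul, Matrix.mul_smul, Matrix.one_mul,
        Matrix.mul_one]
    have h2 := congrArg Matrix.det h1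
    rw [Matrix.det_mul, Matrix.det_mul, mul_comm] at h2
    have h3 := mul_left_cancel₀ hdet h2
    have h4 : (μ • (1 : Matrix (Fin 4) (Fin 4) ℂ) - UA).det =
        (μ - T0) * (μ - T1) * (μ - T2) * (μ - T3) := by
      rw [Matrix.det_succ_row_zero]
      simp [Fin.sum_univ_succ, Matrix.det_fin_three, hUA, Fin.succAbove, Matrix.one_apply]
      ring
    have h5 : (μ • (1 : Matrix (Fin 4) (Fin 4) ℂ) - mA ℂ).det =
        (μ - 21) * (μ - 4) * (μ + 4) * (μ + 21) := by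
      rw [Matrix.det_succ_row_zero]
      simp [Fin.sum_univ_succ, Matrix.det_fin_three, mA, Fin.succAbove, Matrix.one_apply]
      ring
    rw [← h4, ← h5]
    exact h3.symm
  have hdetB : ∀ μ : ℂ, (μ - t0) * (μ - t1) * (μ - t2) * (μ - t3) =
      (μ - 21) * (μ - 4) * (μ + 4) * (μ + 21) := by
    intro μ
    have h1 : (μ • (1 : Matrix (Fin 4) (Fin 4) ℂ) - mB ℂ) * P =
        P * (μ • (1 : Matrix (Fin 4) (Fin 4) ℂ) - LB) := by
      rw [Matrix.sub_mul, Matrix.mul_sub, hBP, Matrix.smul_mul, Matrix.mul_smul, Matrix.one_mul,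
        Matrix.mul_one]
    have h2 := congrArg Matrix.det h1
    rw [Matrix.det_mul, Matrix.det_mul, mul_comm] at h2
    have h3 := mul_left_cancel₀ hdet h2
    have h4 : (μ • (1 : Matrix (Fin 4) (Fin 4) ℂ) - LB).det =
        (μ - t0) * (μ - t1) * (μ - t2) * (μ - t3) := by
      rw [Matrix.det_succ_row_zero]
      simp [Fin.sum_univ_succ, Matrix.det_fin_three, hLB, Fin.succAbove, Matrix.one_apply]
      ring
    have h5 : (μ • (1 : Matrix (Fin 4) (Fin 4) ℂ) - mB ℂ).det =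
        (μ - 21) * (μ - 4) * (μ + 4) * (μ + 21) := by
      rw [Matrix.det_succ_row_zero]
      simp [Fin.sum_univ_succ, Matrix.det_fin_three, mB, Fin.succAbove, Matrix.one_apply]
      ring
    rw [← h4, ← h5]
    exact h3.symm
  obtain ⟨s, hs, hs0, hs1, hs2, hs3⟩ := perm4 T0 T1 T2 T3
    (by rw [hdetA]; ring) (by rw [hdetA]; ring) (by rw [hdetA]; ring) (by rw [hdetA]; ring)
    (by rw [hT0, hT1, hT2, hT3]; ring)
  obtain ⟨r, hr, hr0, hr1, hr2, hr3⟩ := perm4 t0 t1 t2 t3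
    (by rw [hdetB]; ring) (by rw [hdetB]; ring) (by rw [hdetB]; ring) (by rw [hdetB]; ring)
    (by rw [ht0, ht1, ht2, ht3]; ring)
  -- traces
  have htr : ∀ M N : Matrix (Fin 4) (Fin 4) ℂ, M * P = P * N → M.trace = N.trace := by
    intro M N h
    have h1 : M = P * N * P⁻¹ := by
      rw [← h, Matrix.mul_assoc, Matrix.mul_nonsing_inv _ hPu, Matrix.mul_one]
    rw [h1, Matrix.trace_mul_comm, ← Matrix.mul_assoc, Matrix.nonsing_inv_mul _ hPu,
      Matrix.one_mul]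
  have hAB : T0 * t0 + T1 * t1 + T2 * t2 + T3 * t3 + α1 * β0 + α2 * β1 + α3 * β2 = 0 := by
    have h := htr (mA ℂ * mB ℂ) (UA * LB) (by
      rw [Matrix.mul_assoc, hBP, ← Matrix.mul_assoc, hAP, Matrix.mul_assoc])
    simp [Matrix.trace, Matrix.mul_apply, Fin.sum_univ_four, mA, mB, hUA, hLB] at h
    linear_combination -h
  have hAAB : T0 ^ 2 * t0 + T1 ^ 2 * t1 + T2 ^ 2 * t2 + T3 ^ 2 * t3 + (T0 + T1) * α1 * β0 +
      (T1 + T2) * α2 * β1 + (T2 + T3) * α3 * β2 = 0 := by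
    have h := htr (mA ℂ * (mA ℂ * mB ℂ)) (UA * (UA * LB)) (by
      rw [Matrix.mul_assoc, Matrix.mul_assoc, hBP, ← Matrix.mul_assoc (mA ℂ) P, hAP,
        ← Matrix.mul_assoc (mA ℂ), ← Matrix.mul_assoc (mA ℂ), hAP]
      simp only [Matrix.mul_assoc])
    simp [Matrix.trace, Matrix.mul_apply, Fin.sum_univ_four, mA, mB, hUA, hLB] at h
    linear_combination -h
  -- the coefficients
  have hb : b * l = -64 / 3 * s := by
    have e1 : T0 - T3 = 42 * s := by rw [hs0, hs3]; ring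
    have e2 : T0 + T3 = 0 := by rw [hs0, hs3]; ring
    have e3 : T1 + T2 = 0 := by rw [hs1, hs2]; ring
    rw [hT0, hT3] at e1 e2
    rw [hT1, hT2] at e3
    linear_combination (-32 / 63) * e1 + (32 / 45) * (e2 - e3)
  have hc' : c' * l = -64 / 3 * r := by
    have e1 : t0 - t3 = 42 * r := by rw [hr0, hr3]; ring
    have e2 : t0 + t3 = 0 := by rw [hr0, hr3]; ring
    have e3 : t1 + t2 = 0 := by rw [hr1, hr2]; ring
    rw [ht0, ht3] at e1 e2
    rw [ht1, ht2] at e3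
    linear_combination (-32 / 63) * e1 + (32 / 45) * (e2 - e3)
  have hb' : b = -(s * l) / 3 := by
    have h1 : b * l ^ 2 = -64 / 3 * s * l := by linear_combination l * hb
    rw [hl2] at h1
    linear_combination (1 / 64) * h1
  have hc'' : c' = -(r * l) / 3 := by
    have h1 : c' * l ^ 2 = -64 / 3 * r * l := by linear_combination l * hc'
    rw [hl2] at h1
    linear_combination (1 / 64) * h1
  have p1 : α1 * β0 = -189 * ((-s / 3 + d / 4) * (-r / 3 + d' / 4)) := by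
    rw [hα1, hβ0, hb', hc'']
    linear_combination (-189 / 64) * ((-s / 3 + d / 4) * (-r / 3 + d' / 4)) * hl2
  have p2 : α2 * β1 = -900 * ((-s / 3 + d / 16) * (-r / 3 + d' / 16)) := by
    rw [hα2, hβ1, hb', hc'']
    linear_combination (-225 / 16) * ((-s / 3 + d / 16) * (-r / 3 + d' / 16)) * hl2
  have p3 : α3 * β2 = -3024 * ((-s / 3 + d / 64) * (-r / 3 + d' / 64)) := by
    rw [hα3, hβ2, hb', hc'']
    linear_combination (-189 / 4) * ((-s / 3 + d / 64) * (-r / 3 + d' / 64)) * hl2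
  have q1 : 25 * s * (α1 * β0 - α3 * β2) = 0 := by
    rw [hs0, hs1, hs2, hs3, hr0, hr1, hr2, hr3] at hAAB
    linear_combination hAAB
  have q2 : 914 * s * r + α1 * β0 + α2 * β1 + α3 * β2 = 0 := by
    rw [hs0, hs1, hs2, hs3, hr0, hr1, hr2, hr3] at hAB
    linear_combination hAB
  have q3 : α1 * β0 = α3 * β2 := by
    linear_combination (s / 25) * q1 - (α1 * β0 - α3 * β2) * hs
  rw [p1, p3] at q3
  rw [p1, p2, p3] at q2
  have E1 : d * d' = 256 / 9 * (s * r) := by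
    linear_combination (-4096 / 45360) * q3
  have E2 : s * d' + r * d = 0 := by
    linear_combination (4 / 201) * q2 + (4 / 201) * (4113 / 256) * E1
  have E3 : d' = -(s * r * d) := by
    linear_combination s * E2 - d' * hs
  rw [E3] at E1
  linear_combination (-(s * r)) * E1 + (-(r * r * d ^ 2) - 256 / 9 * r * r) * hs +
    (-(d ^ 2) - 256 / 9) * hr

end Pool.Agent.Q110.UqPair
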